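import Mathlib
import Pool.Agent.Helper150.Iid.Asm2

set_option autoImplicit false

namespace Pool.Agent.H429Z.Ran

open MeasureTheory
open scoped ENNReal ContDiff
open Pool.Agent.Helper150.Iid

noncomputable section

/-- Weighted square sums of Fourier coefficients are bounded by `E`. -/
def Bd (W : (Fin 2 → ℤ) → ℝ) (g : Tor 2 → ℝ) (E : ℝ) : Prop :=
  ∀ s : Finset (Fin 2 → ℤ), ∑ h ∈ s, ‖fc g h‖ ^ 2 * W h ≤ E

theorem wt_nonneg (k : ℝ) (h : Fin 2 → ℤ) : 0 ≤ wt k h :=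
  Finset.prod_nonneg fun j _ => Real.rpow_nonneg (by positivity) _

theorem wt_pos' (k : ℝ) (h : Fin 2 → ℤ) : 0 < wt k h :=
  Finset.prod_pos fun j _ => Real.rpow_pos_of_pos (by positivity) _

theorem Bd.nonneg {W : (Fin 2 → ℤ) → ℝ} {g : Tor 2 → ℝ} {E : ℝ} (h : Bd W g E) : 0 ≤ E := by
  simpa using h ∅

theorem Bd.mono {W W' : (Fin 2 → ℤ) → ℝ} {g : Tor 2 → ℝ} {E E' : ℝ} (h : Bd W g E)
    (hW : ∀ h, W' h ≤ W h) (hE : E ≤ E') : Bd W' g E' := by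
  intro s
  refine le_trans (Finset.sum_le_sum fun x _ => ?_) ((h s).trans hE)
  exact mul_le_mul_of_nonneg_left (hW x) (by positivity)

theorem bd_of_tsum {W : (Fin 2 → ℤ) → ℝ} (hW : ∀ h, 0 ≤ W h) {g : Tor 2 → ℝ} {E : ℝ}
    (hs : Summable fun h => ‖fc g h‖ ^ 2 * W h) (ht : ∑' h, ‖fc g h‖ ^ 2 * W h ≤ E) :
    Bd W g E := by
  intro s
  exact (hs.sum_le_tsum s fun h _ => mul_nonneg (by positivity) (hW h)).trans ht

theorem Bd.summable {W : (Fin 2 → ℤ) → ℝ} (hW : ∀ h, 0 ≤ W h) {g : Tor 2 → ℝ} {E : ℝ}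
    (h : Bd W g E) : Summable fun h => ‖fc g h‖ ^ 2 * W h :=
  summable_of_sum_le (fun x => mul_nonneg (by positivity) (hW x)) h

theorem Bd.mem_ball {k : ℝ} {g : Tor 2 → ℝ} (hg : Continuous g) (h : Bd (wt k) g 1) :
    g ∈ ball 2 k := by
  refine ⟨hg, h.summable (wt_nonneg k), ?_⟩
  exact (h.summable (wt_nonneg k)).tsum_le_of_sum_le h

theorem fc_add (f g : Tor 2 → ℝ) (hf : Continuous f) (hg : Continuous g) (h : Fin 2 → ℤ) :
    fc (fun x => f x + g x) h = fc f h + fc g h := by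
  have h1 := fc_sub f (fun x => (-1 : ℝ) * g x) hf (continuous_const.mul hg) h
  rw [fc_smul] at h1
  have h2 : (fun x => f x - (-1 : ℝ) * g x) = fun x => f x + g x := by
    funext x; ring
  rw [h2] at h1
  rw [h1]
  push_cast
  ring

theorem Bd.add {W : (Fin 2 → ℤ) → ℝ} (hW : ∀ h, 0 ≤ W h) {f g : Tor 2 → ℝ} {E E' : ℝ}
    (hf : Continuous f) (hg : Continuous g) (h1 : Bd W f E) (h2 : Bd W g E') :
    Bd W (fun x => f x + g x) (2 * E + 2 * E') := by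
  intro s
  have h3 : ∀ h ∈ s, ‖fc (fun x => f x + g x) h‖ ^ 2 * W h ≤
      2 * (‖fc f h‖ ^ 2 * W h) + 2 * (‖fc g h‖ ^ 2 * W h) := by
    intro h _
    rw [fc_add f g hf hg]
    have h4 := norm_add_le (fc f h) (fc g h)
    have h5 : ‖fc f h + fc g h‖ ^ 2 ≤ 2 * ‖fc f h‖ ^ 2 + 2 * ‖fc g h‖ ^ 2 := by
      nlinarith [norm_nonneg (fc f h + fc g h), sq_nonneg (‖fc f h‖ - ‖fc g h‖),
        norm_nonneg (fc f h), norm_nonneg (fc g h)]
    nlinarith [mul_le_mul_of_nonneg_right h5 (hW h)]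
  refine (Finset.sum_le_sum h3).trans ?_
  rw [Finset.sum_add_distrib, ← Finset.mul_sum, ← Finset.mul_sum]
  linarith [h1 s, h2 s]

theorem Bd.smul {W : (Fin 2 → ℤ) → ℝ} {f : Tor 2 → ℝ} {E : ℝ} (c : ℝ) (h1 : Bd W f E) :
    Bd W (fun x => c * f x) (c ^ 2 * E) := by
  intro s
  have h3 : ∀ h ∈ s, ‖fc (fun x => c * f x) h‖ ^ 2 * W h = c ^ 2 * (‖fc f h‖ ^ 2 * W h) := by
    intro h _
    rw [fc_smul, norm_mul, Complex.norm_real, Real.norm_eq_abs, mul_pow, sq_abs]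
    ring
  rw [Finset.sum_congr rfl h3, ← Finset.mul_sum]
  exact mul_le_mul_of_nonneg_left (h1 s) (by positivity)

theorem Bd.add_weight {W W' : (Fin 2 → ℤ) → ℝ} {f : Tor 2 → ℝ} {E E' : ℝ} (c : ℝ) (hc : 0 ≤ c)
    (h1 : Bd W f E) (h2 : Bd W' f E') : Bd (fun h => W h + c * W' h) f (E + c * E') := by
  intro s
  have h3 : ∀ h ∈ s, ‖fc f h‖ ^ 2 * (W h + c * W' h) =
      ‖fc f h‖ ^ 2 * W h + c * (‖fc f h‖ ^ 2 * W' h) := by
    intro h _; ring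
  rw [Finset.sum_congr rfl h3, Finset.sum_add_distrib, ← Finset.mul_sum]
  have := mul_le_mul_of_nonneg_left (h2 s) hc
  linarith [h1 s]

theorem fc_zero' (f : Tor 2 → ℝ) : fc f 0 = ((∫ x, f x : ℝ) : ℂ) := by
  unfold fc
  rw [← integral_complex_ofReal]
  congr 1
  funext x
  simp

theorem wt_zero (k : ℝ) : wt k (0 : Fin 2 → ℤ) = 1 := by simp [wt]

theorem Bd.integral_sq {k : ℝ} {f : Tor 2 → ℝ} {E : ℝ} (h : Bd (wt k) f E) :
    (∫ x, f x) ^ 2 ≤ E := by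
  have h1 := h {0}
  rw [Finset.sum_singleton, fc_zero', wt_zero, Complex.norm_real, Real.norm_eq_abs, sq_abs,
    mul_one] at h1
  exact h1

/-- One-dimensional version. -/
def Bd1 (s : ℝ) (U : ℝ → ℝ) (E : ℝ) : Prop :=
  ∀ t : Finset ℤ, ∑ m ∈ t, ‖fone U m‖ ^ 2 * (1 + (m : ℝ) ^ 2) ^ s ≤ E

theorem Bd1.nonneg {s : ℝ} {U : ℝ → ℝ} {E : ℝ} (h : Bd1 s U E) : 0 ≤ E := by
  simpa using h ∅

theorem bd_tensor {s : ℝ} {U V : ℝ → ℝ} {E E' : ℝ} (cU : Continuous U) (cV : Continuous V)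
    (pU : Function.Periodic U 1) (pV : Function.Periodic V 1)
    (h1 : Bd1 s U E) (h2 : Bd1 s V E') :
    Bd (wt s) (fun x => cf U (x 0) * cf V (x 1)) (E * E') := by
  classical
  intro t
  have hfc : ∀ h : Fin 2 → ℤ, fc (d := 2) (fun x => cf U (x 0) * cf V (x 1)) h =
      fone U (h 0) * fone V (h 1) := by
    intro h
    have := fc_tensor (ι := Unit) Finset.univ (fun _ => 1) (fun _ => U) (fun _ => V)
      (fun _ => cU) (fun _ => cV) (fun _ => pU) (fun _ => pV) h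
    simpa using this
  have hterm : ∀ h : Fin 2 → ℤ, ‖fc (d := 2) (fun x => cf U (x 0) * cf V (x 1)) h‖ ^ 2 * wt s h =
      (‖fone U (h 0)‖ ^ 2 * (1 + (h 0 : ℝ) ^ 2) ^ s) *
        (‖fone V (h 1)‖ ^ 2 * (1 + (h 1 : ℝ) ^ 2) ^ s) := by
    intro h
    rw [hfc, norm_mul, wt, Fin.prod_univ_two]
    ring
  simp only [hterm]
  obtain ⟨a, ha⟩ : ∃ a : ℤ → ℝ, a = fun m => ‖fone U m‖ ^ 2 * (1 + (m : ℝ) ^ 2) ^ s := ⟨_, rfl⟩
  obtain ⟨b, hb⟩ : ∃ b : ℤ → ℝ, b = fun m => ‖fone V m‖ ^ 2 * (1 + (m : ℝ) ^ 2) ^ s := ⟨_, rfl⟩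
  have ha0 : ∀ m, 0 ≤ a m := fun m => by
    rw [ha]; exact mul_nonneg (by positivity) (Real.rpow_nonneg (by positivity) _)
  have hb0 : ∀ m, 0 ≤ b m := fun m => by
    rw [hb]; exact mul_nonneg (by positivity) (Real.rpow_nonneg (by positivity) _)
  have e1 : ∑ h ∈ t, (‖fone U (h 0)‖ ^ 2 * (1 + (h 0 : ℝ) ^ 2) ^ s) *
        (‖fone V (h 1)‖ ^ 2 * (1 + (h 1 : ℝ) ^ 2) ^ s) =
      ∑ p ∈ t.image (fun h => (h 0, h 1)), a p.1 * b p.2 := by
    rw [Finset.sum_image]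
    · rw [ha, hb]
    · intro x _ y _ hxy
      simp only [Prod.mk.injEq] at hxy
      funext j
      fin_cases j
      · exact hxy.1
      · exact hxy.2
  rw [e1]
  have hsub : t.image (fun h => (h 0, h 1)) ⊆ (t.image (fun h => h 0)) ×ˢ (t.image (fun h => h 1)) := by
    intro p hp
    obtain ⟨h, hh, rfl⟩ := Finset.mem_image.1 hp
    exact Finset.mem_product.2 ⟨Finset.mem_image_of_mem _ hh, Finset.mem_image_of_mem _ hh⟩
  refine (Finset.sum_le_sum_of_subset_of_nonneg hsub fun p _ _ =>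
    mul_nonneg (ha0 _) (hb0 _)).trans ?_
  rw [Finset.sum_product, ]
  simp only [← Finset.mul_sum]
  rw [← Finset.sum_mul]
  have h3 := h1 (t.image (fun h => h 0))
  have h4 := h2 (t.image (fun h => h 1))
  refine mul_le_mul (by rw [ha]; exact h3) (by rw [hb]; exact h4)
    (Finset.sum_nonneg fun _ _ => hb0 _) h1.nonneg

end

end Pool.Agent.H429Z.Ran
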