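import Mathlib
import Pool.Agent.Helper150.Iid.Defs

set_option autoImplicit false

namespace Pool.Agent.H429Z.Ran

open MeasureTheory
open scoped ENNReal
open Pool.Agent.Helper150.Iid

noncomputable section

/-- The Monte Carlo error `e^ran(A) = sup_{‖f‖ ≤ 1} E |S(f) - A(f)|` (upper integral). -/
def errRan {d n : ℕ} (A : RandAlg d n) (k : ℝ) : ℝ≥0∞ :=
  letI := A.mΩ
  ⨆ f ∈ ball d k, upperInt A.μ
    (fun ω => ENNReal.ofReal |(∫ x, f x) - A.φ ω (fun i => f (A.P ω i))|)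

/-- The reconstruction map `(ω, y) ↦ φ ω y` of `A` is jointly measurable. -/
def MeasAlg {d n : ℕ} (A : RandAlg d n) : Prop :=
  letI := A.mΩ
  Measurable (fun p : A.Ω × (Fin n → ℝ) => A.φ p.1 p.2)

/-- `e^ran(𝒫_n)`: optimal Monte Carlo error of admissible algorithms based on `n` i.i.d. uniform
points. -/
def ranIid (Adm : ∀ d n : ℕ, RandAlg d n → Prop) (d : ℕ) (k : ℝ) (n : ℕ) : ℝ≥0∞ :=
  ⨅ (A : RandAlg d n) (_ : Adm d n A) (_ : A.IsIid), errRan A k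

/-- `e^ran(n)`: optimal Monte Carlo error of admissible algorithms based on arbitrary random point
sets with at most `n` points. -/
def ranOpt (Adm : ∀ d n : ℕ, RandAlg d n → Prop) (d : ℕ) (k : ℝ) (n : ℕ) : ℝ≥0∞ :=
  ⨅ (A : RandAlg d n) (_ : Adm d n A), errRan A k

/-- `a_n ≍ b_n`: `c b_n ≤ a_n ≤ C b_n` for all large `n`, with `c > 0` and `C` independent
of `n`. -/
def SameOrder (a b : ℕ → ℝ≥0∞) : Prop :=
  ∃ c C : ℝ, 0 < c ∧ ∃ n₀ : ℕ, ∀ n : ℕ, n₀ ≤ n →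
    ENNReal.ofReal c * b n ≤ a n ∧ a n ≤ ENNReal.ofReal C * b n

end

end Pool.Agent.H429Z.Ran
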