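import Mathlib
import Pool.Agent.H429Z.Ran.Bd

set_option autoImplicit false

namespace Pool.Agent.H429Z.Ran

open MeasureTheory Filter Topology
open scoped ENNReal ContDiff
open Pool.Agent.Helper150.Iid

noncomputable section

theorem parseval1 {U : ℝ → ℝ} (pU : Function.Periodic U 1) (cU : Continuous U) :
    HasSum (fun m : ℤ => ‖fone U m‖ ^ 2) (∫ t : UnitAddCircle, (cf U t) ^ 2) := by
  have hc : Continuous (fun x : UnitAddCircle => ((cf U x : ℝ) : ℂ)) :=
    Complex.continuous_ofReal.comp (cf_continuous pU cU)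
  let F : C(UnitAddCircle, ℂ) := ⟨fun x => ((cf U x : ℝ) : ℂ), hc⟩
  have key := hasSum_sq_fourierCoeff (T := 1)
    (ContinuousMap.toLp (E := ℂ) 2 (AddCircle.haarAddCircle (T := 1)) ℂ F)
  have h1 : ∀ i, fourierCoeff (T := 1)
      (ContinuousMap.toLp (E := ℂ) 2 (AddCircle.haarAddCircle (T := 1)) ℂ F) i = fone U i := by
    intro i
    rw [fourierCoeff_toLp]
    unfold fourierCoeff fone
    rw [vol_circle]
    rfl
  simp only [h1] at key
  rw [vol_circle]
  convert key using 1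
  apply integral_congr_ae
  have h2 : (ContinuousMap.toLp (E := ℂ) 2 (AddCircle.haarAddCircle (T := 1)) ℂ F)
      =ᵐ[AddCircle.haarAddCircle (T := 1)] F := ContinuousMap.coeFn_toLp _ F
  filter_upwards [h2] with x hx
  rw [hx]
  show cf U x ^ 2 = ‖((cf U x : ℝ) : ℂ)‖ ^ 2
  rw [Complex.norm_real, Real.norm_eq_abs, sq_abs]

theorem wt1_le (s : ℝ) (hs0 : 0 ≤ s) (hs : s ≤ 2) (A y : ℝ) (hA : 1 ≤ A) (hy : 0 ≤ y) :
    (1 + y) ^ s ≤ 4 * (A ^ s + A ^ (s - 2) * y ^ 2) := by
  have hA0 : 0 < A := by linarith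
  have h2 : (2:ℝ) ^ s ≤ 4 := by
    calc (2:ℝ) ^ s ≤ (2:ℝ) ^ (2:ℝ) := Real.rpow_le_rpow_of_exponent_le (by norm_num) hs
      _ = 4 := by norm_num
  have hp1 : 0 ≤ A ^ s := Real.rpow_nonneg hA0.le _
  have hp2 : 0 ≤ A ^ (s - 2) * y ^ 2 := mul_nonneg (Real.rpow_nonneg hA0.le _) (by positivity)
  rcases le_total y A with h | h
  · calc (1 + y) ^ s ≤ (2 * A) ^ s := Real.rpow_le_rpow (by linarith) (by linarith) hs0
      _ = 2 ^ s * A ^ s := Real.mul_rpow (by norm_num) hA0.le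
      _ ≤ 4 * A ^ s := mul_le_mul_of_nonneg_right h2 hp1
      _ ≤ _ := by linarith
  · have hy0 : 0 < y := by linarith
    calc (1 + y) ^ s ≤ (2 * y) ^ s := Real.rpow_le_rpow (by linarith) (by linarith) hs0
      _ = 2 ^ s * y ^ s := Real.mul_rpow (by norm_num) hy
      _ ≤ 4 * y ^ s := mul_le_mul_of_nonneg_right h2 (Real.rpow_nonneg hy _)
      _ = 4 * (y ^ (s - 2) * y ^ 2) := by
          rw [← Real.rpow_natCast y 2, ← Real.rpow_add hy0]
          norm_num
      _ ≤ 4 * (A ^ (s - 2) * y ^ 2) := by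
          have := Real.rpow_le_rpow_of_nonpos hA0 h (by linarith : s - 2 ≤ 0)
          have := mul_le_mul_of_nonneg_right this (by positivity : 0 ≤ y ^ 2)
          linarith
      _ ≤ _ := by linarith

theorem bd1_of_L2 (s : ℝ) (hs0 : 0 ≤ s) (hs : s ≤ 2) {U : ℝ → ℝ} (pU : Function.Periodic U 1)
    (hU : ContDiff ℝ ∞ U) (A : ℝ) (hA : 1 ≤ A) :
    Bd1 s U (4 * (A ^ s * (∫ t : UnitAddCircle, (cf U t) ^ 2) +
      A ^ (s - 2) * ∫ t : UnitAddCircle, (cf (iteratedDeriv 2 U) t) ^ 2)) := by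
  intro t
  have hA0 : 0 < A := by linarith
  have h0 := parseval1 pU hU.continuous
  have h2 := parseval1 (fone_iter pU hU 0 2).1 (fone_iter pU hU 0 2).2.1.continuous
  have h3 : ∀ m ∈ t, ‖fone U m‖ ^ 2 * (1 + (m : ℝ) ^ 2) ^ s ≤
      4 * (A ^ s * ‖fone U m‖ ^ 2 + A ^ (s - 2) * ‖fone (iteratedDeriv 2 U) m‖ ^ 2) := by
    intro m _
    have h4 := wt1_le s hs0 hs A ((m : ℝ) ^ 2) hA (by positivity)
    have h5 : ((m : ℝ) ^ 2) ^ 2 * ‖fone U m‖ ^ 2 ≤ ‖fone (iteratedDeriv 2 U) m‖ ^ 2 := by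
      rw [(fone_iter pU hU m 2).2.2, norm_mul, mul_pow]
      refine mul_le_mul_of_nonneg_right ?_ (by positivity)
      rw [norm_pow, norm_mul, norm_mul, norm_mul, Complex.norm_I, Complex.norm_real,
        Complex.norm_intCast, Real.norm_eq_abs, abs_of_pos Real.pi_pos]
      have h6 : ‖(2 : ℂ)‖ = 2 := by simp
      rw [h6, mul_one]
      have h7 : (m : ℝ) ^ 2 ≤ (2 * Real.pi * |(m : ℝ)|) ^ 2 := by
        rw [mul_pow, sq_abs]
        have : (1:ℝ) ≤ (2 * Real.pi) ^ 2 := by nlinarith [Real.pi_gt_three]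
        nlinarith [sq_nonneg (m : ℝ)]
      exact pow_le_pow_left₀ (by positivity) h7 2
    have h8 : 0 ≤ A ^ (s - 2) := Real.rpow_nonneg hA0.le _
    have h9 := mul_le_mul_of_nonneg_left h4 (by positivity : 0 ≤ ‖fone U m‖ ^ 2)
    have h10 := mul_le_mul_of_nonneg_left h5 h8
    nlinarith
  refine (Finset.sum_le_sum h3).trans ?_
  rw [← Finset.mul_sum, Finset.sum_add_distrib, ← Finset.mul_sum, ← Finset.mul_sum]
  have a1 := sum_le_hasSum t (fun _ _ => by positivity) h0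
  have a2 := sum_le_hasSum t (fun _ _ => by positivity) h2
  have b1 := mul_le_mul_of_nonneg_left a1 (Real.rpow_nonneg hA0.le s)
  have b2 := mul_le_mul_of_nonneg_left a2 (Real.rpow_nonneg hA0.le (s - 2))
  linarith

theorem per_bound {U : ℝ → ℝ} (pU : Function.Periodic U 1) (cU : Continuous U) :
    ∃ M : ℝ, 0 ≤ M ∧ ∀ x, |U x| ≤ M := by
  have h := pU.isBounded_of_continuous one_ne_zero cU
  obtain ⟨M, hM⟩ := h.exists_norm_le
  refine ⟨max M 0, le_max_right _ _, fun x => ?_⟩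
  exact (hM (U x) ⟨x, rfl⟩).trans (le_max_left _ _)

theorem int_sq_le {D : ℝ → ℝ} (pD : Function.Periodic D 1) (cD : Continuous D) (x0 K B : ℝ)
    (hK : 1 ≤ K) (hB : ∀ x, |D x| ≤ B)
    (hz : ∀ x, 1 / (2 * K) ≤ ‖((x - x0 : ℝ) : UnitAddCircle)‖ → D x = 0) :
    ∫ t : UnitAddCircle, (cf D t) ^ 2 ≤ B ^ 2 / K := by
  have hK0 : 0 < K := by linarith
  have hle : ∀ t : UnitAddCircle, (cf D t) ^ 2 ≤
      (Metric.closedBall (x0 : UnitAddCircle) (1 / (2 * K))).indicator (fun _ => B ^ 2) t := by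
    intro t
    obtain ⟨x, rfl⟩ := QuotientAddGroup.mk_surjective t
    have h1 := cf_coe pD x
    by_cases h : (x : UnitAddCircle) ∈ Metric.closedBall (x0 : UnitAddCircle) (1 / (2 * K))
    · rw [Set.indicator_of_mem h]
      change cf D (x : UnitAddCircle) ^ 2 ≤ _
      rw [h1, ← sq_abs]
      exact pow_le_pow_left₀ (abs_nonneg _) (hB x) 2
    · rw [Set.indicator_of_notMem h]
      change cf D (x : UnitAddCircle) ^ 2 ≤ _
      rw [h1, hz x]
      · simp
      · rw [Metric.mem_closedBall, dist_eq_norm, not_le] at h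
        rw [AddCircle.coe_sub]
        exact h.le
  have hint : Integrable (fun t : UnitAddCircle => (cf D t) ^ 2) := by
    have : Continuous (fun t : UnitAddCircle => (cf D t) ^ 2) := (cf_continuous pD cD).pow 2
    exact this.integrable_of_hasCompactSupport (HasCompactSupport.of_compactSpace _)
  have hint2 : Integrable ((Metric.closedBall (x0 : UnitAddCircle) (1 / (2 * K))).indicator
      (fun _ => B ^ 2)) := (integrable_const _).indicator measurableSet_closedBall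
  refine (integral_mono hint hint2 hle).trans ?_
  rw [integral_indicator_const _ measurableSet_closedBall, smul_eq_mul]
  have hv : (volume : Measure UnitAddCircle).real
      (Metric.closedBall (x0 : UnitAddCircle) (1 / (2 * K))) ≤ 1 / K := by
    rw [measureReal_def, AddCircle.volume_closedBall, ENNReal.toReal_ofReal (by positivity)]
    refine (min_le_right _ _).trans (le_of_eq ?_)
    field_simp
  calc _ ≤ 1 / K * B ^ 2 := mul_le_mul_of_nonneg_right hv (by positivity)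
    _ = B ^ 2 / K := by ring

/-- The correction at one point. -/
def corr (U : ℝ → ℝ) (x0 K : ℝ) (x : ℝ) : ℝ := pb bb K x0 x * (U x - U x0)

theorem corr_per {U : ℝ → ℝ} (pU : Function.Periodic U 1) (x0 K : ℝ) :
    Function.Periodic (corr U x0 K) 1 := by
  intro x
  unfold corr
  rw [nice_bb.per K x0 x, pU x]

theorem corr_smooth {U : ℝ → ℝ} (hU : ContDiff ℝ ∞ U) (x0 K : ℝ) :
    ContDiff ℝ ∞ (corr U x0 K) :=
  (nice_bb.smooth K x0).mul (hU.sub contDiff_const)

theorem corr_two {U : ℝ → ℝ} (hU : ContDiff ℝ ∞ U) (x0 K x : ℝ) :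
    iteratedDeriv 2 (corr U x0 K) x = iteratedDeriv 2 (pb bb K x0) x * (U x - U x0) +
      2 * (iteratedDeriv 1 (pb bb K x0) x * deriv U x) +
      pb bb K x0 x * deriv (deriv U) x := by
  have hχ := nice_bb.smooth K x0
  have hχ1 : ContDiff ℝ ∞ (deriv (pb bb K x0)) := (contDiff_infty_iff_deriv.1 hχ).2
  have hU1 : ContDiff ℝ ∞ (deriv U) := (contDiff_infty_iff_deriv.1 hU).2
  have d1 : deriv (corr U x0 K) = fun y => deriv (pb bb K x0) y * (U y - U x0) +
      pb bb K x0 y * deriv U y := by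
    funext y
    have a1 := ((hχ.differentiable (by simp)) y).hasDerivAt
    have a2 := (((hU.differentiable (by simp)) y).hasDerivAt).sub_const (U x0)
    exact (a1.mul a2).deriv
  rw [iteratedDeriv_succ, iteratedDeriv_one, d1, iteratedDeriv_succ, iteratedDeriv_one]
  have a0 := ((hχ.differentiable (by simp)) x).hasDerivAt
  have a1 := ((hχ1.differentiable (by simp)) x).hasDerivAt
  have a2 := (((hU.differentiable (by simp)) x).hasDerivAt).sub_const (U x0)
  have a3 := ((hU1.differentiable (by simp)) x).hasDerivAt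
  have := ((a1.mul a2).add (a0.mul a3)).deriv
  refine this.trans ?_
  ring

theorem corr_small (s : ℝ) (hs0 : 0 ≤ s) (hs : s < 3 / 2) {U : ℝ → ℝ}
    (pU : Function.Periodic U 1) (hU : ContDiff ℝ ∞ U) (x0 ε : ℝ) (hε : 0 < ε) :
    ∀ᶠ K : ℝ in atTop, Bd1 s (corr U x0 K) ε := by
  have hU1 : ContDiff ℝ ∞ (deriv U) := (contDiff_infty_iff_deriv.1 hU).2
  have hU2 : ContDiff ℝ ∞ (deriv (deriv U)) := (contDiff_infty_iff_deriv.1 hU1).2
  obtain ⟨M1, hM10, hM1⟩ := per_bound (periodic_deriv pU) hU1.continuous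
  obtain ⟨M2, hM20, hM2⟩ := per_bound (periodic_deriv (periodic_deriv pU)) hU2.continuous
  obtain ⟨C0, hC00, hC0⟩ := nice_bb.bound 0
  obtain ⟨C1, hC10, hC1⟩ := nice_bb.bound 1
  obtain ⟨C2, hC20, hC2⟩ := nice_bb.bound 2
  have hlip : ∀ x, |U x - U x0| ≤ M1 * ‖((x - x0 : ℝ) : UnitAddCircle)‖ := by
    intro x
    rw [UnitAddCircle.norm_eq]
    have h1 : U x = U (x - round (x - x0)) := by
      have := pU.sub_int_mul_eq (x := x) (round (x - x0))
      rw [mul_one] at this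
      exact this.symm
    rw [h1]
    have h2 := Convex.norm_image_sub_le_of_norm_deriv_le (𝕜 := ℝ) (f := U) (s := Set.univ) (C := M1)
      (x := x0) (y := x - round (x - x0))
      (fun y _ => (hU.differentiable (by simp)) y) (fun y _ => hM1 y) convex_univ trivial trivial
    rw [Real.norm_eq_abs, Real.norm_eq_abs] at h2
    convert h2 using 3
    ring
  obtain ⟨B, hB⟩ : ∃ B : ℝ, B = (C0 * M1) ^ 2 + (C2 * M1 + 2 * (C1 * M1) + C0 * M2) ^ 2 := ⟨_, rfl⟩
  have hB0 : 0 ≤ B := by rw [hB]; positivity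
  have ht : Tendsto (fun K : ℝ => 4 * B * K ^ (-(3 - 2 * s))) atTop (𝓝 (4 * B * 0)) :=
    (tendsto_rpow_neg_atTop (by linarith)).const_mul _
  rw [mul_zero] at ht
  filter_upwards [ht.eventually_le_const hε, eventually_ge_atTop 1] with K hKε hK
  have hK0 : 0 < K := by linarith
  have hsup : ∀ x, ¬ (1 / (2 * K) ≤ ‖((x - x0 : ℝ) : UnitAddCircle)‖) → |U x - U x0| ≤ M1 / K := by
    intro x hx
    refine (hlip x).trans ?_
    rw [not_le] at hx
    have h1 : ‖((x - x0 : ℝ) : UnitAddCircle)‖ ≤ 1 / K :=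
      hx.le.trans (one_div_le_one_div_of_le hK0 (by linarith))
    calc M1 * ‖((x - x0 : ℝ) : UnitAddCircle)‖ ≤ M1 * (1 / K) :=
          mul_le_mul_of_nonneg_left h1 hM10
      _ = M1 / K := by ring
  have z0 : ∀ x, 1 / (2 * K) ≤ ‖((x - x0 : ℝ) : UnitAddCircle)‖ → corr U x0 K x = 0 := by
    intro x hx
    have := nice_bb.zero 0 K x0 x hK hx
    rw [iteratedDeriv_zero] at this
    unfold corr
    rw [this, zero_mul]
  have z2 : ∀ x, 1 / (2 * K) ≤ ‖((x - x0 : ℝ) : UnitAddCircle)‖ →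
      iteratedDeriv 2 (corr U x0 K) x = 0 := by
    intro x hx
    have a0 := nice_bb.zero 0 K x0 x hK hx
    rw [iteratedDeriv_zero] at a0
    rw [corr_two hU, a0, nice_bb.zero 1 K x0 x hK hx, nice_bb.zero 2 K x0 x hK hx]
    ring
  have b0 : ∀ x, |corr U x0 K x| ≤ C0 * M1 / K := by
    intro x
    by_cases hx : 1 / (2 * K) ≤ ‖((x - x0 : ℝ) : UnitAddCircle)‖
    · rw [z0 x hx, abs_zero]; positivity
    · have a0 := hC0 K x0 x hK
      rw [iteratedDeriv_zero, pow_zero, mul_one] at a0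
      unfold corr
      rw [abs_mul]
      calc _ ≤ C0 * (M1 / K) := mul_le_mul a0 (hsup x hx) (abs_nonneg _) hC00
        _ = _ := by ring
  have b2 : ∀ x, |iteratedDeriv 2 (corr U x0 K) x| ≤ (C2 * M1 + 2 * (C1 * M1) + C0 * M2) * K := by
    intro x
    by_cases hx : 1 / (2 * K) ≤ ‖((x - x0 : ℝ) : UnitAddCircle)‖
    · rw [z2 x hx, abs_zero]; positivity
    · have a0 := hC0 K x0 x hK
      rw [iteratedDeriv_zero, pow_zero, mul_one] at a0
      have a1 := hC1 K x0 x hK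
      have a2 := hC2 K x0 x hK
      rw [corr_two hU]
      have e1 : |iteratedDeriv 2 (pb bb K x0) x * (U x - U x0)| ≤ C2 * M1 * K := by
        rw [abs_mul]
        calc _ ≤ (C2 * K ^ 2) * (M1 / K) := mul_le_mul a2 (hsup x hx) (abs_nonneg _) (by positivity)
          _ = _ := by field_simp
      have e2 : |2 * (iteratedDeriv 1 (pb bb K x0) x * deriv U x)| ≤ 2 * (C1 * M1) * K := by
        rw [abs_mul, abs_mul, abs_two]
        have := mul_le_mul a1 (hM1 x) (abs_nonneg _) (by positivity)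
        nlinarith
      have e3 : |pb bb K x0 x * deriv (deriv U) x| ≤ C0 * M2 * K := by
        rw [abs_mul]
        have := mul_le_mul a0 (hM2 x) (abs_nonneg _) hC00
        have h5 : 0 ≤ C0 * M2 := by positivity
        nlinarith
      have := (abs_add_le _ _).trans (add_le_add ((abs_add_le _ _).trans (add_le_add e1 e2)) e3)
      linarith
  have pc := corr_per pU x0 K
  have sc := corr_smooth hU x0 K
  have i0 := int_sq_le pc sc.continuous x0 K _ hK b0 z0
  have i2 := int_sq_le (fone_iter pc sc 0 2).1 (fone_iter pc sc 0 2).2.1.continuous x0 K _ hK b2 z2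
  have hA : 1 ≤ K ^ 2 := one_le_pow₀ hK
  intro t
  refine (bd1_of_L2 s hs0 (by linarith) pc sc (K ^ 2) hA t).trans (le_trans ?_ hKε)
  have e1 : (K ^ 2) ^ s = K ^ (-(3 - 2 * s)) * K ^ 3 := by
    rw [← Real.rpow_natCast K 2, ← Real.rpow_mul hK0.le, ← Real.rpow_natCast K 3,
      ← Real.rpow_add hK0]
    congr 1
    push_cast
    ring
  have e2 : (K ^ 2) ^ (s - 2) = K ^ (-(3 - 2 * s)) / K := by
    rw [← Real.rpow_natCast K 2, ← Real.rpow_mul hK0.le, ← Real.rpow_sub_one hK0.ne']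
    congr 1
    push_cast
    ring
  rw [e1, e2]
  have hp : 0 ≤ K ^ (-(3 - 2 * s)) := Real.rpow_nonneg hK0.le _
  have f0 := mul_le_mul_of_nonneg_left i0 (by positivity : 0 ≤ K ^ (-(3 - 2 * s)) * K ^ 3)
  have f2 := mul_le_mul_of_nonneg_left i2 (by positivity : 0 ≤ K ^ (-(3 - 2 * s)) / K)
  have g0 : K ^ (-(3 - 2 * s)) * K ^ 3 * ((C0 * M1 / K) ^ 2 / K) =
      K ^ (-(3 - 2 * s)) * (C0 * M1) ^ 2 := by field_simp
  have g2 : K ^ (-(3 - 2 * s)) / K * (((C2 * M1 + 2 * (C1 * M1) + C0 * M2) * K) ^ 2 / K) =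
      K ^ (-(3 - 2 * s)) * (C2 * M1 + 2 * (C1 * M1) + C0 * M2) ^ 2 := by field_simp
  rw [g0] at f0
  rw [g2] at f2
  rw [hB]
  nlinarith

end

end Pool.Agent.H429Z.Ran
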