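import Mathlib
import Pool.Agent.H429Z.Ran.Flat1

set_option autoImplicit false

namespace Pool.Agent.H429Z.Ran

open MeasureTheory Filter Topology
open scoped ENNReal ContDiff
open Pool.Agent.Helper150.Iid

noncomputable section

theorem fone_add {U V : ℝ → ℝ} (pU : Function.Periodic U 1) (cU : Continuous U)
    (pV : Function.Periodic V 1) (cV : Continuous V) (m : ℤ) :
    fone (fun x => U x + V x) m = fone U m + fone V m := by
  unfold fone
  have c1 : Continuous (fun x : UnitAddCircle => (fourier (-m) x : ℂ) * ((cf U x : ℝ) : ℂ)) :=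
    (fourier (-m)).continuous.mul (Complex.continuous_ofReal.comp (cf_continuous pU cU))
  have c2 : Continuous (fun x : UnitAddCircle => (fourier (-m) x : ℂ) * ((cf V x : ℝ) : ℂ)) :=
    (fourier (-m)).continuous.mul (Complex.continuous_ofReal.comp (cf_continuous pV cV))
  rw [← integral_add (c1.integrable_of_hasCompactSupport (HasCompactSupport.of_compactSpace _))
    (c2.integrable_of_hasCompactSupport (HasCompactSupport.of_compactSpace _))]
  congr 1
  funext x
  unfold cf
  push_cast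
  ring

theorem Bd1.add {s : ℝ} {U V : ℝ → ℝ} {E E' : ℝ} (pU : Function.Periodic U 1) (cU : Continuous U)
    (pV : Function.Periodic V 1) (cV : Continuous V) (h1 : Bd1 s U E) (h2 : Bd1 s V E') :
    Bd1 s (fun x => U x + V x) (2 * E + 2 * E') := by
  intro t
  have h3 : ∀ m ∈ t, ‖fone (fun x => U x + V x) m‖ ^ 2 * (1 + (m : ℝ) ^ 2) ^ s ≤
      2 * (‖fone U m‖ ^ 2 * (1 + (m : ℝ) ^ 2) ^ s) +
        2 * (‖fone V m‖ ^ 2 * (1 + (m : ℝ) ^ 2) ^ s) := by
    intro m _
    rw [fone_add pU cU pV cV]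
    have h4 := norm_add_le (fone U m) (fone V m)
    have h5 : ‖fone U m + fone V m‖ ^ 2 ≤ 2 * ‖fone U m‖ ^ 2 + 2 * ‖fone V m‖ ^ 2 := by
      nlinarith [norm_nonneg (fone U m + fone V m), sq_nonneg (‖fone U m‖ - ‖fone V m‖),
        norm_nonneg (fone U m), norm_nonneg (fone V m)]
    have hW : 0 ≤ (1 + (m : ℝ) ^ 2) ^ s := Real.rpow_nonneg (by positivity) _
    nlinarith [mul_le_mul_of_nonneg_right h5 hW]
  refine (Finset.sum_le_sum h3).trans ?_
  rw [Finset.sum_add_distrib, ← Finset.mul_sum, ← Finset.mul_sum]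
  linarith [h1 t, h2 t]

theorem flat_point (s : ℝ) (hs0 : 0 ≤ s) (hs : s < 3 / 2) {U : ℝ → ℝ}
    (pU : Function.Periodic U 1) (hU : ContDiff ℝ ∞ U) (p : UnitAddCircle)
    (T : Finset UnitAddCircle) (ε : ℝ) (hε : 0 < ε) :
    ∃ U' : ℝ → ℝ, Function.Periodic U' 1 ∧ ContDiff ℝ ∞ U' ∧ Bd1 s (fun x => U x - U' x) ε ∧
      (∀ᶠ t in 𝓝 p, cf U' t = cf U p) ∧ ∀ q ∈ T, q ≠ p → ∀ᶠ t in 𝓝 q, cf U' t = cf U t := by
  have h1 : ∀ᶠ K : ℝ in atTop, ∀ q ∈ T, q ≠ p → 1 / K < ‖q - p‖ := by
    rw [eventually_all_finset]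
    intro q _
    by_cases hq : q = p
    · exact Eventually.of_forall fun K h => absurd hq h
    · have h0 : 0 < ‖q - p‖ := norm_pos_iff.2 (sub_ne_zero.2 hq)
      have ht : Tendsto (fun K : ℝ => 1 / K) atTop (𝓝 0) := by
        simpa using tendsto_inv_atTop_zero (𝕜 := ℝ)
      filter_upwards [ht.eventually_lt_const h0] with K hK _ using hK
  obtain ⟨K, hK1, hK2, hK⟩ :=
    ((corr_small s hs0 hs pU hU (rep p) ε hε).and (h1.and (eventually_ge_atTop 1))).exists
  have hcf : ∀ t, cf (fun x => U x - corr U (rep p) K x) t =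
      cf U t - cf (pb bb K (rep p)) t * (cf U t - cf U p) := fun t => rfl
  refine ⟨fun x => U x - corr U (rep p) K x, ?_, hU.sub (corr_smooth hU _ _), ?_, ?_, ?_⟩
  · intro x
    simp only
    rw [pU x, corr_per pU (rep p) K x]
  · simpa using hK1
  · have pA : Function.Periodic (fun x => |K * Real.sin (Real.pi * (x - rep p))|) 1 := by
      intro x
      have : Real.pi * (x + 1 - rep p) = Real.pi * (x - rep p) + Real.pi := by ring
      simp only
      rw [this, Real.sin_add_pi, mul_neg, abs_neg]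
    have cA : Continuous (fun x => |K * Real.sin (Real.pi * (x - rep p))|) := by fun_prop
    have c2 := (cf_continuous pA cA).tendsto p
    have v0 : cf (fun x => |K * Real.sin (Real.pi * (x - rep p))|) p = 0 := by
      change |K * Real.sin (Real.pi * (rep p - rep p))| = 0
      simp
    rw [v0] at c2
    filter_upwards [c2.eventually_le_const (by norm_num : (0:ℝ) < 4 / 5)] with t ht
    have h2 : cf (pb bb K (rep p)) t = 1 := bb_one _ ht
    rw [hcf, h2]
    ring
  · intro q hq hqp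
    have c3 : Tendsto (fun t : UnitAddCircle => ‖t - p‖) (𝓝 q) (𝓝 ‖q - p‖) :=
      (by fun_prop : Continuous (fun t : UnitAddCircle => ‖t - p‖)).tendsto q
    filter_upwards [c3.eventually_const_le (hK2 q hq hqp)] with t ht
    rw [hcf, pb_far K hK p t ht]
    ring

theorem flat_set (s : ℝ) (hs0 : 0 ≤ s) (hs : s < 3 / 2) {U : ℝ → ℝ}
    (pU : Function.Periodic U 1) (hU : ContDiff ℝ ∞ U) (T : Finset UnitAddCircle)
    (S : Finset UnitAddCircle) (hS : S ⊆ T) : ∀ ε : ℝ, 0 < ε →
    ∃ U' : ℝ → ℝ, Function.Periodic U' 1 ∧ ContDiff ℝ ∞ U' ∧ Bd1 s (fun x => U x - U' x) ε ∧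
      (∀ q ∈ T, cf U' q = cf U q) ∧ ∀ q ∈ S, ∀ᶠ t in 𝓝 q, cf U' t = cf U q := by
  classical
  induction S using Finset.induction_on with
  | empty =>
    intro ε hε
    refine ⟨U, pU, hU, ?_, fun _ _ => rfl, by simp⟩
    intro t
    have : ∀ m, fone (fun x => U x - U x) m = 0 := by
      intro m
      simp [fone, cf]
    simp only [this]
    simp [hε.le]
  | insert p S hp ih =>
    intro ε hε
    obtain ⟨U1, p1, s1, b1, v1, n1⟩ := ih (fun q hq => hS (Finset.mem_insert_of_mem hq)) (ε / 4)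
      (by positivity)
    obtain ⟨U2, p2, s2, b2, v2, n2⟩ := flat_point s hs0 hs p1 s1 p T (ε / 4) (by positivity)
    have hpT : p ∈ T := hS (Finset.mem_insert_self _ _)
    refine ⟨U2, p2, s2, ?_, ?_, ?_⟩
    · have := Bd1.add (U := fun x => U x - U1 x) (V := fun x => U1 x - U2 x)
        (fun x => by simp only; rw [pU x, p1 x]) (hU.continuous.sub s1.continuous)
        (fun x => by simp only; rw [p1 x, p2 x]) (s1.continuous.sub s2.continuous) b1 b2
      have e : (fun x => (U x - U1 x) + (U1 x - U2 x)) = fun x => U x - U2 x := by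
        funext x; ring
      rw [e] at this
      intro t
      linarith [this t]
    · intro q hq
      by_cases hqp : q = p
      · rw [hqp, v2.self_of_nhds, v1 p hpT]
      · rw [(n2 q hq hqp).self_of_nhds, v1 q hq]
    · intro q hq
      rcases Finset.mem_insert.1 hq with rfl | hq'
      · filter_upwards [v2] with t ht
        rw [ht, v1 q hpT]
      · have hqp : q ≠ p := fun h => hp (h ▸ hq')
        filter_upwards [n2 q (hS hq) hqp, n1 q hq'] with t h1 h2
        rw [h1, h2]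

/-- `g` can be approximated by functions which are locally constant near the nodes. -/
def Flat {n : ℕ} (s : ℝ) (w : Fin n → Tor 2) (g : Tor 2 → ℝ) : Prop :=
  Continuous g ∧ ∀ ε : ℝ, 0 < ε → ∃ g' : Tor 2 → ℝ, Continuous g' ∧
    Bd (wt s) (fun x => g x - g' x) ε ∧ ∀ j, ∀ᶠ x in 𝓝 (w j), g' x = g (w j)

theorem bd_zero (W : (Fin 2 → ℤ) → ℝ) (ε : ℝ) (hε : 0 ≤ ε) : Bd W (fun _ => 0) ε := by
  intro t
  have : ∀ h, fc (fun _ : Tor 2 => (0:ℝ)) h = 0 := by
    intro h
    simp [fc]
  simp [this, hε]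

theorem flat_const {n : ℕ} (s : ℝ) (w : Fin n → Tor 2) (c : ℝ) : Flat s w (fun _ => c) := by
  refine ⟨continuous_const, fun ε hε => ⟨fun _ => c, continuous_const, ?_, fun j => by simp⟩⟩
  simpa using bd_zero (wt s) ε hε.le

theorem Flat.add {n : ℕ} {s : ℝ} {w : Fin n → Tor 2} {f g : Tor 2 → ℝ} (hf : Flat s w f)
    (hg : Flat s w g) : Flat s w (fun x => f x + g x) := by
  refine ⟨hf.1.add hg.1, fun ε hε => ?_⟩
  obtain ⟨f', cf', bf, nf⟩ := hf.2 (ε / 4) (by positivity)
  obtain ⟨g', cg', bg, ng⟩ := hg.2 (ε / 4) (by positivity)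
  refine ⟨fun x => f' x + g' x, cf'.add cg', ?_, ?_⟩
  · have := Bd.add (f := fun x => f x - f' x) (g := fun x => g x - g' x) (wt_nonneg s)
      (hf.1.sub cf') (hg.1.sub cg') bf bg
    have e : (fun x => (f x - f' x) + (g x - g' x)) = fun x => (f x + g x) - (f' x + g' x) := by
      funext x; ring
    rw [e] at this
    exact this.mono (fun _ => le_rfl) (by linarith)
  · intro j
    filter_upwards [nf j, ng j] with x h1 h2
    rw [h1, h2]

theorem Flat.smul {n : ℕ} {s : ℝ} {w : Fin n → Tor 2} {f : Tor 2 → ℝ} (c : ℝ) (hf : Flat s w f) :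
    Flat s w (fun x => c * f x) := by
  refine ⟨continuous_const.mul hf.1, fun ε hε => ?_⟩
  obtain ⟨f', cf', bf, nf⟩ := hf.2 (ε / (c ^ 2 + 1)) (by positivity)
  refine ⟨fun x => c * f' x, continuous_const.mul cf', ?_, ?_⟩
  · have := bf.smul c
    have e : (fun x => c * (f x - f' x)) = fun x => c * f x - c * f' x := by
      funext x; ring
    rw [e] at this
    refine this.mono (fun _ => le_rfl) ?_
    rw [← mul_div_assoc, div_le_iff₀ (by positivity)]
    nlinarith
  · intro j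
    filter_upwards [nf j] with x h1
    rw [h1]

theorem Flat.sub {n : ℕ} {s : ℝ} {w : Fin n → Tor 2} {f g : Tor 2 → ℝ} (hf : Flat s w f)
    (hg : Flat s w g) : Flat s w (fun x => f x - g x) := by
  have := hf.add (hg.smul (-1))
  have e : (fun x => f x + (-1) * g x) = fun x => f x - g x := by
    funext x; ring
  rwa [e] at this

theorem flat_sum {n : ℕ} {s : ℝ} {w : Fin n → Tor 2} {ι : Type} (t : Finset ι)
    (F : ι → Tor 2 → ℝ) (hF : ∀ i ∈ t, Flat s w (F i)) : Flat s w (fun x => ∑ i ∈ t, F i x) := by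
  classical
  induction t using Finset.induction_on with
  | empty => simpa using flat_const s w 0
  | insert a t ha ih =>
    have h1 := (hF a (Finset.mem_insert_self _ _)).add
      (ih fun i hi => hF i (Finset.mem_insert_of_mem hi))
    simpa [Finset.sum_insert ha] using h1

theorem flat_tensor {n : ℕ} {s : ℝ} (hs0 : 0 ≤ s) (hs : s < 3 / 2) (w : Fin n → Tor 2)
    {U V : ℝ → ℝ} (pU : Function.Periodic U 1) (hU : ContDiff ℝ ∞ U)
    (pV : Function.Periodic V 1) (hV : ContDiff ℝ ∞ V) :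
    Flat s w (fun x => cf U (x 0) * cf V (x 1)) := by
  classical
  have ct : ∀ {A B : ℝ → ℝ}, Function.Periodic A 1 → Continuous A → Function.Periodic B 1 →
      Continuous B → Continuous (fun x : Tor 2 => cf A (x 0) * cf B (x 1)) := by
    intro A B pA cA pB cB
    exact ((cf_continuous pA cA).comp (continuous_apply 0)).mul
      ((cf_continuous pB cB).comp (continuous_apply 1))
  refine ⟨ct pU hU.continuous pV hV.continuous, fun ε hε => ?_⟩
  obtain ⟨EU, hEU⟩ : ∃ E, Bd1 s U E := ⟨_, bd1_of_L2 s hs0 (by linarith) pU hU 1 le_rfl⟩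
  have hEU0 := hEU.nonneg
  obtain ⟨V', pV', sV', bV, -, nV⟩ := flat_set s hs0 hs pV hV (Finset.univ.image (fun j => w j 1))
    _ (Finset.Subset.refl _) (ε / 4 / (EU + 1)) (by positivity)
  obtain ⟨EV, hEV⟩ : ∃ E, Bd1 s V' E := ⟨_, bd1_of_L2 s hs0 (by linarith) pV' sV' 1 le_rfl⟩
  have hEV0 := hEV.nonneg
  obtain ⟨U', pU', sU', bU, -, nU⟩ := flat_set s hs0 hs pU hU (Finset.univ.image (fun j => w j 0))
    _ (Finset.Subset.refl _) (ε / 4 / (EV + 1)) (by positivity)
  have pA : Function.Periodic (fun x => U x - U' x) 1 := fun x => by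
    simp only; rw [pU x, pU' x]
  have pB : Function.Periodic (fun x => V x - V' x) 1 := fun x => by
    simp only; rw [pV x, pV' x]
  have cA : Continuous (fun x => U x - U' x) := hU.continuous.sub sU'.continuous
  have cB : Continuous (fun x => V x - V' x) := hV.continuous.sub sV'.continuous
  refine ⟨fun x => cf U' (x 0) * cf V' (x 1), ct pU' sU'.continuous pV' sV'.continuous, ?_, ?_⟩
  · have b1 := bd_tensor cA sV'.continuous pA pV' bU hEV
    have b2 := bd_tensor hU.continuous cB pU pB hEU bV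
    have := Bd.add (wt_nonneg s) (ct pA cA pV' sV'.continuous) (ct pU hU.continuous pB cB) b1 b2
    have e : (fun x : Tor 2 => cf (fun x => U x - U' x) (x 0) * cf V' (x 1) +
        cf U (x 0) * cf (fun x => V x - V' x) (x 1)) =
        fun x => cf U (x 0) * cf V (x 1) - cf U' (x 0) * cf V' (x 1) := by
      funext x
      unfold cf
      ring
    rw [e] at this
    refine this.mono (fun _ => le_rfl) ?_
    have h1 : ε / 4 / (EV + 1) * EV ≤ ε / 4 := by
      rw [div_mul_eq_mul_div, div_le_iff₀ (by positivity)]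
      nlinarith
    have h2 : EU * (ε / 4 / (EU + 1)) ≤ ε / 4 := by
      rw [← mul_div_assoc, div_le_iff₀ (by positivity)]
      nlinarith
    linarith
  · intro j
    have h0 := ((continuous_apply (0 : Fin 2)).tendsto (w j)).eventually
      (nU (w j 0) (Finset.mem_image_of_mem _ (Finset.mem_univ j)))
    have h1 := ((continuous_apply (1 : Fin 2)).tendsto (w j)).eventually
      (nV (w j 1) (Finset.mem_image_of_mem _ (Finset.mem_univ j)))
    filter_upwards [h0, h1] with x a0 a1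
    rw [a0, a1]

theorem flat_f1 {n : ℕ} {s : ℝ} (hs0 : 0 ≤ s) (hs : s < 3 / 2) (w : Fin n → Tor 2) (Q R : ℕ)
    (hQ : 0 < Q) (c : ℕ → ℕ → Fin (2 * Q ^ (R + 1)) → ℝ) : Flat s w (f1 Q R c) := by
  unfold f1
  refine flat_sum _ _ fun l _ => flat_sum _ _ fun a _ => flat_sum _ _ fun m _ => ?_
  unfold bw
  split_ifs with hm
  · have hK : (0 : ℝ) < (Q : ℝ) ^ l := by positivity
    have sψ : ContDiff ℝ ∞ (psi ((Q : ℝ) ^ l) (((a : ℝ) + 1 / 2) / (Q : ℝ) ^ l)) := by
      have h1 : ContDiff ℝ ∞ (deriv (pb AA ((Q : ℝ) ^ l) (((a : ℝ) + 1 / 2) / (Q : ℝ) ^ l))) :=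
        (contDiff_infty_iff_deriv.1 (nice_AA.smooth _ _)).2
      have h2 : psi ((Q : ℝ) ^ l) (((a : ℝ) + 1 / 2) / (Q : ℝ) ^ l) = fun x =>
          (Real.pi * (Q : ℝ) ^ l)⁻¹ *
            deriv (pb AA ((Q : ℝ) ^ l) (((a : ℝ) + 1 / 2) / (Q : ℝ) ^ l)) x := by
        funext x
        rw [deriv_pb_AA]
        have := Real.pi_pos
        field_simp
      rw [h2]
      exact contDiff_const.mul h1
    have := (flat_tensor hs0 hs w (psi_periodic ((Q : ℝ) ^ l) (((a : ℝ) + 1 / 2) / (Q : ℝ) ^ l)) sψ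
      (nice_bb.per ((Q : ℝ) ^ (R + 1 - l)) (((m : ℕ) : ℝ) / (2 * (Q : ℝ) ^ (R + 1 - l))))
      (nice_bb.smooth _ _)).smul (c l a m)
    simpa only [mul_assoc] using this
  · simpa using flat_const s w 0

theorem flat_f2 {n : ℕ} {s : ℝ} (hs0 : 0 ≤ s) (hs : s < 3 / 2) (w : Fin n → Tor 2) (n' Λ : ℕ)
    (lam : Fin n' → ℕ) (xc yc r : Fin n' → ℝ) : Flat s w (f2 n' Λ lam xc yc r) := by
  unfold f2
  refine flat_sum _ _ fun i _ => ?_
  have := (flat_tensor hs0 hs w (nice_bb.per ((2 : ℝ) ^ lam i) (xc i)) (nice_bb.smooth _ _)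
      (nice_bb.per ((2 : ℝ) ^ (Λ - lam i)) (yc i)) (nice_bb.smooth _ _)).smul (r i)
  simpa only [mul_assoc] using this

end

end Pool.Agent.H429Z.Ran
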