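import Mathlib
import Pool.Agent.Helper150.Iid.Fin
import Pool.Agent.H429Z.Ran.Flat2

set_option autoImplicit false

namespace Pool.Agent.H429Z.Ran

open MeasureTheory Filter Topology
open scoped ENNReal ContDiff
open Pool.Agent.Helper150.Iid

noncomputable section

/-- The fooling function. -/
def gfun (n Q : ℕ) (hQ : 0 < Q) (R O Λ : ℕ) (w : Fin n → Tor 2) (lam : Fin n → ℕ) (x : Tor 2) : ℝ :=
  (1 - f1 Q R (cx hQ R O (fun i => w i 0) (fun i => w i 1)) x) -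
    f2 n Λ lam (fun i => rep (w i 0)) (fun i => rep (w i 1)) (res hQ R O w) x

theorem gfun_flat {s : ℝ} (hs0 : 0 ≤ s) (hs : s < 3 / 2) (n Q : ℕ) (hQ : 0 < Q) (R O Λ : ℕ)
    (w : Fin n → Tor 2) (lam : Fin n → ℕ) : Flat s w (gfun n Q hQ R O Λ w lam) :=
  ((flat_const s w 1).sub (flat_f1 hs0 hs w Q R hQ _)).sub (flat_f2 hs0 hs w n Λ lam _ _ _)

theorem gfun_node (n Q : ℕ) (hQ : 0 < Q) (R O Λ : ℕ) (w : Fin n → Tor 2) (lam : Fin n → ℕ)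
    (hsep : ∀ i j, j ≠ i → ¬ (‖w j 0 - w i 0‖ < 1 / 2 ^ lam i ∧
      ‖w j 1 - w i 1‖ < 1 / 2 ^ (Λ - lam i))) (j : Fin n) :
    gfun n Q hQ R O Λ w lam (w j) = 0 := by
  unfold gfun
  rw [f2_node lam w hsep]
  unfold res
  ring

theorem gfun_int : ∃ C : ℝ, 0 ≤ C ∧ ∀ (n Q : ℕ) (hQ : 0 < Q) (R O Λ : ℕ)
    (w : Fin n → Tor 2) (lam : Fin n → ℕ), (∀ i, lam i ≤ Λ) →
    C / 2 ^ Λ * ∑ i, |res hQ R O w i| ≤ 1 / 2 → 1 / 2 ≤ ∫ x, gfun n Q hQ R O Λ w lam x := by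
  obtain ⟨C3, hC3, H3⟩ := NF2.f2_integral nice_bb (blkNorm_of_nice nice_bb nice_bb)
  refine ⟨C3, hC3, ?_⟩
  intro n Q hQ R O Λ w lam hlam hsmall
  have hi2 := H3 n Λ lam (fun i => rep (w i 0)) (fun i => rep (w i 1)) (res hQ R O w) hlam
  have hi1 := NF1.f1_integral nice_AA nice_bb deriv_pb_AA Q R hQ
    (cx hQ R O (fun i => w i 0) (fun i => w i 1))
  have hF1c := NF1.f1_continuous nice_AA nice_bb deriv_pb_AA Q R hQ
    (cx hQ R O (fun i => w i 0) (fun i => w i 1))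
  have hF2c := NF2.f2_continuous nice_bb n Λ lam (fun i => rep (w i 0)) (fun i => rep (w i 1))
    (res hQ R O w)
  unfold gfun
  rw [integral_sub, integral_sub, hi1]
  · have := (abs_le.1 (hi2.trans hsmall)).2
    simp only [integral_const, probReal_univ, smul_eq_mul, mul_one]
    linarith
  · exact integrable_const _
  · exact integrable_contR hF1c
  · exact integrable_contR (continuous_const.sub hF1c)
  · exact integrable_contR hF2c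

theorem gfun_norm (k : ℝ) (hk : 0 ≤ k) : ∃ C : ℝ, 0 ≤ C ∧ ∀ (n Q : ℕ) (hQ : 0 < Q) (R O Λ : ℕ)
    (w : Fin n → Tor 2) (lam : Fin n → ℕ), 2 ≤ Q → 0 < O → (∀ i, lam i ≤ Λ) →
    (∀ i j, j ≠ i → ¬ (‖w j 0 - w i 0‖ < 1 / 2 ^ lam i ∧
      ‖w j 1 - w i 1‖ < 1 / 2 ^ (Λ - lam i))) →
    Bd (wt k) (gfun n Q hQ R O Λ w lam)
        (3 * (1 + C * ((Q : ℝ) ^ (R + 1)) ^ (2 * k) / (Q : ℝ) ^ (R + 1) * (n / (2 * O)) +
          C * ((Λ : ℝ) + 1) * ((2 : ℝ) ^ Λ) ^ (2 * k) / (2 : ℝ) ^ Λ *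
            ∑ i, res hQ R O w i ^ 2)) := by
  obtain ⟨C1, hC1, H1⟩ := NF1.f1_norm nice_AA nice_bb (blkNorm_of_nice nice_AA nice_bb)
    deriv_pb_AA k hk
  obtain ⟨C2, hC2, H2⟩ := NF2.f2_norm nice_bb (blkNorm_of_nice nice_bb nice_bb) k hk
  refine ⟨C1 + C2, by positivity, ?_⟩
  intro n Q hQ R O Λ w lam hQ2 hO hlam hsep
  obtain ⟨r, hr⟩ : ∃ r : Fin n → ℝ, r = res hQ R O w := ⟨_, rfl⟩
  obtain ⟨c, hc⟩ : ∃ c : ℕ → ℕ → Fin (2 * Q ^ (R + 1)) → ℝ,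
    c = cx hQ R O (fun i => w i 0) (fun i => w i 1) := ⟨_, rfl⟩
  obtain ⟨F1, hF1⟩ : ∃ F1 : Tor 2 → ℝ, F1 = f1 Q R c := ⟨_, rfl⟩
  obtain ⟨F2, hF2⟩ : ∃ F2 : Tor 2 → ℝ, F2 =
    f2 n Λ lam (fun i => rep (w i 0)) (fun i => rep (w i 1)) r := ⟨_, rfl⟩
  have hg : gfun n Q hQ R O Λ w lam = fun x => (1 - F1 x) - F2 x := by
    rw [hF1, hF2, hc, hr]
    rfl
  rw [hg]
  have hF1c : Continuous F1 := by
    rw [hF1]; exact NF1.f1_continuous nice_AA nice_bb deriv_pb_AA Q R hQ c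
  have hF2c : Continuous F2 := by
    rw [hF2]; exact NF2.f2_continuous nice_bb n Λ lam _ _ r
  have hsepl : ∀ i j, i ≠ j → lam i = lam j →
        ¬ (‖(((rep (w i 0) : ℝ) : UnitAddCircle)) - ((rep (w j 0) : ℝ) : UnitAddCircle)‖ <
            1 / 2 ^ lam i ∧
          ‖(((rep (w i 1) : ℝ) : UnitAddCircle)) - ((rep (w j 1) : ℝ) : UnitAddCircle)‖ <
            1 / 2 ^ (Λ - lam i)) := by
    intro i j hij hl
    rw [coe_rep, coe_rep, coe_rep, coe_rep, hl]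
    exact hsep j i hij
  obtain ⟨hs1, ht1⟩ := H1 Q R c hQ2
  obtain ⟨hs2, ht2⟩ := H2 n Λ lam (fun i => rep (w i 0)) (fun i => rep (w i 1)) r hlam hsepl
  rw [← hF1] at hs1 ht1
  rw [← hF2] at hs2 ht2
  -- the coefficients
  have hcof : ∑ l ∈ Finset.range R, ∑ a ∈ Finset.range (Q ^ l), ∑ m, c l a m ^ 2 ≤
      n / (2 * O) := by
    have h1 := cof_total O hO (btx Q R (fun i => w i 1)) R (fun l _ => bw_wts hQ R l _) (xi Q)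
      (fun l a => xi_le _ _ _) (dgx hQ (fun i => w i 0))
    have h2 : 0 ≤ ∑ j, zx O (btx Q R (fun i => w i 1)) (xi Q) (dgx hQ (fun i => w i 0)) R j ^ 2 :=
      Finset.sum_nonneg fun _ _ => sq_nonneg _
    have hO' : (0:ℝ) < O := by exact_mod_cast hO
    rw [le_div_iff₀ (by positivity)]
    have h3 : ∑ l ∈ Finset.range R, ∑ a ∈ Finset.range (Q ^ l), ∑ m, c l a m ^ 2 =
        ∑ l ∈ Finset.range R, ∑ m, ∑ a ∈ Finset.range (Q ^ l),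
          cofx O (btx Q R (fun i => w i 1)) (xi Q) (dgx hQ (fun i => w i 0)) l a m ^ 2 := by
      refine Finset.sum_congr rfl fun l _ => ?_
      rw [Finset.sum_comm, hc]
      rfl
    rw [h3]
    linarith
  have hfc : ∀ h, fc (fun x => (1 - F1 x) - F2 x) h =
      fc (fun _ : Tor 2 => (1:ℝ)) h - fc F1 h - fc F2 h := by
    intro h
    rw [fc_sub (fun x => 1 - F1 x) F2 (continuous_const.sub hF1c) hF2c,
      fc_sub (fun _ => 1) F1 continuous_const hF1c]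
  have hwt : ∀ h : Fin 2 → ℤ, 0 ≤ wt k h := fun h =>
    Finset.prod_nonneg fun j _ => Real.rpow_nonneg (by positivity) _
  have hle : ∀ h, ‖fc (fun x => (1 - F1 x) - F2 x) h‖ ^ 2 * wt k h ≤
      3 * (‖fc (fun _ : Tor 2 => (1:ℝ)) h‖ ^ 2 * wt k h + ‖fc F1 h‖ ^ 2 * wt k h +
        ‖fc F2 h‖ ^ 2 * wt k h) := by
    intro h
    rw [hfc]
    have h1 : ‖fc (fun _ : Tor 2 => (1:ℝ)) h - fc F1 h - fc F2 h‖ ≤
        ‖fc (fun _ : Tor 2 => (1:ℝ)) h‖ + ‖fc F1 h‖ + ‖fc F2 h‖ :=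
      (norm_sub_le _ _).trans (add_le_add_left (norm_sub_le _ _) _)
    have h2 : ‖fc (fun _ : Tor 2 => (1:ℝ)) h - fc F1 h - fc F2 h‖ ^ 2 ≤
        3 * (‖fc (fun _ : Tor 2 => (1:ℝ)) h‖ ^ 2 + ‖fc F1 h‖ ^ 2 + ‖fc F2 h‖ ^ 2) := by
      have h3 := norm_nonneg (fc (fun _ : Tor 2 => (1:ℝ)) h - fc F1 h - fc F2 h)
      nlinarith [sq_nonneg (‖fc (fun _ : Tor 2 => (1:ℝ)) h‖ - ‖fc F1 h‖),
        sq_nonneg (‖fc (fun _ : Tor 2 => (1:ℝ)) h‖ - ‖fc F2 h‖),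
        sq_nonneg (‖fc F1 h‖ - ‖fc F2 h‖)]
    nlinarith [hwt h, mul_le_mul_of_nonneg_right h2 (hwt h)]
  have hsum := (((fc_one_sum k).summable.add hs1).add hs2).mul_left 3
  have hs : Summable fun h => ‖fc (fun x => (1 - F1 x) - F2 x) h‖ ^ 2 * wt k h :=
    Summable.of_nonneg_of_le (fun h => mul_nonneg (by positivity) (hwt h)) hle hsum
  refine bd_of_tsum (wt_nonneg k) hs ((hs.tsum_le_tsum hle hsum).trans ?_)
  rw [tsum_mul_left, ((fc_one_sum k).summable.add hs1).tsum_add hs2,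
    (fc_one_sum k).summable.tsum_add hs1, (fc_one_sum k).tsum_eq]
  have hN : (0:ℝ) ≤ ((Q : ℝ) ^ (R + 1)) ^ (2 * k) / (Q : ℝ) ^ (R + 1) := by positivity
  have hL : (0:ℝ) ≤ ((Λ : ℝ) + 1) * ((2 : ℝ) ^ Λ) ^ (2 * k) / (2 : ℝ) ^ Λ := by positivity
  have hr0 : 0 ≤ ∑ i, r i ^ 2 := Finset.sum_nonneg fun _ _ => sq_nonneg _
  have hn0 : (0:ℝ) ≤ n / (2 * O) := by positivity
  have b1 : ∑' h, ‖fc F1 h‖ ^ 2 * wt k h ≤ (C1 + C2) * ((Q : ℝ) ^ (R + 1)) ^ (2 * k) /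
      (Q : ℝ) ^ (R + 1) * (n / (2 * O)) := by
    refine ht1.trans ?_
    calc C1 * ((Q : ℝ) ^ (R + 1)) ^ (2 * k) / (Q : ℝ) ^ (R + 1) *
          ∑ l ∈ Finset.range R, ∑ a ∈ Finset.range (Q ^ l), ∑ m, c l a m ^ 2
        ≤ C1 * ((Q : ℝ) ^ (R + 1)) ^ (2 * k) / (Q : ℝ) ^ (R + 1) * (n / (2 * O)) :=
          mul_le_mul_of_nonneg_left hcof (by positivity)
      _ = C1 * ((((Q : ℝ) ^ (R + 1)) ^ (2 * k) / (Q : ℝ) ^ (R + 1)) * (n / (2 * O))) := by ring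
      _ ≤ (C1 + C2) *
          ((((Q : ℝ) ^ (R + 1)) ^ (2 * k) / (Q : ℝ) ^ (R + 1)) * (n / (2 * O))) :=
          mul_le_mul_of_nonneg_right (by linarith) (mul_nonneg hN hn0)
      _ = _ := by ring
  have b2 : ∑' h, ‖fc F2 h‖ ^ 2 * wt k h ≤ (C1 + C2) * ((Λ : ℝ) + 1) *
      ((2 : ℝ) ^ Λ) ^ (2 * k) / (2 : ℝ) ^ Λ * ∑ i, res hQ R O w i ^ 2 := by
    rw [← hr]
    refine ht2.trans ?_
    calc C2 * ((Λ : ℝ) + 1) * ((2 : ℝ) ^ Λ) ^ (2 * k) / (2 : ℝ) ^ Λ * ∑ i, r i ^ 2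
        = C2 * ((((Λ : ℝ) + 1) * ((2 : ℝ) ^ Λ) ^ (2 * k) / (2 : ℝ) ^ Λ) * ∑ i, r i ^ 2) := by
          ring
      _ ≤ (C1 + C2) *
          ((((Λ : ℝ) + 1) * ((2 : ℝ) ^ Λ) ^ (2 * k) / (2 : ℝ) ^ Λ) * ∑ i, r i ^ 2) :=
          mul_le_mul_of_nonneg_right (by linarith) (mul_nonneg hL hr0)
      _ = _ := by ring
  linarith


end

end Pool.Agent.H429Z.Ran
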