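import Mathlib
import Pool.Agent.H429Z.Ran.Fool1

set_option autoImplicit false

namespace Pool.Agent.H429Z.Ran

open MeasureTheory Filter Topology
open scoped ENNReal ContDiff
open Pool.Agent.Helper150.Iid

noncomputable section

/-- With probability at least one half there is a fooling function with two controlled norms. -/
def Foolable (n : ℕ) (N E : ℝ) : Prop :=
  ∃ Bad : Set (Fin n → Tor 2),
    (Measure.pi (fun _ : Fin n => (volume : Measure (Tor 2)))) Bad ≤ 1 / 2 ∧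
    ∀ w, w ∉ Bad → ∃ g : Tor 2 → ℝ, (∀ s : ℝ, 0 ≤ s → s < 3 / 2 → Flat s w g) ∧
      (∀ j, g (w j) = 0) ∧ 1 / 2 ≤ ∫ x, g x ∧ Bd (wt 0) g E ∧ Bd (wt 2) g (E * N ^ (2 * 2 : ℝ))

theorem fool_param : ∃ κ C : ℝ, 0 < κ ∧ κ ≤ 1 ∧ 0 ≤ C ∧
    ∀ (n Q : ℕ) (_ : 0 < Q) (R μ Λ : ℕ) (τ : ℝ), 32 ≤ Q →
    0 < μ → 0 < τ → n = μ * Q ^ (R + 1) → 8 * n * (Λ + 1) ≤ 2 ^ Λ →
    2 * R * (Q : ℝ) ^ R * Real.exp (-(μ * Q)) ≤ 1 / 6 →
    (1 - κ / (1024 * μ)) ^ R * (2 * n) / τ ≤ 1 / 6 →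
    (3 * n / 2 ^ (Λ + 1) : ℝ) ≤ 1 / 6 →
    ∀ S : ℝ, 2 * τ + C * (R / Q) ^ 2 * n ≤ S →
    C / 2 ^ Λ * Real.sqrt (n * S) ≤ 1 / 2 →
    ∀ N E : ℝ, 0 < N →
    (∀ k : ℝ, 0 ≤ k → k ≤ 2 →
      3 * (1 + C * ((Q : ℝ) ^ (R + 1)) ^ (2 * k) + C * ((Λ : ℝ) + 1) * ((2 : ℝ) ^ Λ) ^ (2 * k) /
      (2 : ℝ) ^ Λ * S) ≤ E * N ^ (2 * k)) →
    Foolable n N E := by
  obtain ⟨κ, hκ0, hκ1, hκ⟩ := bad_total
  obtain ⟨Ca, hCa, Ha⟩ := gfun_norm 0 le_rfl
  obtain ⟨Cb, hCb, Hb⟩ := gfun_norm 2 (by norm_num)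
  obtain ⟨C3, hC3, H3⟩ := gfun_int
  obtain ⟨C2, hC2, H2⟩ := res_sum
  obtain ⟨C, hC⟩ : ∃ C : ℝ, C = Ca + Cb + C3 + C2 := ⟨_, rfl⟩
  have hC0 : 0 ≤ C := by rw [hC]; positivity
  refine ⟨κ, C, hκ0, hκ1, hC0, ?_⟩
  intro n Q hQ R μ Λ τ hQ32 hμ hτ hn hΛ a1 a2 a3 S hS hsm N E hN hEE
  refine ⟨_, hκ n Q hQ R μ Λ τ hQ32 hμ hτ hn hΛ a1 a2 a3, ?_⟩
  intro w hω
  rw [Set.mem_union, Set.mem_union, not_or, not_or] at hω
  obtain ⟨⟨g1, g2⟩, g3⟩ := hω
  have hen := good_energy hQ R μ τ w g1 g2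
  have hiso := good_iso w g3
  have hO : 0 < 128 * μ := by positivity
  have hres := H2 n Q hQ R (128 * μ) hO w
  have hR0 : (0:ℝ) ≤ (R / Q : ℝ) ^ 2 * n := by positivity
  have hresS : ∑ j, res hQ R (128 * μ) w j ^ 2 ≤ S := by
    refine hres.trans (le_trans ?_ hS)
    have : C2 * ((R:ℝ) / Q) ^ 2 * n ≤ C * ((R:ℝ) / Q) ^ 2 * n := by
      have := mul_le_mul_of_nonneg_right (by linarith : C2 ≤ C) hR0
      linarith
    linarith
  have hS0 : 0 ≤ S := le_trans (Finset.sum_nonneg fun _ _ => sq_nonneg _) hresS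
  have habs : ∑ i, |res hQ R (128 * μ) w i| ≤ Real.sqrt (n * S) := by
    refine Real.le_sqrt_of_sq_le ?_
    have h1 := sq_sum_le_card_mul_sum_sq (s := (Finset.univ : Finset (Fin n)))
      (f := fun i => |res hQ R (128 * μ) w i|)
    simp only [sq_abs, Finset.card_univ, Fintype.card_fin] at h1
    refine h1.trans ?_
    exact mul_le_mul_of_nonneg_left hresS (by positivity)
  have hsmall : C3 / 2 ^ Λ * ∑ i, |res hQ R (128 * μ) w i| ≤ 1 / 2 := by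
    refine le_trans ?_ hsm
    refine mul_le_mul ?_ habs (Finset.sum_nonneg fun _ _ => abs_nonneg _) (by positivity)
    refine div_le_div_of_nonneg_right ?_ (by positivity)
    linarith
  choose lam hlam hsep using hiso
  have hμ' : (1:ℝ) ≤ μ := by exact_mod_cast hμ
  have hQ' : (0:ℝ) < Q := by exact_mod_cast hQ
  have key : ∀ k C1 : ℝ, 0 ≤ k → k ≤ 2 → 0 ≤ C1 → C1 ≤ C →
      3 * (1 + C1 * ((Q : ℝ) ^ (R + 1)) ^ (2 * k) / (Q : ℝ) ^ (R + 1) *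
        (n / (2 * ((128 * μ : ℕ) : ℝ))) +
          C1 * ((Λ : ℝ) + 1) * ((2 : ℝ) ^ Λ) ^ (2 * k) / (2 : ℝ) ^ Λ *
            ∑ i, res hQ R (128 * μ) w i ^ 2) ≤ E * N ^ (2 * k) := by
    intro k C1 hk hk2 hC1 hC1C
    refine le_trans ?_ (hEE k hk hk2)
    have e1 : C1 * ((Q : ℝ) ^ (R + 1)) ^ (2 * k) / (Q : ℝ) ^ (R + 1) *
        (n / (2 * ((128 * μ : ℕ) : ℝ))) ≤ C * ((Q : ℝ) ^ (R + 1)) ^ (2 * k) := by
      have hn' : (n : ℝ) = μ * (Q : ℝ) ^ (R + 1) := by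
        rw [hn]; push_cast; ring
      have e2 : C1 * ((Q : ℝ) ^ (R + 1)) ^ (2 * k) / (Q : ℝ) ^ (R + 1) *
        (n / (2 * ((128 * μ : ℕ) : ℝ))) = (C1 * ((Q : ℝ) ^ (R + 1)) ^ (2 * k)) / 256 := by
        rw [hn']
        push_cast
        field_simp
        ring
      rw [e2]
      have hp : 0 ≤ ((Q : ℝ) ^ (R + 1)) ^ (2 * k) := by positivity
      nlinarith [mul_nonneg hC1 hp, mul_le_mul_of_nonneg_right hC1C hp]
    have e3 : C1 * ((Λ : ℝ) + 1) * ((2 : ℝ) ^ Λ) ^ (2 * k) / (2 : ℝ) ^ Λ *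
        ∑ i, res hQ R (128 * μ) w i ^ 2 ≤
        C * ((Λ : ℝ) + 1) * ((2 : ℝ) ^ Λ) ^ (2 * k) / (2 : ℝ) ^ Λ * S := by
      have hL : (0:ℝ) ≤ ((Λ : ℝ) + 1) * ((2 : ℝ) ^ Λ) ^ (2 * k) / (2 : ℝ) ^ Λ := by positivity
      calc C1 * ((Λ : ℝ) + 1) * ((2 : ℝ) ^ Λ) ^ (2 * k) / (2 : ℝ) ^ Λ *
            ∑ i, res hQ R (128 * μ) w i ^ 2
          = C1 * (((Λ : ℝ) + 1) * ((2 : ℝ) ^ Λ) ^ (2 * k) / (2 : ℝ) ^ Λ) *
            ∑ i, res hQ R (128 * μ) w i ^ 2 := by ring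
        _ ≤ C * (((Λ : ℝ) + 1) * ((2 : ℝ) ^ Λ) ^ (2 * k) / (2 : ℝ) ^ Λ) * S := by
            refine mul_le_mul ?_ hresS (Finset.sum_nonneg fun _ _ => sq_nonneg _) (by positivity)
            exact mul_le_mul_of_nonneg_right hC1C hL
        _ = _ := by ring
    linarith
  refine ⟨gfun n Q hQ R (128 * μ) Λ w lam, fun s hs0 hs => gfun_flat hs0 hs _ _ _ _ _ _ _ _,
    gfun_node _ _ _ _ _ _ _ _ hsep, H3 n Q hQ R (128 * μ) Λ w lam hlam hsmall, ?_, ?_⟩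
  · refine (Ha n Q hQ R (128 * μ) Λ w lam (by omega) hO hlam hsep).mono (fun _ => le_rfl) ?_
    have := key 0 Ca le_rfl (by norm_num) hCa (by rw [hC]; linarith)
    simpa using this
  · exact (Hb n Q hQ R (128 * μ) Λ w lam (by omega) hO hlam hsep).mono (fun _ => le_rfl)
      (key 2 Cb (by norm_num) le_rfl hCb (by rw [hC]; linarith))

/-- Growth of the parameters. -/
theorem fool_main (b : ℕ) (hb : 2 ≤ b) :
    ∃ (s : ℕ) (E cL : ℝ), 0 < E ∧ 0 < cL ∧ s ≠ 0 ∧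
    ∀ᶠ t : ℕ in atTop, ∀ (N n : ℕ), N = (2 ^ (s * t)) ^ (2 ^ (b * t) + 1) →
      n = 2 ^ ((b - 1) * t) * N →
      Foolable n N E ∧ Real.log n ≤ cL * ((2 : ℝ) ^ t) ^ (b + 1) := by
  obtain ⟨κ, C, hκ0, hκ1, hC, H⟩ := fool_param
  obtain ⟨k0, hk0e⟩ : ∃ k0 : ℕ, k0 = 2 := ⟨_, rfl⟩
  obtain ⟨s, hs⟩ : ∃ s : ℕ, s = 3 * b * k0 + b + 1 := ⟨_, rfl⟩
  obtain ⟨cL, hcL⟩ : ∃ cL : ℝ, cL = 3 * b + 2 * s + 1 := ⟨_, rfl⟩
  have hcL1 : 1 ≤ cL := by rw [hcL]; nlinarith [(Nat.cast_nonneg b : (0:ℝ) ≤ b), (Nat.cast_nonneg s : (0:ℝ) ≤ s)]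
  obtain ⟨C3, hC3⟩ : ∃ C3 : ℝ, C3 = 3 * (1 + C + C * (2 + C) * cL) := ⟨_, rfl⟩
  have hC3p : 0 < C3 := by rw [hC3]; positivity
  have hs1 : b + 1 ≤ s := by rw [hs]; omega
  refine ⟨s, C3, cL, hC3p, by linarith, by omega, ?_⟩
  filter_upwards [ev_const 32, ev_const (8 * cL), ev_const (s + 1), ev_const (2 * C * (2 + C)),
    ev_exp b 1 one_pos 2 (1 / 6) (by norm_num),
    ev_exp (2 * s) (κ / 1024) (by positivity) 2 (1 / 6) (by norm_num),
    eventually_ge_atTop 1] with t e1 e2 e3 e4 e5 e6 ht1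
  intro N n hN hn
  obtain ⟨X, hX⟩ : ∃ X : ℝ, X = (2:ℝ) ^ t := ⟨_, rfl⟩
  rw [← hX] at e1 e2 e3 e4 e5 e6
  have hX1 : 1 ≤ X := by linarith
  have hX0 : 0 < X := by linarith
  have htX : (t : ℝ) ≤ X := by
    rw [hX]
    exact_mod_cast (Nat.lt_two_pow_self (n := t)).le
  obtain ⟨Q, hQ⟩ : ∃ Q : ℕ, Q = 2 ^ (s * t) := ⟨_, rfl⟩
  obtain ⟨R, hR⟩ : ∃ R : ℕ, R = 2 ^ (b * t) := ⟨_, rfl⟩
  obtain ⟨μ, hμ⟩ : ∃ μ : ℕ, μ = 2 ^ ((b - 1) * t) := ⟨_, rfl⟩
  obtain ⟨Λ, hΛ⟩ : ∃ Λ : ℕ, Λ = (b - 1) * t + s * t * (R + 1) + 2 * b * t := ⟨_, rfl⟩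
  have hQX : (Q : ℝ) = X ^ s := by rw [hQ, hX]; push_cast; rw [← pow_mul, mul_comm]
  have hRX : (R : ℝ) = X ^ b := by rw [hR, hX]; push_cast; rw [← pow_mul, mul_comm]
  have hμX : (μ : ℝ) = X ^ (b - 1) := by rw [hμ, hX]; push_cast; rw [← pow_mul, mul_comm]
  have hNQ : N = Q ^ (R + 1) := by rw [hN, hQ, hR]
  have hnn : n = μ * Q ^ (R + 1) := by rw [hn, hμ, hNQ]
  have hQpos : 0 < Q := by rw [hQ]; positivity
  have hμpos : 0 < μ := by rw [hμ]; positivity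
  have hNpos : 0 < N := by rw [hNQ]; positivity
  have hnpos : 0 < n := by rw [hnn]; positivity
  have hnR : (0:ℝ) < n := by exact_mod_cast hnpos
  have hNR : (0:ℝ) < N := by exact_mod_cast hNpos
  have hs0 : s ≠ 0 := by omega
  have hpowX : ∀ m : ℕ, 1 ≤ X ^ m := fun m => one_le_pow₀ hX1
  -- size of Λ
  have h2Λ : 2 ^ Λ = n * 2 ^ (2 * b * t) := by
    rw [hΛ, hnn, hμ, hQ, pow_add, pow_add, ← pow_mul]
  have h2ΛX : (2:ℝ) ^ Λ = n * X ^ (2 * b) := by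
    have : ((2 ^ Λ : ℕ) : ℝ) = ((n * 2 ^ (2 * b * t) : ℕ) : ℝ) := by rw [h2Λ]
    push_cast at this
    rw [this, hX]
    congr 1
    rw [← pow_mul, mul_comm t]
  have hΛle : (Λ : ℝ) + 1 ≤ cL * X ^ (b + 1) := by
    have h1 : (Λ : ℝ) = ((b - 1 : ℕ) : ℝ) * t + s * t * (X ^ b + 1) + 2 * b * t := by
      rw [hΛ]
      push_cast
      rw [hRX]
    have h2 : ((b - 1 : ℕ) : ℝ) ≤ b := by exact_mod_cast Nat.sub_le _ _
    have h3 : X ≤ X ^ (b + 1) := by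
      calc X = X * 1 := by ring
        _ ≤ X * X ^ b := mul_le_mul_of_nonneg_left (hpowX b) hX0.le
        _ = X ^ (b + 1) := by ring
    have h4 : (t:ℝ) ≤ X ^ (b + 1) := htX.trans h3
    have h5 : (t:ℝ) * X ^ b ≤ X ^ (b + 1) := by
      calc (t:ℝ) * X ^ b ≤ X * X ^ b := mul_le_mul_of_nonneg_right htX (by positivity)
        _ = X ^ (b + 1) := by ring
    have ht0 : (0:ℝ) ≤ t := by positivity
    have hb0 : (0:ℝ) ≤ b := by positivity
    have hs0 : (0:ℝ) ≤ s := by positivity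
    rw [h1, hcL]
    have h6 : ((b - 1 : ℕ) : ℝ) * t ≤ b * X ^ (b + 1) :=
      mul_le_mul h2 h4 ht0 hb0
    have h7 : (s:ℝ) * t * (X ^ b + 1) ≤ 2 * s * X ^ (b + 1) := by
      have : (s:ℝ) * t * (X ^ b + 1) = s * (t * X ^ b) + s * t := by ring
      rw [this]
      have h8 := mul_le_mul_of_nonneg_left h5 hs0
      have h9 := mul_le_mul_of_nonneg_left h4 hs0
      linarith
    have h8 : 2 * (b:ℝ) * t ≤ 2 * b * X ^ (b + 1) :=
      mul_le_mul_of_nonneg_left h4 (by positivity)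
    have h9 := hpowX (b + 1)
    nlinarith
  -- the conditions
  have c0 : 32 ≤ Q := by
    have : (32:ℝ) ≤ Q := by
      rw [hQX]
      calc (32:ℝ) ≤ X := e1
        _ = X ^ 1 := by ring
        _ ≤ X ^ s := pow_le_pow_right₀ hX1 (by omega)
    exact_mod_cast this
  have c1 : 8 * n * (Λ + 1) ≤ 2 ^ Λ := by
    have h1 : (8:ℝ) * n * (Λ + 1) ≤ (2:ℝ) ^ Λ := by
      rw [h2ΛX]
      have h2 : 8 * ((Λ:ℝ) + 1) ≤ X ^ (2 * b) := by
        calc 8 * ((Λ:ℝ) + 1) ≤ 8 * (cL * X ^ (b + 1)) := by linarith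
          _ = (8 * cL) * X ^ (b + 1) := by ring
          _ ≤ X * X ^ (b + 1) := mul_le_mul_of_nonneg_right e2 (by positivity)
          _ = X ^ (b + 2) := by ring
          _ ≤ X ^ (2 * b) := pow_le_pow_right₀ hX1 (by omega)
      calc (8:ℝ) * n * (Λ + 1) = n * (8 * ((Λ:ℝ) + 1)) := by ring
        _ ≤ n * X ^ (2 * b) := mul_le_mul_of_nonneg_left h2 hnR.le
    exact_mod_cast h1
  have c2 : 2 * (R:ℝ) * (Q : ℝ) ^ R * Real.exp (-(μ * Q)) ≤ 1 / 6 := by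
    have h1 : (Q : ℝ) ^ R ≤ Real.exp (s * X ^ (b + 1)) := by
      have h2 : (Q : ℝ) ≤ Real.exp (s * X) := by
        have h3 : (Q : ℝ) = (2:ℝ) ^ (s * t) := by rw [hQ]; push_cast; ring
        rw [h3]
        calc (2:ℝ) ^ (s * t) ≤ (Real.exp 1) ^ (s * t) := by
              refine pow_le_pow_left₀ (by norm_num) ?_ _
              have := Real.add_one_le_exp 1
              linarith
          _ = Real.exp (s * t) := by
              rw [← Real.exp_nat_mul]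
              push_cast
              ring_nf
          _ ≤ Real.exp (s * X) := by
              refine Real.exp_le_exp.2 (mul_le_mul_of_nonneg_left htX (by positivity))
      calc (Q : ℝ) ^ R ≤ (Real.exp (s * X)) ^ R := pow_le_pow_left₀ (by positivity) h2 _
        _ = Real.exp (s * X ^ (b + 1)) := by
            rw [← Real.exp_nat_mul, hRX]
            congr 1
            ring
    have h3 : X ^ (b + 2) ≤ (μ:ℝ) * Q := by
      rw [hμX, hQX, ← pow_add]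
      exact pow_le_pow_right₀ hX1 (by omega)
    have h4 : (s:ℝ) * X ^ (b + 1) - μ * Q ≤ -(1 * X) := by
      have h5 : (s:ℝ) * X ^ (b + 1) - X ^ (b + 2) = -((X - s) * X ^ (b + 1)) := by ring
      have h6 : X ≤ X ^ (b + 1) := by
        calc X = X ^ 1 := by ring
          _ ≤ X ^ (b + 1) := pow_le_pow_right₀ hX1 (by omega)
      have h7 : X ≤ (X - s) * X ^ (b + 1) := by
        calc X ≤ X ^ (b + 1) := h6
          _ = 1 * X ^ (b + 1) := by ring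
          _ ≤ (X - s) * X ^ (b + 1) :=
            mul_le_mul_of_nonneg_right (by linarith) (by positivity)
      linarith
    calc 2 * (R:ℝ) * (Q : ℝ) ^ R * Real.exp (-(μ * Q))
        ≤ 2 * X ^ b * Real.exp (s * X ^ (b + 1)) * Real.exp (-(μ * Q)) := by
          rw [hRX]
          refine mul_le_mul_of_nonneg_right ?_ (Real.exp_pos _).le
          exact mul_le_mul_of_nonneg_left h1 (by positivity)
      _ = 2 * X ^ b * Real.exp (s * X ^ (b + 1) - μ * Q) := by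
          rw [mul_assoc, ← Real.exp_add]
          ring_nf
      _ ≤ 2 * X ^ b * Real.exp (-(1 * X)) := by
          refine mul_le_mul_of_nonneg_left (Real.exp_le_exp.2 h4) (by positivity)
      _ ≤ 1 / 6 := e5
  obtain ⟨τ, hτ⟩ : ∃ τ : ℝ, τ = n / X ^ (2 * s) := ⟨_, rfl⟩
  have hτ0 : 0 < τ := by rw [hτ]; positivity
  have c3 : (1 - κ / (1024 * μ)) ^ R * (2 * n) / τ ≤ 1 / 6 := by
    have hμ1 : (1:ℝ) ≤ μ := by exact_mod_cast hμpos
    have h1 : (1 - κ / (1024 * μ)) ^ R ≤ Real.exp (-(κ / 1024 * X)) := by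
      have h2 : (1 - κ / (1024 * μ)) ≤ Real.exp (-(κ / (1024 * μ))) := by
        have := Real.add_one_le_exp (-(κ / (1024 * μ)))
        linarith
      have h3 : 0 ≤ 1 - κ / (1024 * μ) := by
        have : κ / (1024 * μ) ≤ 1 := by
          rw [div_le_one (by positivity)]
          nlinarith
        linarith
      calc (1 - κ / (1024 * μ)) ^ R ≤ (Real.exp (-(κ / (1024 * μ)))) ^ R :=
            pow_le_pow_left₀ h3 h2 _
        _ = Real.exp (-(κ / 1024 * X)) := by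
            rw [← Real.exp_nat_mul, hRX, hμX]
            congr 1
            have h4 : X ^ b = X * X ^ (b - 1) := by
              rw [← pow_succ', Nat.sub_add_cancel (by omega)]
            rw [h4]
            field_simp
    have h5 : (1 - κ / (1024 * μ)) ^ R * (2 * n) / τ =
        2 * X ^ (2 * s) * (1 - κ / (1024 * μ)) ^ R := by
      rw [hτ]
      field_simp
    rw [h5]
    calc 2 * X ^ (2 * s) * (1 - κ / (1024 * μ)) ^ R ≤
        2 * X ^ (2 * s) * Real.exp (-(κ / 1024 * X)) :=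
          mul_le_mul_of_nonneg_left h1 (by positivity)
      _ ≤ 1 / 6 := e6
  have c4 : (3 * n / 2 ^ (Λ + 1) : ℝ) ≤ 1 / 6 := by
    rw [pow_succ, h2ΛX]
    have h1 : (9:ℝ) ≤ X ^ (2 * b) := by
      calc (9:ℝ) ≤ X := by linarith
        _ = X ^ 1 := by ring
        _ ≤ X ^ (2 * b) := pow_le_pow_right₀ hX1 (by omega)
    rw [div_le_iff₀ (by positivity)]
    nlinarith
  obtain ⟨S, hS⟩ : ∃ S : ℝ, S = (2 + C) * (n * (X ^ (2 * b) / X ^ (2 * s))) := ⟨_, rfl⟩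
  have c5 : 2 * τ + C * (R / Q) ^ 2 * n ≤ S := by
    rw [hS, hτ, hRX, hQX]
    have h1 : (n:ℝ) / X ^ (2 * s) ≤ n * (X ^ (2 * b) / X ^ (2 * s)) := by
      rw [← mul_div_assoc]
      refine div_le_div_of_nonneg_right ?_ (by positivity)
      calc (n:ℝ) = n * 1 := by ring
        _ ≤ n * X ^ (2 * b) := mul_le_mul_of_nonneg_left (hpowX _) hnR.le
    have h2 : C * (X ^ b / X ^ s) ^ 2 * n = C * (n * (X ^ (2 * b) / X ^ (2 * s))) := by
      rw [div_pow, ← pow_mul, ← pow_mul, mul_comm b 2, mul_comm s 2]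
      ring
    rw [h2]
    linarith
  have hS0 : 0 ≤ S := by rw [hS]; positivity
  have hXs : X ^ (2 * b) / X ^ (2 * s) ≤ 1 := by
    rw [div_le_one (by positivity)]
    exact pow_le_pow_right₀ hX1 (by omega)
  have c6 : C / 2 ^ Λ * Real.sqrt (n * S) ≤ 1 / 2 := by
    have h1 : Real.sqrt (n * S) ≤ (2 + C) * n := by
      rw [Real.sqrt_le_left (by positivity)]
      have h2 : S ≤ (2 + C) * n := by
        rw [hS]
        refine mul_le_mul_of_nonneg_left ?_ (by positivity)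
        calc (n:ℝ) * (X ^ (2 * b) / X ^ (2 * s)) ≤ n * 1 :=
              mul_le_mul_of_nonneg_left hXs hnR.le
          _ = n := by ring
      calc (n:ℝ) * S ≤ n * ((2 + C) * n) := mul_le_mul_of_nonneg_left h2 hnR.le
        _ = 1 * ((2 + C) * n ^ 2) := by ring
        _ ≤ (2 + C) * ((2 + C) * n ^ 2) :=
            mul_le_mul_of_nonneg_right (by linarith) (by positivity)
        _ = ((2 + C) * n) ^ 2 := by ring
    rw [h2ΛX]
    calc C / (n * X ^ (2 * b)) * Real.sqrt (n * S) ≤ C / (n * X ^ (2 * b)) * ((2 + C) * n) :=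
          mul_le_mul_of_nonneg_left h1 (by positivity)
      _ = C * (2 + C) / X ^ (2 * b) := by
          field_simp
      _ ≤ 1 / 2 := by
          rw [div_le_iff₀ (by positivity)]
          have h3 : X ≤ X ^ (2 * b) := by
            calc X = X ^ 1 := by ring
              _ ≤ X ^ (2 * b) := pow_le_pow_right₀ hX1 (by omega)
          linarith
  have c7 : ∀ k : ℝ, 0 ≤ k → k ≤ 2 → 3 * (1 + C * ((Q : ℝ) ^ (R + 1)) ^ (2 * k) + C * ((Λ : ℝ) + 1) *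
      ((2 : ℝ) ^ Λ) ^ (2 * k) / (2 : ℝ) ^ Λ * S) ≤ C3 * (N : ℝ) ^ (2 * k) := by
    intro k hk0 hk2
    have hk0' : k ≤ (k0 : ℝ) := by rw [hk0e]; exact_mod_cast hk2
    have hNQ' : (Q : ℝ) ^ (R + 1) = N := by rw [hNQ]; push_cast; ring
    rw [hNQ', hC3]
    have hN1 : (1:ℝ) ≤ (N : ℝ) ^ (2 * k) :=
      Real.one_le_rpow (by exact_mod_cast hNpos) (by linarith)
    have hnX : (n : ℝ) = X ^ (b - 1) * N := by
      rw [hn]
      push_cast
      rw [hX, ← pow_mul, mul_comm t]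
    obtain ⟨m, hm⟩ : ∃ m : ℕ, m = (b - 1) + 2 * b := ⟨_, rfl⟩
    obtain ⟨Y, hY⟩ : ∃ Y : ℝ, Y = X ^ m := ⟨_, rfl⟩
    have hY1 : 1 ≤ Y := by rw [hY]; exact hpowX m
    have hY0 : 0 ≤ Y := by linarith
    have key : C * ((Λ : ℝ) + 1) * ((2 : ℝ) ^ Λ) ^ (2 * k) / (2 : ℝ) ^ Λ * S ≤
        C * (2 + C) * cL * (N : ℝ) ^ (2 * k) := by
      have h1 : ((2 : ℝ) ^ Λ) ^ (2 * k) / (2 : ℝ) ^ Λ * S =
          (2 + C) * ((N : ℝ) ^ (2 * k) * Y ^ (2 * k) / X ^ (2 * s)) := by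
        rw [h2ΛX, hS]
        have h2 : ((n : ℝ) * X ^ (2 * b)) ^ (2 * k) = (N : ℝ) ^ (2 * k) * Y ^ (2 * k) := by
          rw [hnX, ← Real.mul_rpow hNR.le hY0]
          congr 1
          rw [hY, hm, pow_add]
          ring
        rw [h2]
        field_simp
      have h3 : Y ^ (2 * k) * X ^ (b + 1) ≤ X ^ (2 * s) := by
        have h4 : Y ^ (2 * k) ≤ Y ^ (2 * k0) := by
          rw [← Real.rpow_natCast]
          refine Real.rpow_le_rpow_of_exponent_le hY1 ?_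
          push_cast
          linarith
        calc Y ^ (2 * k) * X ^ (b + 1) ≤ Y ^ (2 * k0) * X ^ (b + 1) :=
              mul_le_mul_of_nonneg_right h4 (by positivity)
          _ = X ^ (m * (2 * k0) + (b + 1)) := by
              rw [hY, ← pow_mul, ← pow_add]
          _ ≤ X ^ (2 * s) := by
              refine pow_le_pow_right₀ hX1 ?_
              rw [hs, hm]
              have h5 : ((b - 1) + 2 * b) * (2 * k0) ≤ 3 * b * (2 * k0) :=
                Nat.mul_le_mul_right _ (by omega)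
              have h6 : 3 * b * (2 * k0) = 2 * (3 * b * k0) := by ring
              omega
      have hYk : 0 ≤ Y ^ (2 * k) := Real.rpow_nonneg hY0 _
      have hNk : 0 ≤ (N : ℝ) ^ (2 * k) := Real.rpow_nonneg hNR.le _
      calc C * ((Λ : ℝ) + 1) * ((2 : ℝ) ^ Λ) ^ (2 * k) / (2 : ℝ) ^ Λ * S
          = C * ((Λ : ℝ) + 1) * (((2 : ℝ) ^ Λ) ^ (2 * k) / (2 : ℝ) ^ Λ * S) := by ring
        _ = C * ((Λ : ℝ) + 1) * ((2 + C) * ((N : ℝ) ^ (2 * k) * Y ^ (2 * k) /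
            X ^ (2 * s))) := by rw [h1]
        _ ≤ C * (cL * X ^ (b + 1)) * ((2 + C) * ((N : ℝ) ^ (2 * k) * Y ^ (2 * k) /
            X ^ (2 * s))) := by
            refine mul_le_mul_of_nonneg_right ?_ (by positivity)
            exact mul_le_mul_of_nonneg_left hΛle hC
        _ = C * (2 + C) * cL * (N : ℝ) ^ (2 * k) *
            ((Y ^ (2 * k) * X ^ (b + 1)) / X ^ (2 * s)) := by
            ring
        _ ≤ C * (2 + C) * cL * (N : ℝ) ^ (2 * k) * 1 := by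
            refine mul_le_mul_of_nonneg_left ?_ (by positivity)
            rw [div_le_one (by positivity)]
            exact h3
        _ = _ := by ring
    nlinarith
  refine ⟨H n Q hQpos R μ Λ τ c0 hμpos hτ0 hnn c1 c2 c3 c4 S c5 c6 N C3 hNR c7, ?_⟩
  · rw [← hX]
    have h1 : (n : ℝ) ≤ (2:ℝ) ^ Λ := by
      rw [h2ΛX]
      calc (n:ℝ) = n * 1 := by ring
        _ ≤ n * X ^ (2 * b) := mul_le_mul_of_nonneg_left (hpowX _) hnR.le
    have h2 : Real.log n ≤ Λ * Real.log 2 := by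
      rw [← Real.log_pow]
      exact Real.log_le_log hnR h1
    have h3 : Real.log 2 ≤ 1 := by
      have := Real.log_two_lt_d9
      linarith
    have h4 : (Λ:ℝ) * Real.log 2 ≤ Λ * 1 :=
      mul_le_mul_of_nonneg_left h3 (by positivity)
    linarith

end

end Pool.Agent.H429Z.Ran
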