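import Mathlib

set_option autoImplicit false

namespace Pool.Agent.H429Z.Ran

noncomputable section

/-- Triangle profile. -/
def tri (L : ℕ) (i : ℤ) : ℝ := max ((L : ℝ) - |(i : ℝ)|) 0

/-- The range of indices. -/
def RR (L : ℕ) : Finset ℤ := Finset.Icc (-(2 * L : ℤ)) (2 * L)

/-- The normalisation. -/
def SL (L : ℕ) : ℝ := ∑ i ∈ RR L, tri L i ^ 2

theorem tri_nonneg (L : ℕ) (i : ℤ) : 0 ≤ tri L i := le_max_right _ _

theorem tri_ne {L : ℕ} {i : ℤ} (h : tri L i ≠ 0) : |i| ≤ L := by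
  by_contra hc
  apply h
  unfold tri
  rw [max_eq_right]
  rw [not_le] at hc
  have : ((L : ℤ) : ℝ) < ((|i| : ℤ) : ℝ) := by exact_mod_cast hc
  push_cast at this
  linarith

theorem tri_lip (L : ℕ) (i m : ℤ) : |tri L i - tri L (i + m)| ≤ |(m : ℝ)| := by
  unfold tri
  refine (abs_max_sub_max_le_abs _ _ _).trans ?_
  push_cast
  have h1 : (L : ℝ) - |(i : ℝ)| - (L - |(i : ℝ) + m|) = |(i : ℝ) + m| - |(i : ℝ)| := by ring
  rw [h1]
  have := abs_abs_sub_abs_le_abs_sub ((i : ℝ) + m) i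
  simpa using this

theorem SL_ge (M : ℕ) : 2 * (M : ℝ) ^ 3 ≤ SL (2 * M) := by
  have hsub : Finset.Icc (-(M : ℤ)) M ⊆ RR (2 * M) := by
    intro i hi
    unfold RR
    rw [Finset.mem_Icc] at hi ⊢
    push_cast
    omega
  refine le_trans ?_ (Finset.sum_le_sum_of_subset_of_nonneg hsub fun _ _ _ => sq_nonneg _)
  have h1 : ∀ i ∈ Finset.Icc (-(M : ℤ)) M, (M : ℝ) ^ 2 ≤ tri (2 * M) i ^ 2 := by
    intro i hi
    rw [Finset.mem_Icc] at hi
    refine pow_le_pow_left₀ (by positivity) ?_ 2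
    refine le_trans ?_ (le_max_left _ _)
    have : |i| ≤ (M : ℤ) := abs_le.2 hi
    have h2 : ((|i| : ℤ) : ℝ) ≤ ((M : ℤ) : ℝ) := by exact_mod_cast this
    push_cast at h2 ⊢
    linarith
  refine le_trans ?_ (Finset.card_nsmul_le_sum _ _ _ h1)
  rw [Int.card_Icc, nsmul_eq_mul]
  have : ((M : ℤ) + 1 - -(M : ℤ)).toNat = 2 * M + 1 := by omega
  rw [this]
  push_cast
  nlinarith [sq_nonneg (M : ℝ)]

theorem tri_hasSum (L : ℕ) : HasSum (fun i : ℤ => tri L i ^ 2) (SL L) := by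
  refine hasSum_sum_of_ne_finset_zero fun i hi => ?_
  by_contra h
  apply hi
  have h1 : tri L i ≠ 0 := fun h0 => h (by rw [h0]; ring)
  have := abs_le.1 (tri_ne h1)
  unfold RR
  rw [Finset.mem_Icc]
  omega

theorem tri_shift_hasSum (L : ℕ) (m : ℤ) : HasSum (fun i : ℤ => tri L (i + m) ^ 2) (SL L) :=
  (Equiv.addRight m).hasSum_iff.2 (tri_hasSum L)

theorem tri_shift_le (L : ℕ) (m : ℤ) : ∑ i ∈ RR L, tri L (i + m) ^ 2 ≤ SL L :=
  sum_le_hasSum _ (fun _ _ => sq_nonneg _) (tri_shift_hasSum L m)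

theorem tri_shift_eq (L : ℕ) (m : ℤ) (hm : |m| ≤ L) : ∑ i ∈ RR L, tri L (i + m) ^ 2 = SL L := by
  refine HasSum.unique (hasSum_sum_of_ne_finset_zero fun i hi => ?_) (tri_shift_hasSum L m)
  by_contra h
  apply hi
  have h1 : tri L (i + m) ≠ 0 := fun h0 => h (by rw [h0]; ring)
  have := abs_le.1 (tri_ne h1)
  have := abs_le.1 hm
  unfold RR
  rw [Finset.mem_Icc]
  omega

theorem tri_aff (M : ℕ) (hM : 1 ≤ M) (m : ℤ) :
    SL (2 * M) * (1 - 10 * (m : ℝ) ^ 2 / ((2 * M : ℕ) : ℝ) ^ 2) ≤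
      ∑ i ∈ RR (2 * M), tri (2 * M) i * tri (2 * M) (i + m) := by
  have hM' : (1 : ℝ) ≤ M := by exact_mod_cast hM
  have hS := SL_ge M
  have hS0 : 0 ≤ SL (2 * M) := le_trans (by positivity) hS
  by_cases hm : |m| ≤ ((2 * M : ℕ) : ℤ)
  · have h1 : ∀ i ∈ RR (2 * M), (tri (2 * M) i ^ 2 + tri (2 * M) (i + m) ^ 2 - (m : ℝ) ^ 2) / 2 ≤
        tri (2 * M) i * tri (2 * M) (i + m) := by
      intro i _
      have h2 := tri_lip (2 * M) i m
      have h3 : (tri (2 * M) i - tri (2 * M) (i + m)) ^ 2 ≤ (m : ℝ) ^ 2 := by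
        rw [← sq_abs, ← sq_abs (m : ℝ)]
        exact pow_le_pow_left₀ (abs_nonneg _) h2 2
      nlinarith
    refine le_trans ?_ (Finset.sum_le_sum h1)
    rw [← Finset.sum_div, Finset.sum_sub_distrib, Finset.sum_add_distrib, tri_shift_eq _ _ hm,
      Finset.sum_const, nsmul_eq_mul]
    have hc : ((RR (2 * M)).card : ℝ) = 8 * M + 1 := by
      unfold RR
      rw [Int.card_Icc]
      have : ((2 * ((2 * M : ℕ) : ℤ)) + 1 - -(2 * ((2 * M : ℕ) : ℤ))).toNat = 8 * M + 1 := by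
        push_cast
        omega
      rw [this]
      push_cast
      ring
    rw [hc]
    change _ ≤ (SL (2 * M) + SL (2 * M) - _) / 2
    have h4 : (8 * (M : ℝ) + 1) * (m : ℝ) ^ 2 / 2 ≤
        SL (2 * M) * (10 * (m : ℝ) ^ 2 / ((2 * M : ℕ) : ℝ) ^ 2) := by
      calc (8 * (M : ℝ) + 1) * (m : ℝ) ^ 2 / 2 ≤ (5 * M) * (m : ℝ) ^ 2 := by
            nlinarith [sq_nonneg (m : ℝ)]
        _ = (2 * (M : ℝ) ^ 3) * (10 * (m : ℝ) ^ 2 / ((2 * M : ℕ) : ℝ) ^ 2) := by
            push_cast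
            field_simp
            ring
        _ ≤ _ := mul_le_mul_of_nonneg_right hS (by positivity)
    linarith
  · refine le_trans ?_ (Finset.sum_nonneg fun i _ => mul_nonneg (tri_nonneg _ _) (tri_nonneg _ _))
    refine mul_nonpos_of_nonneg_of_nonpos hS0 ?_
    rw [not_le] at hm
    have h2 : (((2 * M : ℕ) : ℤ) : ℝ) ≤ ((|m| : ℤ) : ℝ) := by exact_mod_cast hm.le
    rw [Int.cast_abs, Int.cast_natCast] at h2
    have h3 : ((2 * M : ℕ) : ℝ) ^ 2 ≤ (m : ℝ) ^ 2 := by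
      rw [← sq_abs (m : ℝ)]
      exact pow_le_pow_left₀ (by positivity) h2 2
    have h4 : (0 : ℝ) < ((2 * M : ℕ) : ℝ) ^ 2 := by positivity
    rw [sub_nonpos, le_div_iff₀ h4]
    nlinarith

theorem one_sub_sum_le {ι : Type} (s : Finset ι) (x r : ι → ℝ) (hx : ∀ i, 0 ≤ x i)
    (hr : ∀ i, 1 - x i ≤ r i) (hr0 : ∀ i, 0 ≤ r i) :
    1 - ∑ i ∈ s, x i ≤ ∏ i ∈ s, r i := by
  classical
  induction s using Finset.induction_on with
  | empty => simp
  | insert a s ha ih =>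
    rw [Finset.sum_insert ha, Finset.prod_insert ha]
    have h1 : 0 ≤ ∑ i ∈ s, x i := Finset.sum_nonneg fun i _ => hx i
    have h2 : 0 ≤ ∏ i ∈ s, r i := Finset.prod_nonneg fun i _ => hr0 i
    by_cases h3 : 1 - x a ≤ 0
    · have := mul_nonneg (hr0 a) h2
      linarith
    · rw [not_le] at h3
      have h4 := mul_le_mul (hr a) ih
      by_cases h5 : 0 ≤ 1 - ∑ i ∈ s, x i
      · have := h4 h5 (hr0 a)
        nlinarith [mul_nonneg (hx a) h1]
      · have := mul_nonneg (hr0 a) h2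
        linarith [hx a]

/-- A finitely supported product distribution on a lattice which is almost invariant under
short shifts. -/
theorem prior_core (J : Type) [Fintype J] [DecidableEq J] (M : ℕ) (hM : 1 ≤ M) :
    ∃ (box : Finset (J → ℤ)) (p : (J → ℤ) → ℝ), (∀ l, 0 ≤ p l) ∧ ∑ l ∈ box, p l = 1 ∧
      (∀ l, p l ≠ 0 → l ∈ box ∧ ∀ j, |l j| ≤ ((2 * M : ℕ) : ℤ)) ∧
      ∀ m : J → ℤ, ∑ j, (m j : ℝ) ^ 2 ≤ ((2 * M : ℕ) : ℝ) ^ 2 / 20 →
        1 / 8 ≤ ∑ l ∈ box, min (p l) (p (l + m)) := by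
  have hM' : (1 : ℝ) ≤ M := by exact_mod_cast hM
  have hS : 0 < SL (2 * M) := lt_of_lt_of_le (by positivity) (SL_ge M)
  obtain ⟨a, ha⟩ : ∃ a : ℤ → ℝ, a = fun i => tri (2 * M) i / Real.sqrt (SL (2 * M)) := ⟨_, rfl⟩
  have ha0 : ∀ i, 0 ≤ a i := fun i => by
    rw [ha]; exact div_nonneg (tri_nonneg _ _) (Real.sqrt_nonneg _)
  have hmul : ∀ i j, a i * a j = tri (2 * M) i * tri (2 * M) j / SL (2 * M) := by
    intro i j
    rw [ha]
    simp only
    rw [div_mul_div_comm, Real.mul_self_sqrt hS.le]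
  have hprod : ∀ F : J → ℤ → ℝ, ∑ l ∈ Fintype.piFinset (fun _ : J => RR (2 * M)), ∏ j, F j (l j) =
      ∏ j, ∑ i ∈ RR (2 * M), F j i := fun F => (Finset.prod_univ_sum _ F).symm
  refine ⟨Fintype.piFinset (fun _ : J => RR (2 * M)), fun l => (∏ j, a (l j)) ^ 2,
    fun l => sq_nonneg _, ?_, ?_, ?_⟩
  · simp only [← Finset.prod_pow]
    rw [hprod (fun _ i => a i ^ 2)]
    refine Finset.prod_eq_one fun j _ => ?_
    simp only [pow_two, hmul]
    rw [← Finset.sum_div, div_eq_one_iff_eq hS.ne']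
    unfold SL
    simp only [pow_two]
  · intro l hl
    have h1 : ∀ j, |l j| ≤ ((2 * M : ℕ) : ℤ) := by
      intro j
      apply tri_ne
      intro h0
      apply hl
      have : a (l j) = 0 := by rw [ha]; simp only; rw [h0, zero_div]
      simp only
      rw [Finset.prod_eq_zero (Finset.mem_univ j) this]
      ring
    refine ⟨Fintype.mem_piFinset.2 fun j => ?_, h1⟩
    have := abs_le.1 (h1 j)
    unfold RR
    rw [Finset.mem_Icc]
    omega
  · intro m hm
    obtain ⟨X, hX⟩ : ∃ X : (J → ℤ) → ℝ, X = fun l => ∏ j, a (l j) := ⟨_, rfl⟩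
    have hX0 : ∀ l, 0 ≤ X l := fun l => by
      rw [hX]; exact Finset.prod_nonneg fun j _ => ha0 _
    change 1 / 8 ≤ ∑ l ∈ Fintype.piFinset (fun _ : J => RR (2 * M)),
      min ((∏ j, a (l j)) ^ 2) ((∏ j, a ((l + m) j)) ^ 2)
    have e0 : ∀ l, (∏ j, a (l j)) = X l := fun l => by rw [hX]
    simp only [e0]
    obtain ⟨box, hbox⟩ : ∃ box, box = Fintype.piFinset (fun _ : J => RR (2 * M)) := ⟨_, rfl⟩
    rw [← hbox]
    have s1 : ∑ l ∈ box, X l ^ 2 ≤ 1 := by
      rw [hbox, hX]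
      simp only [← Finset.prod_pow]
      rw [hprod (fun _ i => a i ^ 2)]
      refine Finset.prod_le_one (fun j _ => Finset.sum_nonneg fun _ _ => sq_nonneg _) fun j _ => ?_
      simp only [pow_two, hmul]
      rw [← Finset.sum_div, div_le_one hS]
      unfold SL
      simp only [pow_two, le_refl]
    have s2 : ∑ l ∈ box, X (l + m) ^ 2 ≤ 1 := by
      rw [hbox, hX]
      simp only [← Finset.prod_pow, Pi.add_apply]
      rw [hprod (fun j i => a (i + m j) ^ 2)]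
      refine Finset.prod_le_one (fun j _ => Finset.sum_nonneg fun _ _ => sq_nonneg _) fun j _ => ?_
      simp only [pow_two, hmul]
      rw [← Finset.sum_div, div_le_one hS]
      have := tri_shift_le (2 * M) (m j)
      simpa only [pow_two] using this
    have s3 : 1 / 2 ≤ ∑ l ∈ box, X l * X (l + m) := by
      rw [hbox, hX]
      simp only [← Finset.prod_mul_distrib, Pi.add_apply]
      rw [hprod (fun j i => a i * a (i + m j))]
      refine le_trans ?_ (one_sub_sum_le Finset.univ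
        (fun j => 10 * (m j : ℝ) ^ 2 / ((2 * M : ℕ) : ℝ) ^ 2) _ (fun j => by positivity) ?_ ?_)
      · rw [← Finset.sum_div, ← Finset.mul_sum]
        have h4 : (0 : ℝ) < ((2 * M : ℕ) : ℝ) ^ 2 := by positivity
        have : 10 * (∑ j, (m j : ℝ) ^ 2) / ((2 * M : ℕ) : ℝ) ^ 2 ≤ 1 / 2 := by
          rw [div_le_iff₀ h4]
          linarith
        linarith
      · intro j
        simp only [hmul]
        rw [← Finset.sum_div, le_div_iff₀ hS, mul_comm]
        exact tri_aff M hM (m j)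
      · intro j
        exact Finset.sum_nonneg fun i _ => mul_nonneg (ha0 _) (ha0 _)
    have cs := Finset.sum_mul_sq_le_sq_mul_sq box (fun l => min (X l) (X (l + m)))
      (fun l => max (X l) (X (l + m)))
    simp only [min_mul_max] at cs
    have s4 : ∑ l ∈ box, (max (X l) (X (l + m))) ^ 2 ≤ 2 := by
      have : ∀ l ∈ box, (max (X l) (X (l + m))) ^ 2 ≤ X l ^ 2 + X (l + m) ^ 2 := by
        intro l _
        rcases le_total (X l) (X (l + m)) with h | h
        · rw [max_eq_right h]; nlinarith [sq_nonneg (X l)]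
        · rw [max_eq_left h]; nlinarith [sq_nonneg (X (l + m))]
      refine (Finset.sum_le_sum this).trans ?_
      rw [Finset.sum_add_distrib]
      linarith
    have s5 : ∑ l ∈ box, (min (X l) (X (l + m))) ^ 2 =
        ∑ l ∈ box, min (X l ^ 2) (X (l + m) ^ 2) := by
      refine Finset.sum_congr rfl fun l _ => ?_
      rcases le_total (X l) (X (l + m)) with h | h
      · rw [min_eq_left h, min_eq_left (pow_le_pow_left₀ (hX0 _) h 2)]
      · rw [min_eq_right h, min_eq_right (pow_le_pow_left₀ (hX0 _) h 2)]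
    rw [← s5]
    have s6 : 0 ≤ ∑ l ∈ box, (min (X l) (X (l + m))) ^ 2 := Finset.sum_nonneg fun _ _ => sq_nonneg _
    nlinarith

end

end Pool.Agent.H429Z.Ran
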