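import Mathlib
import Pool.Agent.H429Z.Ran.Defs
import Pool.Agent.H429Z.Ran.Bd
import Pool.Agent.H429Z.Ran.Tri

set_option autoImplicit false

namespace Pool.Agent.H429Z.Ran

open MeasureTheory Filter Topology
open scoped ENNReal
open Pool.Agent.Helper150.Iid

noncomputable section

theorem sum_shift_le {J : Type} [Fintype J] [DecidableEq J] (box : Finset (J → ℤ))
    (f : (J → ℤ) → ℝ) (hf : ∀ l, 0 ≤ f l) (hs : ∀ l, f l ≠ 0 → l ∈ box) (m : J → ℤ) :
    ∑ l ∈ box, f (l + m) ≤ ∑ l ∈ box, f l := by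
  classical
  have h1 : ∑ l ∈ box, f (l + m) = ∑ l ∈ box.map (Equiv.addRight m).toEmbedding, f l := by
    rw [Finset.sum_map]
    rfl
  rw [h1, ← Finset.sum_filter_ne_zero (box.map (Equiv.addRight m).toEmbedding)]
  refine Finset.sum_le_sum_of_subset_of_nonneg (fun l hl => ?_) fun l _ _ => hf l
  exact hs l (Finset.mem_filter.1 hl).2

theorem abstract_lower {n : ℕ} (A : RandAlg 2 n) (k : ℝ) {C J : Type} [Fintype C] [DecidableEq C]
    [Fintype J] [DecidableEq J] (box : Finset (J → ℤ)) (p : (J → ℤ) → ℝ) (hp0 : ∀ l, 0 ≤ p l)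
    (hp1 : ∑ l ∈ box, p l = 1) (hps : ∀ l, p l ≠ 0 → l ∈ box)
    (F : (C → Bool) → (J → ℤ) → Tor 2 → ℝ) (hF : ∀ γ l, p l ≠ 0 → F γ l ∈ ball 2 k)
    (K : Set A.Ω) (hKm : @MeasurableSet _ A.mΩ K) (hK : 1 / 4 ≤ A.μ K) (Δ : ℝ) (hΔ : 0 ≤ Δ)
    (hpair : ∀ ω ∈ K, ∃ c : C, ∀ γ : C → Bool, γ c = false → ∃ m : J → ℤ,
      1 / 8 ≤ ∑ l ∈ box, min (p l) (p (l + m)) ∧ ∀ l,
        (∀ i, F (Function.update γ c true) (l + m) (A.P ω i) = F γ l (A.P ω i)) ∧
        Δ ≤ (∫ x, F (Function.update γ c true) (l + m) x) - ∫ x, F γ l x) :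
    ENNReal.ofReal (Δ / 64) ≤ errRan A k := by
  classical
  letI := A.mΩ
  haveI := A.prob
  refine le_of_forall_gt_imp_ge_of_dense fun e' he' => ?_
  obtain ⟨err, herr⟩ : ∃ err : (C → Bool) → (J → ℤ) → A.Ω → ℝ, err = fun γ l ω =>
    |(∫ x, F γ l x) - A.φ ω (fun i => F γ l (A.P ω i))| := ⟨_, rfl⟩
  have herr0 : ∀ γ l ω, 0 ≤ err γ l ω := fun γ l ω => by rw [herr]; exact abs_nonneg _
  have hG : ∀ γ l, ∃ G : A.Ω → ℝ≥0∞, Measurable G ∧ ∫⁻ ω, G ω ∂A.μ ≤ e' ∧
      (p l ≠ 0 → ∀ ω, ENNReal.ofReal (err γ l ω) ≤ G ω) := by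
    intro γ l
    by_cases hl : p l = 0
    · exact ⟨fun _ => 0, measurable_const, by simp, fun h => absurd hl h⟩
    · have h1 : upperInt A.μ (fun ω => ENNReal.ofReal (err γ l ω)) < e' := by
        refine lt_of_le_of_lt ?_ he'
        unfold errRan
        rw [herr]
        exact le_iSup₂ (f := fun f (_ : f ∈ ball 2 k) => upperInt A.μ
          (fun ω => ENNReal.ofReal |(∫ x, f x) - A.φ ω (fun i => f (A.P ω i))|)) (F γ l) (hF γ l hl)
      unfold upperInt at h1
      simp only [iInf_lt_iff] at h1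
      obtain ⟨G, hGm, hGle, hGi⟩ := h1
      exact ⟨G, hGm, hGi.le, fun _ ω => hGle ω⟩
  choose G hGm hGi hGle using hG
  obtain ⟨H, hH⟩ : ∃ H : A.Ω → ℝ≥0∞, H = fun ω =>
    ∑ γ : C → Bool, ∑ l ∈ box, ENNReal.ofReal (p l) * G γ l ω := ⟨_, rfl⟩
  have hHm : Measurable H := by
    rw [hH]
    exact Finset.measurable_sum _ fun γ _ => Finset.measurable_sum _ fun l _ =>
      (hGm γ l).const_mul _
  have hHi : ∫⁻ ω, H ω ∂A.μ ≤ (Fintype.card (C → Bool) : ℝ≥0∞) * e' := by
    rw [hH, lintegral_finset_sum _ fun γ _ => Finset.measurable_sum _ fun l _ =>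
      (hGm γ l).const_mul _]
    have h1 : ∀ γ ∈ (Finset.univ : Finset (C → Bool)),
        ∫⁻ ω, ∑ l ∈ box, ENNReal.ofReal (p l) * G γ l ω ∂A.μ ≤ e' := by
      intro γ _
      rw [lintegral_finset_sum _ fun l _ => (hGm γ l).const_mul _]
      have h2 : ∀ l ∈ box, ∫⁻ ω, ENNReal.ofReal (p l) * G γ l ω ∂A.μ ≤
          ENNReal.ofReal (p l) * e' := by
        intro l _
        rw [lintegral_const_mul _ (hGm γ l)]
        exact mul_le_mul_right (hGi γ l) _
      refine (Finset.sum_le_sum h2).trans ?_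
      rw [← Finset.sum_mul, ← ENNReal.ofReal_sum_of_nonneg fun l _ => hp0 l, hp1]
      simp
    refine (Finset.sum_le_card_nsmul _ _ _ h1).trans ?_
    simp
  have hpt : ∀ ω ∈ K, (Fintype.card (C → Bool) : ℝ≥0∞) * ENNReal.ofReal (Δ / 16) ≤ H ω := by
    intro ω hω
    obtain ⟨c, hc⟩ := hpair ω hω
    obtain ⟨t, ht⟩ : ∃ t : (C → Bool) → ℝ, t = fun γ => ∑ l ∈ box, p l * err γ l ω := ⟨_, rfl⟩
    have ht0 : ∀ γ, 0 ≤ t γ := fun γ => by
      rw [ht]; exact Finset.sum_nonneg fun l _ => mul_nonneg (hp0 l) (herr0 _ _ _)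
    have k1 : ∀ γ : C → Bool, γ c = false → Δ / 8 ≤ t γ + t (Function.update γ c true) := by
      intro γ hγ
      obtain ⟨m, hm1, hm2⟩ := hc γ hγ
      have a1 := sum_shift_le box (fun l => p l * err (Function.update γ c true) l ω)
        (fun l => mul_nonneg (hp0 l) (herr0 _ _ _))
        (fun l hl => hps l (left_ne_zero_of_mul hl)) m
      have a2 : ∀ l ∈ box, min (p l) (p (l + m)) * Δ ≤ p l * err γ l ω +
          p (l + m) * err (Function.update γ c true) (l + m) ω := by
        intro l _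
        obtain ⟨b1, b2⟩ := hm2 l
        have b3 : Δ ≤ err γ l ω + err (Function.update γ c true) (l + m) ω := by
          rw [herr]
          simp only
          have b4 : (fun i => F (Function.update γ c true) (l + m) (A.P ω i)) =
              fun i => F γ l (A.P ω i) := funext b1
          rw [b4]
          have b5 := neg_le_abs ((∫ x, F γ l x) - A.φ ω (fun i => F γ l (A.P ω i)))
          have b6 := le_abs_self ((∫ x, F (Function.update γ c true) (l + m) x) -
            A.φ ω (fun i => F γ l (A.P ω i)))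
          linarith
        have b7 : 0 ≤ min (p l) (p (l + m)) := le_min (hp0 _) (hp0 _)
        have b8 := mul_le_mul_of_nonneg_left b3 b7
        have b9 := mul_le_mul_of_nonneg_right (min_le_left (p l) (p (l + m))) (herr0 γ l ω)
        have b10 := mul_le_mul_of_nonneg_right (min_le_right (p l) (p (l + m)))
          (herr0 (Function.update γ c true) (l + m) ω)
        linarith
      have a3 := Finset.sum_le_sum a2
      rw [← Finset.sum_mul, Finset.sum_add_distrib] at a3
      have a4 := mul_le_mul_of_nonneg_right hm1 hΔ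
      rw [ht]
      simp only
      linarith
    obtain ⟨σ, hσ⟩ : ∃ σ : (C → Bool) ≃ (C → Bool), ∀ γ, σ γ = Function.update γ c (!γ c) :=
      ⟨Function.Involutive.toPerm (fun γ => Function.update γ c (!γ c)) (fun γ => by
        funext j
        by_cases hj : j = c
        · subst hj; simp
        · simp [Function.update_of_ne hj]), fun γ => rfl⟩
    have k2 : ∀ γ : C → Bool, Δ / 8 ≤ t γ + t (σ γ) := by
      intro γ
      rw [hσ]
      cases hγ : γ c with
      | false => simpa using k1 γ hγ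
      | true =>
        have h1 := k1 (Function.update γ c false) (by simp)
        have h2 : Function.update (Function.update γ c false) c true = γ := by
          funext j
          by_cases hj : j = c
          · subst hj; simp [hγ]
          · simp [Function.update_of_ne hj]
        rw [h2] at h1
        simp only [Bool.not_true]
        linarith
    have k3 : (Fintype.card (C → Bool) : ℝ) * (Δ / 16) ≤ ∑ γ, t γ := by
      have h1 := Finset.card_nsmul_le_sum Finset.univ (fun γ => t γ + t (σ γ)) (Δ / 8)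
        (fun γ _ => k2 γ)
      rw [Finset.sum_add_distrib, Equiv.sum_comp σ t, nsmul_eq_mul, Finset.card_univ] at h1
      linarith
    calc (Fintype.card (C → Bool) : ℝ≥0∞) * ENNReal.ofReal (Δ / 16)
        = ENNReal.ofReal ((Fintype.card (C → Bool) : ℝ) * (Δ / 16)) := by
          rw [ENNReal.ofReal_mul (by positivity), ENNReal.ofReal_natCast]
      _ ≤ ENNReal.ofReal (∑ γ, t γ) := ENNReal.ofReal_le_ofReal k3
      _ = ∑ γ, ENNReal.ofReal (t γ) := ENNReal.ofReal_sum_of_nonneg fun γ _ => ht0 γ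
      _ ≤ H ω := by
          rw [hH]
          refine Finset.sum_le_sum fun γ _ => ?_
          rw [ht]
          simp only
          rw [ENNReal.ofReal_sum_of_nonneg fun l _ => mul_nonneg (hp0 l) (herr0 _ _ _)]
          refine Finset.sum_le_sum fun l _ => ?_
          rw [ENNReal.ofReal_mul (hp0 l)]
          by_cases hl : p l = 0
          · simp [hl]
          · exact mul_le_mul_right (hGle γ l hl ω) _
  have hfin : (Fintype.card (C → Bool) : ℝ≥0∞) * ENNReal.ofReal (Δ / 64) ≤
      (Fintype.card (C → Bool) : ℝ≥0∞) * e' := by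
    refine le_trans ?_ hHi
    calc (Fintype.card (C → Bool) : ℝ≥0∞) * ENNReal.ofReal (Δ / 64)
        = (Fintype.card (C → Bool) : ℝ≥0∞) * ENNReal.ofReal (Δ / 16) * (1 / 4) := by
          rw [mul_assoc]
          congr 1
          have : Δ / 64 = Δ / 16 * (4 : ℝ)⁻¹ := by ring
          rw [this, ENNReal.ofReal_mul (by positivity), ENNReal.ofReal_inv_of_pos (by norm_num)]
          simp
      _ ≤ (Fintype.card (C → Bool) : ℝ≥0∞) * ENNReal.ofReal (Δ / 16) * A.μ K :=
          mul_le_mul_right hK _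
      _ = ∫⁻ ω in K, (Fintype.card (C → Bool) : ℝ≥0∞) * ENNReal.ofReal (Δ / 16) ∂A.μ := by
          rw [setLIntegral_const]
      _ ≤ ∫⁻ ω in K, H ω ∂A.μ := setLIntegral_mono hHm hpt
      _ ≤ ∫⁻ ω, H ω ∂A.μ := setLIntegral_le_lintegral _ _
  refine (ENNReal.mul_le_mul_iff_right ?_ ?_).1 hfin
  · exact_mod_cast Fintype.card_ne_zero
  · exact ENNReal.natCast_ne_top _

/-- The characters of the torus. -/
def ch (h : Fin 2 → ℤ) (x : Tor 2) : ℂ := ∏ j, fourier (h j) (x j)

theorem ch_cont (h : Fin 2 → ℤ) : Continuous (ch h) :=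
  continuous_finsetProd _ fun j _ => (fourier (h j)).continuous.comp (continuous_apply j)

theorem int_fourier (m : ℤ) : ∫ t : UnitAddCircle, fourier m t = if m = 0 then (1 : ℂ) else 0 := by
  have h1 := congrFun (fourierCoeff_fourier (T := 1) m) 0
  unfold fourierCoeff at h1
  rw [vol_circle]
  simp only [neg_zero, fourier_zero, one_smul] at h1
  rw [h1, Pi.single_apply]
  by_cases h : m = 0
  · simp [h]
  · simp [h, Ne.symm h]

theorem ch_mul (h h' : Fin 2 → ℤ) (x : Tor 2) : ch h x * ch h' x = ch (h + h') x := by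
  unfold ch
  rw [← Finset.prod_mul_distrib]
  refine Finset.prod_congr rfl fun j _ => ?_
  rw [Pi.add_apply, fourier_add]

theorem ch_neg (h : Fin 2 → ℤ) (x : Tor 2) : ch (-h) x = (starRingEnd ℂ) (ch h x) := by
  unfold ch
  rw [map_prod]
  refine Finset.prod_congr rfl fun j _ => ?_
  rw [Pi.neg_apply, fourier_neg]

theorem int_ch (h : Fin 2 → ℤ) : ∫ x : Tor 2, ch h x = if h = 0 then (1 : ℂ) else 0 := by
  unfold ch
  rw [integral_fintype_prod_volume_eq_prod (fun j (t : UnitAddCircle) => (fourier (h j) t : ℂ))]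
  simp only [int_fourier]
  by_cases hh : h = 0
  · simp [hh]
  · rw [if_neg hh]
    obtain ⟨j, hj⟩ := Function.ne_iff.1 hh
    exact Finset.prod_eq_zero (Finset.mem_univ j) (if_neg hj)

theorem fc_def' (f : Tor 2 → ℝ) (h : Fin 2 → ℤ) : fc f h = ∫ x : Tor 2, ch (-h) x * (f x : ℂ) := rfl

theorem fc_neg (f : Tor 2 → ℝ) (h : Fin 2 → ℤ) : fc f (-h) = (starRingEnd ℂ) (fc f h) := by
  rw [fc_def', fc_def', ← integral_conj]
  congr 1
  funext x
  rw [map_mul, ← ch_neg, Complex.conj_ofReal]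

theorem fc_re (z : ℂ) (h h' : Fin 2 → ℤ) : fc (fun x => (z * ch h x).re) h' =
    ((if h = h' then z else 0) + (if h = -h' then (starRingEnd ℂ) z else 0)) / 2 := by
  rw [fc_def']
  have e : ∀ x : Tor 2, ch (-h') x * (((z * ch h x).re : ℝ) : ℂ) =
      (z * ch (-h' + h) x + (starRingEnd ℂ) z * ch (-h' + -h) x) / 2 := by
    intro x
    rw [Complex.re_eq_add_conj, map_mul, ← ch_neg, ← ch_mul, ← ch_mul]
    ring
  simp only [e]
  have i1 : Integrable (fun x : Tor 2 => z * ch (-h' + h) x) :=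
    integrable_cont (continuous_const.mul (ch_cont _))
  have i2 : Integrable (fun x : Tor 2 => (starRingEnd ℂ) z * ch (-h' + -h) x) :=
    integrable_cont (continuous_const.mul (ch_cont _))
  rw [integral_div, integral_add i1 i2, integral_const_mul, integral_const_mul,
    int_ch, int_ch]
  congr 1
  congr 1
  · by_cases hh : h = h'
    · simp [hh]
    · rw [if_neg hh, if_neg, mul_zero]
      intro h0
      apply hh
      rw [neg_add_eq_zero] at h0
      exact h0.symm
  · by_cases hh : h = -h'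
    · simp [hh]
    · rw [if_neg hh, if_neg, mul_zero]
      intro h0
      apply hh
      rw [← neg_add, neg_eq_zero, add_eq_zero_iff_neg_eq] at h0
      exact h0.symm

theorem fc_finsum {ι : Type} (s : Finset ι) (F : ι → Tor 2 → ℝ) (hF : ∀ i, Continuous (F i))
    (h : Fin 2 → ℤ) : fc (fun x => ∑ i ∈ s, F i x) h = ∑ i ∈ s, fc (F i) h := by
  classical
  induction s using Finset.induction_on with
  | empty => simp [fc]
  | insert a s ha ih =>
    simp only [Finset.sum_insert ha]
    rw [fc_add (F a) (fun x => ∑ i ∈ s, F i x) (hF a) (continuous_finsetSum _ fun i _ => hF i), ih]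

/-- Real trigonometric polynomials. -/
def syn (B : Finset (Fin 2 → ℤ)) (z : (Fin 2 → ℤ) → ℂ) (x : Tor 2) : ℝ :=
  ∑ h ∈ B, (z h * ch h x).re

theorem syn_cont (B : Finset (Fin 2 → ℤ)) (z : (Fin 2 → ℤ) → ℂ) : Continuous (syn B z) :=
  continuous_finsetSum _ fun h _ => Complex.continuous_re.comp (continuous_const.mul (ch_cont h))

theorem fc_syn (B : Finset (Fin 2 → ℤ)) (hB : ∀ h, h ∈ B → -h ∈ B) (z : (Fin 2 → ℤ) → ℂ)
    (h' : Fin 2 → ℤ) : fc (syn B z) h' =
      if h' ∈ B then (z h' + (starRingEnd ℂ) (z (-h'))) / 2 else 0 := by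
  classical
  unfold syn
  rw [fc_finsum B (fun h x => (z h * ch h x).re)
    (fun h => Complex.continuous_re.comp (continuous_const.mul (ch_cont h)))]
  simp only [fc_re]
  rw [← Finset.sum_div, Finset.sum_add_distrib, Finset.sum_ite_eq', Finset.sum_ite_eq']
  by_cases hh : h' ∈ B
  · rw [if_pos hh, if_pos hh, if_pos (hB _ hh)]
  · have : -h' ∉ B := fun h => hh (by simpa using hB _ h)
    rw [if_neg hh, if_neg hh, if_neg this]
    simp

end

end Pool.Agent.H429Z.Ran
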