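import Mathlib
import Pool.Agent.H429Z.Ran.Prior1

set_option autoImplicit false

namespace Pool.Agent.H429Z.Ran

open MeasureTheory Filter Topology
open scoped ENNReal
open Pool.Agent.Helper150.Iid

noncomputable section

theorem bd_zero' (W : (Fin 2 → ℤ) → ℝ) : Bd W (fun _ => 0) 0 := by
  intro t
  have : ∀ h, fc (fun _ : Tor 2 => (0:ℝ)) h = 0 := by
    intro h
    simp [fc]
  simp [this]

theorem bd_finsum {W : (Fin 2 → ℤ) → ℝ} (hW : ∀ h, 0 ≤ W h) {ι : Type} (s : Finset ι)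
    (F : ι → Tor 2 → ℝ) (hF : ∀ i, Continuous (F i)) (hb : ∀ i, ∃ E, Bd W (F i) E) :
    ∃ E, Bd W (fun x => ∑ i ∈ s, F i x) E := by
  classical
  induction s using Finset.induction_on with
  | empty => exact ⟨0, by simpa using bd_zero' W⟩
  | insert a s ha ih =>
    obtain ⟨E1, h1⟩ := hb a
    obtain ⟨E2, h2⟩ := ih
    simp only [Finset.sum_insert ha]
    exact ⟨_, Bd.add (f := F a) (g := fun x => ∑ i ∈ s, F i x) hW (hF a)
      (continuous_finsetSum _ fun i _ => hF i) h1 h2⟩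

theorem round_close (a b : ℝ) : (((round a - round b : ℤ) : ℝ)) ^ 2 ≤ 2 * (a - b) ^ 2 + 2 := by
  have h1 := abs_le.1 (abs_sub_round a)
  have h2 := abs_le.1 (abs_sub_round b)
  push_cast
  obtain ⟨u, hu⟩ : ∃ u : ℝ, u = (round a : ℝ) - round b - (a - b) := ⟨_, rfl⟩
  have h3 : (round a : ℝ) - round b = (a - b) + u := by rw [hu]; ring
  have h4 : u ^ 2 ≤ 1 := by
    rw [sq_le_one_iff_abs_le_one, abs_le]
    constructor <;> linarith [h1.1, h1.2, h2.1, h2.2]
  rw [h3]
  nlinarith [sq_nonneg (a - b - u)]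

theorem prior_lower {n : ℕ} (A : RandAlg 2 n) (k : ℝ) {C : Type} [Fintype C] [DecidableEq C]
    (W : (Fin 2 → ℤ) → ℝ) (hW : ∀ h, 0 < W h) (hWe : ∀ h, W (-h) = W h) (Z : ℝ)
    (hZ : ∀ s : Finset (Fin 2 → ℤ), ∑ h ∈ s, wt k h / W h ≤ Z) (E : ℝ) (hE : 0 < E)
    (g : C → Tor 2 → ℝ) (hgc : ∀ c, Continuous (g c)) (hgb : ∀ c, Bd W (g c) (E ^ 2))
    (hgi : ∀ c, 1 / 4 ≤ ∫ x, g c x)
    (K : Set A.Ω) (hKm : @MeasurableSet _ A.mΩ K) (hK : 1 / 4 ≤ A.μ K)
    (hv : ∀ ω ∈ K, ∃ c, ∀ i, g c (A.P ω i) = 0) :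
    ENNReal.ofReal (1 / (2560 * E * Real.sqrt (10 * Z))) ≤ errRan A k := by
  classical
  have hZ1 : ∀ h, wt k h ≤ Z * W h := by
    intro h
    have := hZ {h}
    rw [Finset.sum_singleton, div_le_iff₀ (hW h)] at this
    exact this
  have hZ0 : 0 < Z := by
    have h1 := hZ1 0
    rw [wt_zero] at h1
    by_contra h2
    have := mul_nonpos_of_nonpos_of_nonneg (not_lt.1 h2) (hW 0).le
    linarith
  obtain ⟨a, ha⟩ : ∃ a : ℝ, a = 1 / (10 * E) := ⟨_, rfl⟩
  have ha0 : 0 < a := by rw [ha]; positivity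
  obtain ⟨G, hG⟩ : ∃ G : (C → Bool) → Tor 2 → ℝ,
    G = fun γ x => ∑ c, (if γ c then a else 0) * g c x := ⟨_, rfl⟩
  have hGc : ∀ γ, Continuous (G γ) := fun γ => by
    rw [hG]
    exact continuous_finsetSum _ fun c _ => continuous_const.mul (hgc c)
  have hGup : ∀ (γ : C → Bool) (c : C), γ c = false → ∀ x,
      G (Function.update γ c true) x = G γ x + a * g c x := by
    intro γ c hc x
    rw [hG]
    simp only
    rw [← Finset.add_sum_erase _ _ (Finset.mem_univ c), ← Finset.add_sum_erase _ _ (Finset.mem_univ c)]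
    have : ∑ y ∈ Finset.univ.erase c, (if Function.update γ c true y = true then a else 0) * g y x =
        ∑ y ∈ Finset.univ.erase c, (if γ y = true then a else 0) * g y x := by
      refine Finset.sum_congr rfl fun y hy => ?_
      rw [Function.update_of_ne (Finset.ne_of_mem_erase hy)]
    rw [this]
    simp [hc]
    ring
  have hGs : ∀ γ, Summable fun h => ‖fc (G γ) h‖ ^ 2 * wt k h := by
    intro γ
    rw [hG]
    obtain ⟨E', hE'⟩ := bd_finsum (wt_nonneg k) Finset.univ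
      (fun c x => (if γ c then a else 0) * g c x) (fun c => continuous_const.mul (hgc c))
      (fun c => by
        have h1 : Bd (fun h => 0 + Z * W h) (g c) (0 + Z * E ^ 2) :=
          Bd.add_weight (W := fun _ => 0) Z hZ0.le (fun s => by simp) (hgb c)
        exact ⟨_, (h1.mono (fun h => by linarith [hZ1 h]) le_rfl).smul _⟩)
    exact hE'.summable (wt_nonneg k)
  have htail : ∀ γ, ∃ B : Finset (Fin 2 → ℤ), ∀ t, Disjoint t B →
      ∑ h ∈ t, ‖fc (G γ) h‖ ^ 2 * wt k h ≤ Z := by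
    intro γ
    obtain ⟨B, hB⟩ := (summable_iff_vanishing.1 (hGs γ)) (Set.Iio Z) (Iio_mem_nhds hZ0)
    exact ⟨B, fun t ht => (hB t ht).le⟩
  choose B0 hB0 using htail
  obtain ⟨B1, hB1⟩ : ∃ B1 : Finset (Fin 2 → ℤ), B1 = Finset.univ.biUnion B0 := ⟨_, rfl⟩
  obtain ⟨B, hB⟩ : ∃ B : Finset (Fin 2 → ℤ), B = B1 ∪ B1.image (fun h => -h) := ⟨_, rfl⟩
  have hBs : ∀ h, h ∈ B → -h ∈ B := by
    intro h hh
    rw [hB, Finset.mem_union] at hh ⊢
    rcases hh with h1 | h1
    · exact Or.inr (Finset.mem_image_of_mem _ h1)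
    · obtain ⟨y, hy, rfl⟩ := Finset.mem_image.1 h1
      left
      simpa using hy
  have hBt : ∀ γ t, Disjoint t B → ∑ h ∈ t, ‖fc (G γ) h‖ ^ 2 * wt k h ≤ Z := by
    intro γ t ht
    refine hB0 γ t (Finset.disjoint_of_subset_right ?_ ht)
    rw [hB, hB1]
    exact (Finset.subset_biUnion_of_mem B0 (Finset.mem_univ γ)).trans Finset.subset_union_left
  obtain ⟨M, hM⟩ : ∃ M : ℕ, M = 20 * Fintype.card (↥B × Bool) + 1 := ⟨_, rfl⟩
  have hM1 : 1 ≤ M := by omega
  obtain ⟨box, p, hp0, hp1, hps, hpo⟩ := prior_core (↥B × Bool) M hM1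
  obtain ⟨L, hL⟩ : ∃ L : ℝ, L = ((2 * M : ℕ) : ℝ) := ⟨_, rfl⟩
  have hL2 : 2 ≤ L := by
    rw [hL]
    exact_mod_cast (by omega : 2 ≤ 2 * M)
  have hL0 : 0 < L := by linarith
  have hsq : ∀ h, 0 < Real.sqrt (W h) := fun h => Real.sqrt_pos.2 (hW h)
  obtain ⟨y, hy⟩ : ∃ y : (Tor 2 → ℝ) → ↥B × Bool → ℝ, y = fun f j =>
    (if j.2 then (fc f j.1).im else (fc f j.1).re) * Real.sqrt (W j.1) := ⟨_, rfl⟩
  obtain ⟨ρ, hρ⟩ : ∃ ρ : (C → Bool) → ↥B × Bool → ℤ, ρ = fun γ j => round (L * y (G γ) j) :=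
    ⟨_, rfl⟩
  obtain ⟨zz, hzz⟩ : ∃ zz : (↥B × Bool → ℤ) → (Fin 2 → ℤ) → ℂ, zz = fun u h =>
    if hh : h ∈ B then (⟨(u (⟨h, hh⟩, false) : ℝ) / (L * Real.sqrt (W h)),
      (u (⟨h, hh⟩, true) : ℝ) / (L * Real.sqrt (W h))⟩ : ℂ) else 0 := ⟨_, rfl⟩
  obtain ⟨τ, hτ⟩ : ∃ τ : ℝ, τ = 1 / Real.sqrt (10 * Z) := ⟨_, rfl⟩
  have hτ0 : 0 < τ := by rw [hτ]; positivity
  have hτ2 : τ ^ 2 * (10 * Z) = 1 := by
    rw [hτ, div_pow, Real.sq_sqrt (by positivity)]
    field_simp
  obtain ⟨F, hF⟩ : ∃ F : (C → Bool) → (↥B × Bool → ℤ) → Tor 2 → ℝ, F = fun γ l x =>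
    τ * (G γ x + syn B (zz (l - ρ γ)) x) := ⟨_, rfl⟩
  have hFc : ∀ γ l, Continuous (F γ l) := fun γ l => by
    rw [hF]
    exact continuous_const.mul ((hGc γ).add (syn_cont _ _))
  have hco : ∀ γ l, p l ≠ 0 → ∀ h ∈ B,
      ‖fc (G γ) h + zz (l - ρ γ) h‖ ≤ 3 / Real.sqrt (W h) := by
    intro γ l hl h hh
    have key : ∀ (b : Bool) (v : ℝ), y (G γ) (⟨h, hh⟩, b) = v * Real.sqrt (W h) →
        |v + (((l - ρ γ) (⟨h, hh⟩, b) : ℤ) : ℝ) / (L * Real.sqrt (W h))| ≤
          3 / 2 / Real.sqrt (W h) := by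
      intro b v hv
      have h1 := (hps l hl).2 (⟨h, hh⟩, b)
      have h2 : |((l (⟨h, hh⟩, b) : ℤ) : ℝ)| ≤ L := by
        rw [hL]
        exact_mod_cast h1
      have h3 := abs_sub_round (L * y (G γ) (⟨h, hh⟩, b))
      have h4 : v + (((l - ρ γ) (⟨h, hh⟩, b) : ℤ) : ℝ) / (L * Real.sqrt (W h)) =
          ((L * y (G γ) (⟨h, hh⟩, b) - round (L * y (G γ) (⟨h, hh⟩, b))) + l (⟨h, hh⟩, b)) /
            (L * Real.sqrt (W h)) := by
        rw [Pi.sub_apply, hρ]
        simp only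
        push_cast
        have := hsq h
        rw [hv]
        field_simp
        ring
      rw [h4, abs_div, abs_of_pos (mul_pos hL0 (hsq h)), div_le_div_iff₀ (mul_pos hL0 (hsq h)) (hsq h)]
      have h5 := (abs_add_le _ _).trans (add_le_add h3 h2)
      have h6 : |(L * y (G γ) (⟨h, hh⟩, b) - round (L * y (G γ) (⟨h, hh⟩, b))) + l (⟨h, hh⟩, b)| ≤
          3 / 2 * L := by linarith
      have := mul_le_mul_of_nonneg_right h6 (hsq h).le
      linarith
    have k1 := key false (fc (G γ) h).re (by rw [hy]; simp)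
    have k2 := key true (fc (G γ) h).im (by rw [hy]; simp)
    refine (Complex.norm_le_abs_re_add_abs_im _).trans ?_
    rw [Complex.add_re, Complex.add_im, hzz]
    simp only [dif_pos hh]
    have : 3 / Real.sqrt (W h) = 3 / 2 / Real.sqrt (W h) + 3 / 2 / Real.sqrt (W h) := by ring
    rw [this]
    exact add_le_add k1 k2
  have hball : ∀ γ l, p l ≠ 0 → F γ l ∈ ball 2 k := by
    intro γ l hl
    refine Bd.mem_ball (hFc γ l) ?_
    have h1 : Bd (wt k) (fun x => G γ x + syn B (zz (l - ρ γ)) x) (10 * Z) := by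
      intro s
      rw [← Finset.sum_filter_add_sum_filter_not s (fun h => h ∈ B)]
      have a1 : ∑ h ∈ s.filter (fun h => h ∈ B),
          ‖fc (fun x => G γ x + syn B (zz (l - ρ γ)) x) h‖ ^ 2 * wt k h ≤ 9 * Z := by
        refine le_trans (Finset.sum_le_sum (g := fun h => 9 * (wt k h / W h)) fun h hh => ?_) ?_
        · have hh' := (Finset.mem_filter.1 hh).2
          rw [fc_add _ _ (hGc γ) (syn_cont _ _), fc_syn B hBs, if_pos hh']
          have b1 := hco γ l hl h hh'
          have b2 := hco γ l hl (-h) (hBs h hh')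
          rw [hWe] at b2
          have b3 : fc (G γ) h + (zz (l - ρ γ) h + (starRingEnd ℂ) (zz (l - ρ γ) (-h))) / 2 =
              ((fc (G γ) h + zz (l - ρ γ) h) +
                (starRingEnd ℂ) (fc (G γ) (-h) + zz (l - ρ γ) (-h))) / 2 := by
            rw [map_add, fc_neg, Complex.conj_conj]
            ring
          have b4 : ‖fc (G γ) h + (zz (l - ρ γ) h + (starRingEnd ℂ) (zz (l - ρ γ) (-h))) / 2‖ ≤
              3 / Real.sqrt (W h) := by
            rw [b3, norm_div]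
            have b5 := norm_add_le (fc (G γ) h + zz (l - ρ γ) h)
              ((starRingEnd ℂ) (fc (G γ) (-h) + zz (l - ρ γ) (-h)))
            rw [Complex.norm_conj] at b5
            have b6 : ‖(2 : ℂ)‖ = 2 := by simp
            rw [b6]
            linarith
          have b7 := pow_le_pow_left₀ (norm_nonneg _) b4 2
          rw [div_pow, Real.sq_sqrt (hW h).le] at b7
          refine (mul_le_mul_of_nonneg_right b7 (wt_nonneg k h)).trans (le_of_eq ?_)
          ring
        · rw [← Finset.mul_sum]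
          linarith [hZ (s.filter (fun h => h ∈ B))]
      have a2 : ∑ h ∈ s.filter (fun h => ¬ h ∈ B),
          ‖fc (fun x => G γ x + syn B (zz (l - ρ γ)) x) h‖ ^ 2 * wt k h ≤ Z := by
        refine le_trans (le_of_eq (Finset.sum_congr rfl fun h hh => ?_))
          (hBt γ (s.filter (fun h => ¬ h ∈ B)) ?_)
        · have hh' := (Finset.mem_filter.1 hh).2
          rw [fc_add _ _ (hGc γ) (syn_cont _ _), fc_syn B hBs, if_neg hh', add_zero]
        · rw [Finset.disjoint_left]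
          intro h hh
          exact (Finset.mem_filter.1 hh).2
      linarith
    have h2 := h1.smul τ
    rw [hτ2] at h2
    rw [hF]
    exact h2
  have hmain := abstract_lower A k box p hp0 hp1 (fun l hl => (hps l hl).1) F hball K hKm hK
    (τ * a / 4) (by positivity) ?_
  · refine le_trans (le_of_eq ?_) hmain
    congr 1
    rw [hτ, ha]
    field_simp
    norm_num
  intro ω hω
  obtain ⟨c, hc⟩ := hv ω hω
  refine ⟨c, fun γ hγ => ⟨ρ (Function.update γ c true) - ρ γ, hpo _ ?_, fun l => ?_⟩⟩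
  · have hfc : ∀ h, fc (G (Function.update γ c true)) h = fc (G γ) h + (a : ℂ) * fc (g c) h := by
      intro h
      have : G (Function.update γ c true) = fun x => G γ x + a * g c x := funext (hGup γ c hγ)
      rw [this, fc_add (G γ) (fun x => a * g c x) (hGc γ) (continuous_const.mul (hgc c)), fc_smul]
    have hdy : ∀ j, y (G (Function.update γ c true)) j - y (G γ) j = a * y (g c) j := by
      intro j
      rw [hy]
      simp only [hfc]
      split_ifs
      · simp only [Complex.add_im, Complex.mul_im, Complex.ofReal_re, Complex.ofReal_im]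
        ring
      · simp only [Complex.add_re, Complex.mul_re, Complex.ofReal_re, Complex.ofReal_im]
        ring
    have hsum : ∑ j, y (g c) j ^ 2 ≤ E ^ 2 := by
      rw [Fintype.sum_prod_type]
      refine le_trans (le_of_eq ?_) (hgb c B)
      rw [← Finset.sum_coe_sort B]
      refine Finset.sum_congr rfl fun h _ => ?_
      rw [Fintype.sum_bool, hy]
      simp only [if_true, Bool.false_eq_true, if_false]
      rw [mul_pow, mul_pow, Real.sq_sqrt (hW h).le, Complex.sq_norm, Complex.normSq_apply]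
      ring
    have h1 : ∀ j ∈ (Finset.univ : Finset (↥B × Bool)),
        (((ρ (Function.update γ c true) - ρ γ) j : ℤ) : ℝ) ^ 2 ≤
          2 * (L * a) ^ 2 * y (g c) j ^ 2 + 2 := by
      intro j _
      rw [Pi.sub_apply, hρ]
      refine (round_close _ _).trans (le_of_eq ?_)
      rw [← mul_sub, hdy]
      ring
    refine (Finset.sum_le_sum h1).trans ?_
    rw [Finset.sum_add_distrib, ← Finset.mul_sum, Finset.sum_const, nsmul_eq_mul, Finset.card_univ,
      ← hL]
    have h2 : 2 * (L * a) ^ 2 * ∑ j, y (g c) j ^ 2 ≤ L ^ 2 / 50 := by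
      refine (mul_le_mul_of_nonneg_left hsum (by positivity)).trans (le_of_eq ?_)
      rw [ha]
      field_simp
      ring
    have h3 : (20 : ℝ) * Fintype.card (↥B × Bool) + 1 = M := by
      rw [hM]
      push_cast
      ring
    have h4 : L = 2 * M := by rw [hL]; push_cast; ring
    have h5 : (1 : ℝ) ≤ M := by exact_mod_cast hM1
    have h6 : (M : ℝ) ≤ M ^ 2 := by nlinarith
    rw [h4] at h2 ⊢
    nlinarith
  · have hl : l + (ρ (Function.update γ c true) - ρ γ) - ρ (Function.update γ c true) =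
        l - ρ γ := by abel
    have hd : ∀ x, F (Function.update γ c true) (l + (ρ (Function.update γ c true) - ρ γ)) x =
        F γ l x + τ * a * g c x := by
      intro x
      rw [hF]
      simp only
      rw [hl, hGup γ c hγ]
      ring
    refine ⟨fun i => by rw [hd, hc i]; ring, ?_⟩
    simp only [hd]
    have i2 : Integrable (fun x => τ * a * g c x) :=
      integrable_contR (continuous_const.mul (hgc c))
    rw [integral_add (integrable_contR (hFc γ l)) i2, integral_const_mul]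
    have := mul_le_mul_of_nonneg_left (hgi c) (mul_pos hτ0 ha0).le
    linarith

end

end Pool.Agent.H429Z.Ran
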