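import Mathlib
import Pool.Agent.H429Z.Ran.Bd

set_option autoImplicit false

namespace Pool.Agent.H429Z.Ran

open Pool.Agent.Helper150.Iid

noncomputable section

theorem tele_step (η y : ℝ) (hη : 0 < η) (hy : 1 ≤ y) :
    (y + 1) ^ (-(1 + η)) ≤ (y ^ (-η) - (y + 1) ^ (-η)) / η := by
  have hy0 : 0 < y := by linarith
  have hy1 : 0 < y + 1 := by linarith
  rw [le_div_iff₀ hη]
  have h1 : y ^ (-η) = (y + 1) ^ (-η) * ((y + 1) / y) ^ η := by
    rw [Real.div_rpow hy1.le hy0.le, Real.rpow_neg hy0.le, Real.rpow_neg hy1.le]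
    have := Real.rpow_pos_of_pos hy1 η
    field_simp
  have h2 : 1 + η / (y + 1) ≤ ((y + 1) / y) ^ η := by
    rw [Real.rpow_def_of_pos (by positivity)]
    refine le_trans ?_ (Real.add_one_le_exp _)
    have h3 := Real.one_sub_inv_le_log_of_pos (by positivity : 0 < (y + 1) / y)
    have h4 : 1 - ((y + 1) / y)⁻¹ = 1 / (y + 1) := by
      field_simp
      ring
    rw [h4] at h3
    have := mul_le_mul_of_nonneg_right h3 hη.le
    have h5 : η / (y + 1) = 1 / (y + 1) * η := by ring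
    linarith
  have h3 : (y + 1) ^ (-(1 + η)) = (y + 1) ^ (-η) / (y + 1) := by
    rw [← Real.rpow_sub_one hy1.ne']
    congr 1
    ring
  have h4 : 0 ≤ (y + 1) ^ (-η) := Real.rpow_nonneg hy1.le _
  have h5 := mul_le_mul_of_nonneg_left h2 h4
  rw [h1, h3]
  have h6 : (y + 1) ^ (-η) / (y + 1) * η = (y + 1) ^ (-η) * (η / (y + 1)) := by ring
  rw [h6]
  linarith

theorem zeta_le (η : ℝ) (hη : 0 < η) (n : ℕ) :
    ∑ j ∈ Finset.range n, ((j : ℝ) + 1) ^ (-(1 + η)) ≤ 1 + 1 / η := by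
  have key : ∀ n : ℕ, ∑ j ∈ Finset.range (n + 1), ((j : ℝ) + 1) ^ (-(1 + η)) ≤
      1 + (1 - ((n : ℝ) + 1) ^ (-η)) / η := by
    intro n
    induction n with
    | zero => simp
    | succ n ih =>
      rw [Finset.sum_range_succ]
      have h1 := tele_step η ((n : ℝ) + 1) hη (by linarith [(Nat.cast_nonneg n : (0:ℝ) ≤ n)])
      push_cast
      have h2 : (1 - ((n : ℝ) + 1 + 1) ^ (-η)) / η = (1 - ((n : ℝ) + 1) ^ (-η)) / η +
          (((n : ℝ) + 1) ^ (-η) - ((n : ℝ) + 1 + 1) ^ (-η)) / η := by ring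
      rw [h2]
      linarith
  cases n with
  | zero => simp; positivity
  | succ n =>
    refine (key n).trans ?_
    have : 0 ≤ ((n : ℝ) + 1) ^ (-η) := Real.rpow_nonneg (by positivity) _
    have h2 : (1 - ((n : ℝ) + 1) ^ (-η)) / η ≤ 1 / η :=
      div_le_div_of_nonneg_right (by linarith) hη.le
    linarith

theorem zeta_int (η : ℝ) (hη : 0 < η) (t : Finset ℤ) :
    ∑ m ∈ t, (1 + (m : ℝ) ^ 2) ^ (-((1 + η) / 2)) ≤ 3 + 2 / η := by
  classical
  obtain ⟨n, hn⟩ : ∃ n : ℕ, ∀ m ∈ t, |m| ≤ n := by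
    refine ⟨t.sup (fun m => m.natAbs), fun m hm => ?_⟩
    have := Finset.le_sup (f := fun m : ℤ => m.natAbs) hm
    rw [← Int.natCast_natAbs]
    exact_mod_cast this
  obtain ⟨f, hf⟩ : ∃ f : ℤ → ℝ, f = fun m : ℤ => (1 + (m : ℝ) ^ 2) ^ (-((1 + η) / 2)) := ⟨_, rfl⟩
  have hf0 : ∀ m, 0 ≤ f m := fun m => by rw [hf]; exact Real.rpow_nonneg (by positivity) _
  have hsub : t ⊆ insert 0 (((Finset.range n).image (fun j : ℕ => (j : ℤ) + 1)) ∪
      ((Finset.range n).image (fun j : ℕ => -((j : ℤ) + 1)))) := by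
    intro m hm
    have h1 := abs_le.1 (hn m hm)
    simp only [Finset.mem_insert, Finset.mem_union, Finset.mem_image, Finset.mem_range]
    rcases lt_trichotomy m 0 with h | h | h
    · exact Or.inr (Or.inr ⟨(-m - 1).toNat, by omega, by omega⟩)
    · exact Or.inl h
    · exact Or.inr (Or.inl ⟨(m - 1).toNat, by omega, by omega⟩)
  have hb : ∀ (j : ℕ) (m : ℤ), (m : ℝ) ^ 2 = ((j : ℝ) + 1) ^ 2 →
      f m ≤ ((j : ℝ) + 1) ^ (-(1 + η)) := by
    intro j m hm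
    rw [hf]
    simp only
    rw [hm]
    have h1 : ((j : ℝ) + 1) ^ (-(1 + η)) = (((j : ℝ) + 1) ^ 2) ^ (-((1 + η) / 2)) := by
      rw [← Real.rpow_natCast _ 2, ← Real.rpow_mul (by positivity)]
      congr 1
      push_cast
      ring
    rw [h1]
    exact Real.rpow_le_rpow_of_nonpos (by positivity) (by linarith) (by linarith)
  have e0 : ∑ m ∈ t, (1 + (m : ℝ) ^ 2) ^ (-((1 + η) / 2)) = ∑ m ∈ t, f m := by rw [hf]
  rw [e0]
  refine (Finset.sum_le_sum_of_subset_of_nonneg hsub fun m _ _ => hf0 m).trans ?_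
  have a0 : ∀ (a : ℤ) (s : Finset ℤ), ∑ m ∈ insert a s, f m ≤ f a + ∑ m ∈ s, f m := by
    intro a s
    by_cases ha : a ∈ s
    · rw [Finset.insert_eq_of_mem ha]; linarith [hf0 a]
    · rw [Finset.sum_insert ha]
  refine (a0 _ _).trans ?_
  have a1 : f 0 = 1 := by rw [hf]; simp
  have a2 : ∀ s s' : Finset ℤ, ∑ m ∈ s ∪ s', f m ≤ ∑ m ∈ s, f m + ∑ m ∈ s', f m := by
    intro s s'
    rw [← Finset.sum_union_inter]
    linarith [Finset.sum_nonneg (s := s ∩ s') fun m _ => hf0 m]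
  have a3 : ∑ m ∈ (Finset.range n).image (fun j : ℕ => (j : ℤ) + 1), f m ≤ 1 + 1 / η := by
    rw [Finset.sum_image (fun x _ y _ h => by simpa using h)]
    refine le_trans (Finset.sum_le_sum fun j _ => hb j _ (by push_cast; ring)) (zeta_le η hη n)
  have a4 : ∑ m ∈ (Finset.range n).image (fun j : ℕ => -((j : ℤ) + 1)), f m ≤ 1 + 1 / η := by
    rw [Finset.sum_image (fun x _ y _ h => by simpa using h)]
    refine le_trans (Finset.sum_le_sum fun j _ => hb j _ (by push_cast; ring)) (zeta_le η hη n)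
  have a5 := a2 ((Finset.range n).image (fun j : ℕ => (j : ℤ) + 1))
    ((Finset.range n).image (fun j : ℕ => -((j : ℤ) + 1)))
  have a6 : 2 / η = 1 / η + 1 / η := by ring
  linarith

theorem sum_prod_le (a b : ℤ → ℝ) (ha0 : ∀ m, 0 ≤ a m) (hb0 : ∀ m, 0 ≤ b m) (A B : ℝ)
    (hA : ∀ t : Finset ℤ, ∑ m ∈ t, a m ≤ A) (hB : ∀ t : Finset ℤ, ∑ m ∈ t, b m ≤ B)
    (t : Finset (Fin 2 → ℤ)) : ∑ h ∈ t, a (h 0) * b (h 1) ≤ A * B := by
  classical
  have e1 : ∑ h ∈ t, a (h 0) * b (h 1) = ∑ p ∈ t.image (fun h => (h 0, h 1)), a p.1 * b p.2 := by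
    rw [Finset.sum_image]
    intro x _ y _ hxy
    simp only [Prod.mk.injEq] at hxy
    funext j
    fin_cases j
    · exact hxy.1
    · exact hxy.2
  rw [e1]
  have hsub : t.image (fun h => (h 0, h 1)) ⊆
      (t.image (fun h => h 0)) ×ˢ (t.image (fun h => h 1)) := by
    intro p hp
    obtain ⟨h, hh, rfl⟩ := Finset.mem_image.1 hp
    exact Finset.mem_product.2 ⟨Finset.mem_image_of_mem _ hh, Finset.mem_image_of_mem _ hh⟩
  refine (Finset.sum_le_sum_of_subset_of_nonneg hsub fun p _ _ =>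
    mul_nonneg (ha0 _) (hb0 _)).trans ?_
  rw [Finset.sum_product]
  simp only [← Finset.mul_sum]
  rw [← Finset.sum_mul]
  exact mul_le_mul (hA _) (hB _) (Finset.sum_nonneg fun _ _ => hb0 _) (by simpa using hA ∅)

theorem wt_eq (k : ℝ) (h : Fin 2 → ℤ) :
    wt k h = ((1 + (h 0 : ℝ) ^ 2) * (1 + (h 1 : ℝ) ^ 2)) ^ k := by
  rw [wt, Fin.prod_univ_two, Real.mul_rpow (by positivity) (by positivity)]

/-- The trace of the covariance of the prior. -/
theorem zsum (k s η N : ℝ) (hk : 0 ≤ k) (hη : 0 < η) (hs : (1 + η) / 2 ≤ s - k) (hN : 1 ≤ N)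
    (t : Finset (Fin 2 → ℤ)) :
    ∑ h ∈ t, wt k h / (1 + wt s h / N ^ (2 * s)) ≤ N ^ (2 * k + 1 + η) * (3 + 2 / η) ^ 2 := by
  have hN0 : 0 < N := by linarith
  obtain ⟨A, hA⟩ : ∃ A : ℝ, A = N ^ 2 := ⟨_, rfl⟩
  have hA0 : 0 < A := by rw [hA]; positivity
  have hAp : ∀ r : ℝ, A ^ r = N ^ (2 * r) := by
    intro r
    rw [hA, ← Real.rpow_natCast N 2, ← Real.rpow_mul hN0.le]
    norm_num
  have hpt : ∀ h ∈ t, wt k h / (1 + wt s h / N ^ (2 * s)) ≤ N ^ (2 * k + 1 + η) *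
      ((1 + (h 0 : ℝ) ^ 2) ^ (-((1 + η) / 2)) * (1 + (h 1 : ℝ) ^ 2) ^ (-((1 + η) / 2))) := by
    intro h _
    rw [← Real.mul_rpow (by positivity) (by positivity), wt_eq, wt_eq]
    obtain ⟨x, hx⟩ : ∃ x : ℝ, x = (1 + (h 0 : ℝ) ^ 2) * (1 + (h 1 : ℝ) ^ 2) := ⟨_, rfl⟩
    have hx0 : 0 < x := by rw [hx]; positivity
    rw [← hx, ← hAp]
    have e1 : N ^ (2 * k + 1 + η) * x ^ (-((1 + η) / 2)) = A ^ k * (A / x) ^ ((1 + η) / 2) := by
      rw [Real.div_rpow hA0.le hx0.le, Real.rpow_neg hx0.le, ← mul_div_assoc, ← Real.rpow_add hA0,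
        hAp, div_eq_mul_inv]
      congr 2
      ring
    rw [e1]
    have hq : 0 < x ^ s / A ^ s := div_pos (Real.rpow_pos_of_pos hx0 _) (Real.rpow_pos_of_pos hA0 _)
    have hxk : 0 < x ^ k := Real.rpow_pos_of_pos hx0 _
    have hAk : 0 < A ^ k := Real.rpow_pos_of_pos hA0 _
    rcases le_total x A with hxA | hxA
    · have h1 : x ^ k ≤ A ^ k := Real.rpow_le_rpow hx0.le hxA hk
      have h2 : 1 ≤ (A / x) ^ ((1 + η) / 2) :=
        Real.one_le_rpow ((one_le_div hx0).2 hxA) (by positivity)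
      calc x ^ k / (1 + x ^ s / A ^ s) ≤ x ^ k := div_le_self hxk.le (by linarith)
        _ ≤ A ^ k * 1 := by linarith
        _ ≤ _ := mul_le_mul_of_nonneg_left h2 hAk.le
    · have h1 : x ^ k / (x ^ s / A ^ s) = A ^ k * (A / x) ^ (s - k) := by
        rw [Real.div_rpow hA0.le hx0.le, Real.rpow_sub hA0, Real.rpow_sub hx0]
        have := Real.rpow_pos_of_pos hx0 s
        have := Real.rpow_pos_of_pos hA0 s
        field_simp
      calc x ^ k / (1 + x ^ s / A ^ s) ≤ x ^ k / (x ^ s / A ^ s) :=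
            div_le_div_of_nonneg_left hxk.le hq (by linarith)
        _ = A ^ k * (A / x) ^ (s - k) := h1
        _ ≤ _ := mul_le_mul_of_nonneg_left (Real.rpow_le_rpow_of_exponent_ge (by positivity)
            ((div_le_one hx0).2 hxA) hs) hAk.le
  refine (Finset.sum_le_sum hpt).trans ?_
  rw [← Finset.mul_sum]
  refine mul_le_mul_of_nonneg_left ?_ (Real.rpow_nonneg hN0.le _)
  rw [pow_two]
  exact sum_prod_le (fun m => (1 + (m : ℝ) ^ 2) ^ (-((1 + η) / 2)))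
    (fun m => (1 + (m : ℝ) ^ 2) ^ (-((1 + η) / 2)))
    (fun m => Real.rpow_nonneg (by positivity) _) (fun m => Real.rpow_nonneg (by positivity) _)
    _ _ (zeta_int η hη) (zeta_int η hη) t

end

end Pool.Agent.H429Z.Ran
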