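import Mathlib
import Pool.Agent.H429Z.Ran.Fool2
import Pool.Agent.H429Z.Ran.Prior2
import Pool.Agent.H429Z.Ran.Zsum

set_option autoImplicit false

namespace Pool.Agent.H429Z.Ran

open MeasureTheory Filter Topology
open scoped ENNReal
open Pool.Agent.Helper150.Iid

noncomputable section

theorem one_le_wt (s : ℝ) (hs : 0 ≤ s) (h : Fin 2 → ℤ) : 1 ≤ wt s h := by
  rw [wt_eq]
  refine Real.one_le_rpow ?_ hs
  nlinarith [sq_nonneg (h 0 : ℝ), sq_nonneg (h 1 : ℝ),
    mul_nonneg (sq_nonneg (h 0 : ℝ)) (sq_nonneg (h 1 : ℝ))]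

theorem wt_neg (s : ℝ) (h : Fin 2 → ℤ) : wt s (-h) = wt s h := by
  simp [wt]

theorem wt_interp (s N : ℝ) (hs0 : 0 ≤ s) (hs : s ≤ 2) (hN : 1 ≤ N) (h : Fin 2 → ℤ) :
    wt s h / N ^ (2 * s) ≤ 1 + 1 / N ^ (2 * 2 : ℝ) * wt 2 h := by
  have hN0 : 0 < N := by linarith
  obtain ⟨A, hA⟩ : ∃ A : ℝ, A = N ^ 2 := ⟨_, rfl⟩
  have hA0 : 0 < A := by rw [hA]; positivity
  have hAp : ∀ r : ℝ, A ^ r = N ^ (2 * r) := by
    intro r
    rw [hA, ← Real.rpow_natCast N 2, ← Real.rpow_mul hN0.le]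
    norm_num
  rw [wt_eq, wt_eq]
  obtain ⟨x, hx⟩ : ∃ x : ℝ, x = (1 + (h 0 : ℝ) ^ 2) * (1 + (h 1 : ℝ) ^ 2) := ⟨_, rfl⟩
  have hx0 : 0 < x := by rw [hx]; positivity
  rw [← hx, ← hAp, ← hAp, ← Real.div_rpow hx0.le hA0.le, one_div, mul_comm, ← div_eq_mul_inv,
    ← Real.div_rpow hx0.le hA0.le]
  have hq : 0 < x / A := by positivity
  rcases le_total (x / A) 1 with h1 | h1
  · have := Real.rpow_le_one hq.le h1 hs0
    have := Real.rpow_nonneg hq.le (2 : ℝ)
    linarith
  · have := Real.rpow_le_rpow_of_exponent_le h1 hs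
    linarith

theorem lower_of_fool {n : ℕ} (A : RandAlg 2 n) (hA : A.IsIid) (k : ℝ) (hk0 : 0 ≤ k) (hk : k < 1)
    (N E η : ℝ) (hN : 1 ≤ N) (hE : 0 < E) (hη : 0 < η) (hη1 : η ≤ 1 - k) (hF : Foolable n N E) :
    ENNReal.ofReal (1 / (2560 * Real.sqrt (10 * E) *
      Real.sqrt (10 * (N ^ (2 * k + 1 + η) * (3 + 2 / η) ^ 2)))) ≤ errRan A k := by
  classical
  letI := A.mΩ
  haveI := A.prob
  have hN0 : 0 < N := by linarith
  obtain ⟨s, hs⟩ : ∃ s : ℝ, s = k / 2 + 1 := ⟨_, rfl⟩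
  have hs0 : 0 ≤ s := by linarith
  have hs1 : s < 3 / 2 := by linarith
  obtain ⟨W, hW⟩ : ∃ W : (Fin 2 → ℤ) → ℝ, W = fun h => 1 + wt s h / N ^ (2 * s) := ⟨_, rfl⟩
  have hNs : 1 ≤ N ^ (2 * s) := Real.one_le_rpow hN (by linarith)
  have hW0 : ∀ h, 0 < W h := fun h => by
    rw [hW]
    have := wt_nonneg s h
    positivity
  obtain ⟨Bad, hBad, hg⟩ := hF
  have hgood : ∀ w : {w : Fin n → Tor 2 // w ∉ Bad}, ∃ g : Tor 2 → ℝ, Continuous g ∧
      Bd W g (Real.sqrt (10 * E) ^ 2) ∧ 1 / 4 ≤ ∫ x, g x ∧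
      w.1 ∈ interior {v : Fin n → Tor 2 | ∀ j, g (v j) = 0} := by
    rintro ⟨w, hw⟩
    obtain ⟨g, hfl, hz, hi, b0, b2⟩ := hg w hw
    obtain ⟨hgc, hfl'⟩ := hfl s hs0 hs1
    obtain ⟨g', hg'c, hb, hn⟩ := hfl' (min (1 / 16) E) (lt_min (by norm_num) hE)
    have hdc : Continuous (fun x => g x - g' x) := hgc.sub hg'c
    refine ⟨g', hg'c, ?_, ?_, ?_⟩
    · rw [Real.sq_sqrt (by positivity)]
      have c1 : Bd W g (3 * E) := by
        have d1 := (b0.add_weight 1 zero_le_one b0).add_weight (1 / N ^ (2 * 2 : ℝ))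
          (by positivity) b2
        refine d1.mono (fun h => ?_) (le_of_eq ?_)
        · have := wt_interp s N hs0 (by linarith) hN h
          have e0 : wt 0 h = 1 := by simp [wt]
          rw [hW, e0]
          simp only
          linarith
        · have : 0 < N ^ (2 * 2 : ℝ) := Real.rpow_pos_of_pos hN0 _
          field_simp
          ring
      have c2 : Bd W (fun x => g x - g' x) (2 * E) := by
        refine (hb.add_weight 1 zero_le_one hb).mono (fun h => ?_) ?_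
        · have h1 := one_le_wt s hs0 h
          have h2 : wt s h / N ^ (2 * s) ≤ wt s h := div_le_self (by linarith) hNs
          rw [hW]
          simp only
          linarith
        · linarith [min_le_right (1 / 16 : ℝ) E]
      have c3 := Bd.add (f := g) (g := fun x => (-1) * (g x - g' x)) (fun h => (hW0 h).le) hgc
        (continuous_const.mul hdc) c1 (c2.smul (-1))
      have e : (fun x => g x + (-1) * (g x - g' x)) = g' := by
        funext x; ring
      rw [e] at c3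
      exact c3.mono (fun _ => le_rfl) (by linarith)
    · have h1 := hb.integral_sq
      rw [integral_sub (integrable_contR hgc) (integrable_contR hg'c)] at h1
      have h2 : ((∫ x, g x) - ∫ x, g' x) ^ 2 ≤ (1 / 4) ^ 2 := by
        linarith [min_le_left (1 / 16 : ℝ) E]
      have h3 := (abs_le_of_sq_le_sq' h2 (by norm_num)).2
      linarith
    · rw [mem_interior_iff_mem_nhds]
      change ∀ᶠ v in 𝓝 w, ∀ j, g' (v j) = 0
      rw [eventually_all]
      intro j
      have := ((continuous_apply j).tendsto w).eventually (hn j)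
      filter_upwards [this] with v hv
      rw [hv, hz]
  choose g hgc hgb hgi hgn using hgood
  obtain ⟨ν, hν⟩ : ∃ ν : Measure (Fin n → Tor 2), ν = Measure.pi (fun _ => volume) := ⟨_, rfl⟩
  haveI : IsProbabilityMeasure ν := by rw [hν]; infer_instance
  rw [← hν] at hBad
  have hlaw : A.μ.map A.P = ν := by rw [hν]; exact hA
  obtain ⟨O, hO⟩ : ∃ O : Set (Fin n → Tor 2), O = ⋃ w : {w : Fin n → Tor 2 // w ∉ Bad},
    interior {v : Fin n → Tor 2 | ∀ j, g w (v j) = 0} := ⟨_, rfl⟩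
  have hOo : IsOpen O := by rw [hO]; exact isOpen_iUnion fun _ => isOpen_interior
  have hOm : (1 / 4 : ℝ≥0∞) < ν O := by
    have h1 : (Set.univ : Set (Fin n → Tor 2)) ⊆ Bad ∪ O := by
      intro w _
      by_cases hw : w ∈ Bad
      · exact Or.inl hw
      · right
        rw [hO]
        exact Set.mem_iUnion.2 ⟨⟨w, hw⟩, hgn ⟨w, hw⟩⟩
    have h2 := (measure_mono (μ := ν) h1).trans (measure_union_le _ _)
    rw [measure_univ] at h2
    by_contra h3
    rw [not_lt] at h3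
    have h4 := h2.trans (add_le_add hBad h3)
    have h5 : ((1 : ℝ≥0∞) / 2 + 1 / 4).toReal < (1 : ℝ≥0∞).toReal := by
      rw [ENNReal.toReal_add (by simp) (by simp)]
      simp
      norm_num
    have h6 := ENNReal.toReal_mono (by simp) h4
    linarith
  haveI : BorelSpace (Tor 2) := Pi.borelSpace
  haveI : BorelSpace (Fin n → Tor 2) := Pi.borelSpace
  haveI : ν.Regular := Measure.Regular.of_sigmaCompactSpace_of_isLocallyFiniteMeasure ν
  obtain ⟨K0, hK0O, hK0c, hK0m⟩ := hOo.exists_lt_isCompact (μ := ν) hOm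
  rw [hO] at hK0O
  obtain ⟨t, ht⟩ := hK0c.elim_finite_subcover _ (fun _ => isOpen_interior) hK0O
  have hKm : MeasurableSet K0 := hK0c.isClosed.measurableSet
  refine prior_lower A k (C := ↥t) W hW0 (fun h => by rw [hW]; simp only [wt_neg]) _
    (fun u => ?_) _ (Real.sqrt_pos.2 (by positivity)) (fun c => g c.1) (fun c => hgc _)
    (fun c => hgb _) (fun c => hgi _) (A.P ⁻¹' K0) (A.measP hKm) ?_ ?_
  · rw [hW]
    exact zsum k s η N hk0 hη (by linarith) hN u
  · rw [← Measure.map_apply A.measP hKm, hlaw]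
    exact hK0m.le
  · intro ω hω
    have h1 := ht hω
    simp only [Set.mem_iUnion] at h1
    obtain ⟨c, hc, h2⟩ := h1
    exact ⟨⟨c, hc⟩, interior_subset h2⟩

end

end Pool.Agent.H429Z.Ran
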