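import Mathlib

set_option autoImplicit false

namespace Pool.Agent.H429Z.Ran

noncomputable section

open Classical in
/-- Indicator of a proposition. -/
def ind (P : Prop) : ℝ := if P then 1 else 0

/-- The martingale weights. -/
def eps (A : ℕ → Prop) : ℕ → ℝ
  | 0 => 1
  | r + 1 => 2 * ind (A (r + 1)) - ind (A r)

/-- The increments. -/
def dd (c : ℕ → ℝ) : ℕ → ℝ
  | 0 => c 0
  | r + 1 => c (r + 1) - c r

open Classical in
/-- The factor of one digit. -/
def fac (A : ℕ → Prop) (γ : ℕ → ℝ) (r : ℕ) : ℝ :=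
  if A r then (if A (r + 1) then 1 else 2 * γ r - 1) else γ r

theorem fac_prod_one (A : ℕ → Prop) (hA : ∀ r, A (r + 1) → A r) (γ : ℕ → ℝ) (j : ℕ) (hj : A j) :
    ∏ r ∈ Finset.range j, fac A γ r = 1 := by
  induction j with
  | zero => simp
  | succ j ih =>
    rw [Finset.prod_range_succ, ih (hA j hj)]
    simp [fac, hj, hA j hj]

theorem fac_expand (A : ℕ → Prop) (hA : ∀ r, A (r + 1) → A r) (γ c : ℕ → ℝ) (m : ℕ)
    (hc : ∀ r < m, c r = γ r * c (r + 1)) (j : ℕ) (hj : j ≤ m) :
    (∏ r ∈ Finset.range j, fac A γ r) * c j = ∑ r ∈ Finset.range (j + 1), dd c r * eps A r := by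
  induction j with
  | zero => simp [dd, eps]
  | succ j ih =>
    rw [Finset.sum_range_succ, ← ih (by omega), Finset.prod_range_succ]
    have h1 := hc j (by omega)
    by_cases h0 : A j
    · rw [fac_prod_one A hA γ j h0]
      by_cases h2 : A (j + 1)
      · simp only [fac, dd, eps, ind, h0, h2, if_true]
        ring
      · simp only [fac, dd, eps, ind, h0, h2, if_true, if_false]
        rw [h1]
        ring
    · have h2 : ¬ A (j + 1) := fun h => h0 (hA j h)
      simp only [fac, dd, eps, ind, h0, h2, if_false]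
      rw [h1]
      ring

/-- Agreement of the first `j` digits. -/
def Ag {m : ℕ} (u v : Fin m → Fin 2) (j : ℕ) : Prop := ∀ r : Fin m, (r : ℕ) < j → u r = v r

theorem Ag_mono {m : ℕ} (u v : Fin m → Fin 2) (j : ℕ) (h : Ag u v (j + 1)) : Ag u v j :=
  fun r hr => h r (by omega)

/-- Reversal of the digits. -/
def rv {m : ℕ} (u : Fin m → Fin 2) : Fin m → Fin 2 := fun r => u (Fin.rev r)

theorem count_ag {m : ℕ} (u : Fin m → Fin 2) (j l : ℕ) :
    ∑ v : Fin m → Fin 2, ind (Ag u v j) * ind (Ag (rv u) (rv v) l) = 2 ^ (m - j - l) := by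
  classical
  have h1 : ∀ v : Fin m → Fin 2, ind (Ag u v j) * ind (Ag (rv u) (rv v) l) =
      ∏ r : Fin m, (if (r : ℕ) < j ∨ m ≤ r + l then (if v r = u r then (1 : ℝ) else 0) else 1) := by
    intro v
    by_cases h : Ag u v j ∧ Ag (rv u) (rv v) l
    · rw [Finset.prod_eq_one]
      · simp [ind, h.1, h.2]
      · intro r _
        split_ifs with h2 h3
        · rfl
        · exfalso
          apply h3
          rcases h2 with h2 | h2
          · exact (h.1 r h2).symm
          · have := h.2 (Fin.rev r) (by rw [Fin.val_rev]; omega)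
            simpa [rv] using this.symm
        · rfl
    · have h0 : ind (Ag u v j) * ind (Ag (rv u) (rv v) l) = 0 := by
        rw [not_and_or] at h
        rcases h with h | h <;> simp [ind, h]
      rw [h0]
      symm
      rw [not_and_or] at h
      rcases h with h | h
      · unfold Ag at h
        push Not at h
        obtain ⟨r, hr, hne⟩ := h
        exact Finset.prod_eq_zero (Finset.mem_univ r) (by simp [hr, Ne.symm hne])
      · unfold Ag at h
        push Not at h
        obtain ⟨r, hr, hne⟩ := h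
        refine Finset.prod_eq_zero (Finset.mem_univ (Fin.rev r)) ?_
        have h3 : ((Fin.rev r : Fin m) : ℕ) < j ∨ m ≤ (Fin.rev r : Fin m) + l := by
          right; rw [Fin.val_rev]; omega
        rw [if_pos h3, if_neg]
        exact fun h4 => hne h4.symm
  simp only [h1]
  have h2 := Finset.prod_univ_sum (fun _ : Fin m => (Finset.univ : Finset (Fin 2)))
    (fun r b => (if (r : ℕ) < j ∨ m ≤ r + l then (if b = u r then (1 : ℝ) else 0) else 1))
  rw [Fintype.piFinset_univ] at h2
  rw [← h2]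
  have h3 : ∀ r : Fin m, ∑ b : Fin 2, (if (r : ℕ) < j ∨ m ≤ r + l then
      (if b = u r then (1 : ℝ) else 0) else 1) =
      (fun x : ℕ => if j ≤ x ∧ x < m - l then (2 : ℝ) else 1) r := by
    intro r
    by_cases h : (r : ℕ) < j ∨ m ≤ r + l
    · simp only [h, if_true]
      rw [if_neg (by omega)]
      simp
    · simp only [h, if_false]
      rw [if_pos (by omega)]
      simp
  simp only [h3]
  rw [Fin.prod_univ_eq_prod_range (fun x : ℕ => if j ≤ x ∧ x < m - l then (2 : ℝ) else 1) m,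
    Finset.prod_ite, Finset.prod_const_one, mul_one, Finset.prod_const]
  congr 1
  have : (Finset.range m).filter (fun x => j ≤ x ∧ x < m - l) = Finset.Ico j (m - l) := by
    ext x
    simp only [Finset.mem_filter, Finset.mem_range, Finset.mem_Ico]
    omega
  rw [this, Nat.card_Ico]
  omega

theorem ag_zero {m : ℕ} (u v : Fin m → Fin 2) : ind (Ag u v 0) = 1 := by
  have : Ag u v 0 := fun r hr => absurd hr (by omega)
  simp [ind, this]

theorem gain {m : ℕ} (u : Fin m → Fin 2) (j l : ℕ) (hj : j ≤ m) (hl : l ≤ m)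
    (h0 : ¬ (j = 0 ∧ l = 0)) :
    ∑ v : Fin m → Fin 2, eps (Ag u v) j * eps (Ag (rv u) (rv v)) l ≤
      if j + l ≤ m then 0 else 2 := by
  cases j with
  | zero =>
    cases l with
    | zero => exact absurd ⟨rfl, rfl⟩ h0
    | succ l =>
      have e : ∀ v : Fin m → Fin 2, eps (Ag u v) 0 * eps (Ag (rv u) (rv v)) (l + 1) =
          2 * (ind (Ag u v 0) * ind (Ag (rv u) (rv v) (l + 1))) -
            ind (Ag u v 0) * ind (Ag (rv u) (rv v) l) := by
        intro v
        simp only [eps, ag_zero]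
        ring
      simp only [e]
      rw [Finset.sum_sub_distrib, ← Finset.mul_sum, count_ag, count_ag, if_pos (by omega)]
      have : m - 0 - l = (m - 0 - (l + 1)) + 1 := by omega
      rw [this, pow_succ]
      linarith
  | succ j =>
    cases l with
    | zero =>
      have e : ∀ v : Fin m → Fin 2, eps (Ag u v) (j + 1) * eps (Ag (rv u) (rv v)) 0 =
          2 * (ind (Ag u v (j + 1)) * ind (Ag (rv u) (rv v) 0)) -
            ind (Ag u v j) * ind (Ag (rv u) (rv v) 0) := by
        intro v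
        simp only [eps, ag_zero]
        ring
      simp only [e]
      rw [Finset.sum_sub_distrib, ← Finset.mul_sum, count_ag, count_ag, if_pos (by omega)]
      have : m - j - 0 = (m - (j + 1) - 0) + 1 := by omega
      rw [this, pow_succ]
      linarith
    | succ l =>
      have e : ∀ v : Fin m → Fin 2, eps (Ag u v) (j + 1) * eps (Ag (rv u) (rv v)) (l + 1) =
          4 * (ind (Ag u v (j + 1)) * ind (Ag (rv u) (rv v) (l + 1))) -
            2 * (ind (Ag u v (j + 1)) * ind (Ag (rv u) (rv v) l)) -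
            2 * (ind (Ag u v j) * ind (Ag (rv u) (rv v) (l + 1))) +
            ind (Ag u v j) * ind (Ag (rv u) (rv v) l) := by
        intro v
        simp only [eps]
        ring
      simp only [e]
      rw [Finset.sum_add_distrib, Finset.sum_sub_distrib, Finset.sum_sub_distrib, ← Finset.mul_sum,
        ← Finset.mul_sum, ← Finset.mul_sum, count_ag, count_ag, count_ag, count_ag]
      split_ifs with h
      · have e1 : m - (j + 1) - l = (m - (j + 1) - (l + 1)) + 1 := by omega
        have e2 : m - j - (l + 1) = (m - (j + 1) - (l + 1)) + 1 := by omega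
        have e3 : m - j - l = (m - (j + 1) - (l + 1)) + 2 := by omega
        rw [e1, e2, e3]
        ring_nf
        exact le_rfl
      · have e0 : m - (j + 1) - (l + 1) = 0 := by omega
        have e1 : m - (j + 1) - l = 0 := by omega
        have e2 : m - j - (l + 1) = 0 := by omega
        have e3 : m - j - l ≤ 1 := by omega
        rw [e0, e1, e2]
        have : (2 : ℝ) ^ (m - j - l) ≤ 2 ^ 1 := pow_le_pow_right₀ (by norm_num) e3
        linarith

theorem dd_sum (c : ℕ → ℝ) (m : ℕ) : ∑ j ∈ Finset.range (m + 1), dd c j = c m := by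
  induction m with
  | zero => simp [dd]
  | succ m ih => rw [Finset.sum_range_succ, ih]; simp [dd]

theorem weighted_sum (k : ℝ) (hk0 : 0 ≤ k) (hk : k < 1) (d : ℕ → ℝ) (x : ℝ) (hx : 1 ≤ x) (m : ℕ)
    (hd0 : ∀ j ≤ m, 0 ≤ d j) (hd1 : ∑ j ∈ Finset.range (m + 1), d j ≤ 1)
    (hd2 : ∀ j, 1 ≤ j → j ≤ m → d j ≤ 10 * x / 4 ^ j) :
    ∑ j ∈ Finset.range (m + 1), ((4 : ℝ) ^ k) ^ j * d j ≤
      (1 + 10 / (1 - (4 : ℝ) ^ k / 4)) * x ^ k := by
  obtain ⟨J, hJ1, hJ2⟩ := exists_nat_pow_near hx (by norm_num : (1 : ℝ) < 4)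
  obtain ⟨ρ, hρ⟩ : ∃ ρ : ℝ, ρ = (4 : ℝ) ^ k := ⟨_, rfl⟩
  have hρ1 : 1 ≤ ρ := by rw [hρ]; exact Real.one_le_rpow (by norm_num) hk0
  have hρ4 : ρ < 4 := by
    rw [hρ]
    calc (4 : ℝ) ^ k < 4 ^ (1 : ℝ) := Real.rpow_lt_rpow_of_exponent_lt (by norm_num) hk
      _ = 4 := by simp
  have hρp : ∀ j : ℕ, ρ ^ j = ((4 : ℝ) ^ j) ^ k := by
    intro j
    rw [hρ, ← Real.rpow_natCast, ← Real.rpow_mul (by norm_num), ← Real.rpow_natCast,
      ← Real.rpow_mul (by norm_num), mul_comm]
  rw [← hρ]
  have hx0 : 0 < x := by linarith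
  have hxk : 0 ≤ x ^ k := Real.rpow_nonneg hx0.le _
  rw [← Finset.sum_filter_add_sum_filter_not _ (fun j => j ≤ J)]
  have a1 : ∑ j ∈ (Finset.range (m + 1)).filter (fun j => j ≤ J), ρ ^ j * d j ≤ x ^ k := by
    have h1 : ∀ j ∈ (Finset.range (m + 1)).filter (fun j => j ≤ J), ρ ^ j * d j ≤ x ^ k * d j := by
      intro j hj
      rw [Finset.mem_filter, Finset.mem_range] at hj
      refine mul_le_mul_of_nonneg_right ?_ (hd0 j (by omega))
      rw [hρp]
      refine Real.rpow_le_rpow (by positivity) (le_trans ?_ hJ1) hk0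
      exact pow_le_pow_right₀ (by norm_num) hj.2
    refine (Finset.sum_le_sum h1).trans ?_
    rw [← Finset.mul_sum]
    have h2 : ∑ j ∈ (Finset.range (m + 1)).filter (fun j => j ≤ J), d j ≤ 1 :=
      le_trans (Finset.sum_le_sum_of_subset_of_nonneg (Finset.filter_subset _ _)
        fun j hj _ => hd0 j (by rw [Finset.mem_range] at hj; omega)) hd1
    nlinarith
  have a2 : ∑ j ∈ (Finset.range (m + 1)).filter (fun j => ¬ j ≤ J), ρ ^ j * d j ≤
      10 / (1 - ρ / 4) * x ^ k := by
    have h0 : (Finset.range (m + 1)).filter (fun j => ¬ j ≤ J) = Finset.Ico (J + 1) (m + 1) := by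
      ext j
      simp only [Finset.mem_filter, Finset.mem_range, Finset.mem_Ico]
      omega
    rw [h0]
    have h1 : ∀ j ∈ Finset.Ico (J + 1) (m + 1), ρ ^ j * d j ≤ 10 * x * (ρ / 4) ^ j := by
      intro j hj
      rw [Finset.mem_Ico] at hj
      refine (mul_le_mul_of_nonneg_left (hd2 j (by omega) (by omega)) (by positivity)).trans
        (le_of_eq ?_)
      rw [div_pow]
      ring
    refine (Finset.sum_le_sum h1).trans ?_
    rw [← Finset.mul_sum]
    have h2 := geom_sum_Ico_le_of_lt_one (x := ρ / 4) (m := J + 1) (n := m + 1) (by positivity)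
      (by linarith)
    refine (mul_le_mul_of_nonneg_left h2 (by positivity)).trans ?_
    have h3 : x * (ρ / 4) ^ (J + 1) ≤ x ^ k := by
      have h4 : (ρ / 4) ^ (J + 1) = ((4 : ℝ) ^ (J + 1)) ^ (k - 1) := by
        rw [div_pow, hρp, Real.rpow_sub_one (by positivity)]
      rw [h4]
      have h5 : ((4 : ℝ) ^ (J + 1)) ^ (k - 1) ≤ x ^ (k - 1) :=
        Real.rpow_le_rpow_of_nonpos hx0 hJ2.le (by linarith)
      calc x * ((4 : ℝ) ^ (J + 1)) ^ (k - 1) ≤ x * x ^ (k - 1) :=
            mul_le_mul_of_nonneg_left h5 hx0.le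
        _ = x ^ k := by
            rw [Real.rpow_sub_one hx0.ne']
            field_simp
    have h6 : 0 < 1 - ρ / 4 := by linarith
    calc 10 * x * ((ρ / 4) ^ (J + 1) / (1 - ρ / 4)) = 10 / (1 - ρ / 4) * (x * (ρ / 4) ^ (J + 1)) := by
          ring
      _ ≤ _ := mul_le_mul_of_nonneg_left h3 (by positivity)
  linarith

/-- The double sum. -/
theorem double_sum {m : ℕ} (u : Fin m → Fin 2) (d d' : ℕ → ℝ) (ρ : ℝ) (hρ : 1 ≤ ρ)
    (hd : ∀ j ≤ m, 0 ≤ d j) (hd' : ∀ j ≤ m, 0 ≤ d' j) (h0 : d 0 * d' 0 = 0) :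
    ∑ v : Fin m → Fin 2, (∑ j ∈ Finset.range (m + 1), d j * eps (Ag u v) j) *
      (∑ l ∈ Finset.range (m + 1), d' l * eps (Ag (rv u) (rv v)) l) ≤
      2 / ρ ^ m * ((∑ j ∈ Finset.range (m + 1), ρ ^ j * d j) *
        (∑ l ∈ Finset.range (m + 1), ρ ^ l * d' l)) := by
  simp only [Finset.sum_mul_sum]
  rw [Finset.sum_comm, Finset.mul_sum]
  refine Finset.sum_le_sum fun j hj => ?_
  rw [Finset.sum_comm, Finset.mul_sum]
  refine Finset.sum_le_sum fun l hl => ?_
  rw [Finset.mem_range] at hj hl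
  have e : ∀ v : Fin m → Fin 2, d j * eps (Ag u v) j * (d' l * eps (Ag (rv u) (rv v)) l) =
      (d j * d' l) * (eps (Ag u v) j * eps (Ag (rv u) (rv v)) l) := fun v => by ring
  simp only [e]
  rw [← Finset.mul_sum]
  have hp : 0 ≤ d j * d' l := mul_nonneg (hd j (by omega)) (hd' l (by omega))
  have hρ0 : 0 < ρ := by linarith
  have hr : 0 ≤ 2 / ρ ^ m * (ρ ^ j * d j * (ρ ^ l * d' l)) := by
    have : ρ ^ j * d j * (ρ ^ l * d' l) = ρ ^ j * ρ ^ l * (d j * d' l) := by ring
    rw [this]
    positivity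
  by_cases hjl : j = 0 ∧ l = 0
  · obtain ⟨rfl, rfl⟩ := hjl
    rw [h0, zero_mul]
    exact hr
  · refine (mul_le_mul_of_nonneg_left (gain u j l (by omega) (by omega) hjl) hp).trans ?_
    split_ifs with h
    · rw [mul_zero]; exact hr
    · have h1 : ρ ^ m ≤ ρ ^ (j + l) := pow_le_pow_right₀ hρ (by omega)
      have h2 : 2 / ρ ^ m * (ρ ^ j * d j * (ρ ^ l * d' l)) =
          (d j * d' l) * 2 * (ρ ^ (j + l) / ρ ^ m) := by
        rw [pow_add]; ring
      rw [h2]
      have h3 : 1 ≤ ρ ^ (j + l) / ρ ^ m := (one_le_div (by positivity)).2 h1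
      nlinarith

end

end Pool.Agent.H429Z.Ran
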