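import Mathlib
import Pool.Agent.Helper150.Iid.Asm1
import Pool.Agent.H429Z.Ran.Net1
import Pool.Agent.H429Z.Ran.Prior1

set_option autoImplicit false

namespace Pool.Agent.H429Z.Ran

open MeasureTheory
open Pool.Agent.Helper150.Iid

noncomputable section

/-- The exponential `exp (2 π i x)`. -/
def ee (x : ℝ) : ℂ := Complex.exp (2 * Real.pi * Complex.I * x)

theorem ee_add (x y : ℝ) : ee (x + y) = ee x * ee y := by
  unfold ee
  rw [← Complex.exp_add]
  congr 1
  push_cast
  ring

theorem ee_zero : ee 0 = 1 := by simp [ee]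

theorem ee_eq (x : ℝ) : ee x = Real.cos (2 * Real.pi * x) + Real.sin (2 * Real.pi * x) * Complex.I := by
  unfold ee
  have : (2 * Real.pi * Complex.I * x : ℂ) = ((2 * Real.pi * x : ℝ) : ℂ) * Complex.I := by
    push_cast; ring
  rw [this, Complex.exp_mul_I, Complex.ofReal_cos, Complex.ofReal_sin]

theorem ee_conj (x : ℝ) : (starRingEnd ℂ) (ee x) = ee (-x) := by
  rw [ee_eq, ee_eq, mul_neg, Real.cos_neg, Real.sin_neg]
  simp only [map_add, map_mul, Complex.conj_ofReal, Complex.conj_I]
  push_cast
  ring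

theorem ee_norm (x : ℝ) : ‖ee x‖ = 1 := by
  unfold ee
  have : (2 * Real.pi * Complex.I * x : ℂ) = ((2 * Real.pi * x : ℝ) : ℂ) * Complex.I := by
    push_cast; ring
  rw [this, Complex.norm_exp_ofReal_mul_I]

theorem ee_cont : Continuous ee := by
  unfold ee
  fun_prop

theorem ee_sum {ι : Type} (s : Finset ι) (x : ι → ℝ) : ee (∑ i ∈ s, x i) = ∏ i ∈ s, ee (x i) := by
  classical
  induction s using Finset.induction_on with
  | empty => simp [ee_zero]
  | insert a s ha ih => rw [Finset.sum_insert ha, Finset.prod_insert ha, ee_add, ih]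

theorem ee_add_neg (x : ℝ) : ee x + ee (-x) = 2 * (Real.cos (2 * Real.pi * x) : ℂ) := by
  rw [ee_eq, ee_eq, mul_neg, Real.cos_neg, Real.sin_neg]
  push_cast
  ring

theorem fourier_ee (h : ℤ) (y : ℝ) : fourier h (y : UnitAddCircle) = ee (h * y) := by
  rw [fourier_coe_apply]
  unfold ee
  congr 1
  push_cast
  ring

theorem measurable_rep : Measurable rep :=
  measurable_subtype_coe.comp (AddCircle.measurableEquivIco (1 : ℝ) 0).measurable

/-- A fair bit. -/
def bit (t : UnitAddCircle) : Fin 2 := dig 2 (by norm_num) 0 t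

theorem measurable_bit : Measurable bit := measurable_dig (Q := 2) (by norm_num) 0

theorem int_bit (φ : Fin 2 → ℂ) : ∫ t : UnitAddCircle, φ (bit t) = (φ 0 + φ 1) / 2 := by
  have h1 : ∀ e : Fin 2, ((volume : Measure UnitAddCircle).map bit).real {e} = 1 / 2 := by
    intro e
    rw [measureReal_def, Measure.map_apply measurable_bit (measurableSet_singleton e)]
    have h2 := dig_law (Q := 2) (by norm_num) 1 (fun _ => e)
    have h3 : bit ⁻¹' {e} = {t | ∀ l : Fin 1, dig 2 (by norm_num) l t = (fun _ => e) l} := by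
      ext t
      simp [bit]
    rw [h3, h2, ENNReal.toReal_ofReal (by positivity)]
    norm_num
  rw [← integral_map measurable_bit.aemeasurable (Measurable.of_discrete (f := φ)).aestronglyMeasurable,
    integral_fintype Integrable.of_finite, Fin.sum_univ_two, h1, h1]
  simp only [Complex.real_smul]
  push_cast
  ring

/-- Indices of the random variables. -/
abbrev JJ (m : ℕ) : Type := (Fin m × (Fin m → Fin 2)) ⊕ (Fin m → Fin 2)

/-- The digits before position `r`. -/
def pre {m : ℕ} (r : Fin m) (u : Fin m → Fin 2) : Fin m → Fin 2 :=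
  fun r' => if r' < r then u r' else 0

theorem pre_eq {m : ℕ} (r : Fin m) (u v : Fin m → Fin 2) : pre r u = pre r v ↔ Ag u v r := by
  constructor
  · intro h r' hr'
    have := congrFun h r'
    have h2 : r' < r := hr'
    simpa [pre, h2] using this
  · intro h
    funext r'
    unfold pre
    split_ifs with h2
    · exact h r' h2
    · rfl

theorem ag_succ {m : ℕ} (r : Fin m) (u v : Fin m → Fin 2) (h : Ag u v r) :
    Ag u v (r + 1) ↔ u r = v r := by
  constructor
  · intro h2
    exact h2 r (by omega)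
  · intro h2 r' hr'
    by_cases h3 : r' = r
    · rw [h3, h2]
    · refine h r' ?_
      have : (r' : ℕ) ≠ r := fun h4 => h3 (Fin.ext h4)
      omega

/-- Contribution of one random variable to the position. -/
def aa {m : ℕ} (u i : Fin m → Fin 2) : JJ m → UnitAddCircle → ℝ
  | Sum.inl p, t => if p.2 = pre p.1 u then
      (((u p.1 + bit t : Fin 2) : ℕ) : ℝ) / 2 ^ ((p.1 : ℕ) + 1) else 0
  | Sum.inr i', t => if i' = i then rep t / 2 ^ m else 0

theorem aa_meas {m : ℕ} (u i : Fin m → Fin 2) (j : JJ m) : Measurable (aa u i j) := by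
  cases j with
  | inl p =>
    by_cases h : p.2 = pre p.1 u
    · have : aa u i (Sum.inl p) = (fun b : Fin 2 =>
          (((u p.1 + b : Fin 2) : ℕ) : ℝ) / 2 ^ ((p.1 : ℕ) + 1)) ∘ bit := by
        funext t
        simp [aa, h]
      rw [this]
      exact Measurable.of_discrete.comp measurable_bit
    · have : aa u i (Sum.inl p) = fun _ => 0 := by
        funext t
        simp [aa, h]
      rw [this]
      exact measurable_const
  | inr i' =>
    by_cases h : i' = i
    · have : aa u i (Sum.inr i') = fun t => rep t / 2 ^ m := by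
        funext t
        simp [aa, h]
      rw [this]
      exact measurable_rep.div_const _
    · have : aa u i (Sum.inr i') = fun _ => 0 := by
        funext t
        simp [aa, h]
      rw [this]
      exact measurable_const

/-- The scrambled position. -/
def yy {m : ℕ} (u i : Fin m → Fin 2) (ξ : JJ m → UnitAddCircle) : ℝ := ∑ j, aa u i j (ξ j)

theorem yy_meas {m : ℕ} (u i : Fin m → Fin 2) : Measurable (yy u i) :=
  Finset.measurable_sum _ fun j _ => (aa_meas u i j).comp (measurable_pi_apply j)

/-- The factor of two independent digits. -/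
def gam (h : ℤ) (r : ℕ) : ℝ := (1 + Real.cos (2 * Real.pi * (h / 2 ^ (r + 1)))) / 2

/-- Characteristic function of the jitter. -/
def phi (h : ℤ) (m : ℕ) : ℂ := ∫ t : UnitAddCircle, ee (h * (rep t / 2 ^ m))

/-- Its squared modulus. -/
def cm (h : ℤ) (m : ℕ) : ℝ := ‖phi h m‖ ^ 2

instance circle_prob : IsProbabilityMeasure (volume : Measure UnitAddCircle) := by
  rw [vol_circle]
  infer_instance

theorem int_one : ∫ _ : UnitAddCircle, (1 : ℂ) = 1 := by simp

theorem node_fac {m : ℕ} (h : ℤ) (u v i i' : Fin m → Fin 2) (r : Fin m) :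
    ∏ q : Fin m → Fin 2, ∫ t : UnitAddCircle,
      ee (h * aa u i (Sum.inl (r, q)) t - h * aa v i' (Sum.inl (r, q)) t) =
      ((fac (Ag u v) (gam h) r : ℝ) : ℂ) := by
  have hθ := ee_add_neg (h / 2 ^ ((r : ℕ) + 1))
  by_cases hp : pre r u = pre r v
  · have hA : Ag u v r := (pre_eq r u v).1 hp
    rw [Fintype.prod_eq_single (pre r u)]
    · simp only [aa, hp, if_true]
      rw [int_bit (fun b => ee (h * ((((u r + b : Fin 2) : ℕ) : ℝ) / 2 ^ ((r : ℕ) + 1)) -
        h * ((((v r + b : Fin 2) : ℕ) : ℝ) / 2 ^ ((r : ℕ) + 1))))]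
      unfold fac
      rw [if_pos hA]
      by_cases huv : u r = v r
      · rw [if_pos ((ag_succ r u v hA).2 huv), huv]
        simp [ee_zero]
      · rw [if_neg (fun h2 => huv ((ag_succ r u v hA).1 h2))]
        have e : ((2 * gam h r - 1 : ℝ) : ℂ) =
            (ee (h / 2 ^ ((r : ℕ) + 1)) + ee (-(h / 2 ^ ((r : ℕ) + 1)))) / 2 := by
          rw [hθ]
          unfold gam
          push_cast
          ring
        rw [e]
        have hu : u r = 0 ∨ u r = 1 := by omega
        have hv : v r = 0 ∨ v r = 1 := by omega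
        rcases hu with hu | hu <;> rcases hv with hv | hv
        · exact absurd (hu.trans hv.symm) huv
        · rw [hu, hv, add_comm (ee (h / 2 ^ ((r : ℕ) + 1)))]
          congr 2
          · congr 1
            simp
            ring
          · congr 1
            have : ((1 : Fin 2) + 1) = 0 := rfl
            rw [this]
            simp
            ring
        · rw [hu, hv]
          congr 2
          · congr 1
            simp
            ring
          · congr 1
            have : ((1 : Fin 2) + 1) = 0 := rfl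
            rw [this]
            simp
            ring
        · exact absurd (hu.trans hv.symm) huv
    · intro q hq
      have hq' : q ≠ pre r v := by rw [← hp]; exact hq
      simp only [aa, hq, hq', if_false, mul_zero, sub_zero, ee_zero]
      exact int_one
  · have hA : ¬ Ag u v r := fun h2 => hp ((pre_eq r u v).2 h2)
    rw [Fintype.prod_eq_mul (pre r u) (pre r v) hp]
    · simp only [aa, hp, Ne.symm hp, if_true, if_false, mul_zero, sub_zero, zero_sub]
      rw [int_bit (fun b => ee (h * ((((u r + b : Fin 2) : ℕ) : ℝ) / 2 ^ ((r : ℕ) + 1)))),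
        int_bit (fun b => ee (-(h * ((((v r + b : Fin 2) : ℕ) : ℝ) / 2 ^ ((r : ℕ) + 1)))))]
      unfold fac
      rw [if_neg hA]
      have e1 : ∀ w : Fin 2, ee (h * ((((w + 0 : Fin 2) : ℕ) : ℝ) / 2 ^ ((r : ℕ) + 1))) +
          ee (h * ((((w + 1 : Fin 2) : ℕ) : ℝ) / 2 ^ ((r : ℕ) + 1))) =
          1 + ee (h / 2 ^ ((r : ℕ) + 1)) := by
        intro w
        have hw : w = 0 ∨ w = 1 := by omega
        rcases hw with hw | hw
        · rw [hw]
          simp [ee_zero, div_eq_mul_inv]
        · rw [hw]
          have : ((1 : Fin 2) + 1) = 0 := rfl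
          rw [this, add_comm]
          simp [ee_zero, div_eq_mul_inv]
      have e2 : ∀ w : Fin 2, ee (-(h * ((((w + 0 : Fin 2) : ℕ) : ℝ) / 2 ^ ((r : ℕ) + 1)))) +
          ee (-(h * ((((w + 1 : Fin 2) : ℕ) : ℝ) / 2 ^ ((r : ℕ) + 1)))) =
          1 + ee (-(h / 2 ^ ((r : ℕ) + 1))) := by
        intro w
        have := congrArg (starRingEnd ℂ) (e1 w)
        rw [map_add, map_add, ee_conj, ee_conj, ee_conj, map_one] at this
        exact this
      rw [e1, e2]
      have e3 : ee (h / 2 ^ ((r : ℕ) + 1)) * ee (-(h / 2 ^ ((r : ℕ) + 1))) = 1 := by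
        rw [← ee_add, add_neg_cancel, ee_zero]
      unfold gam
      push_cast
      have e4 : (Complex.cos (2 * Real.pi * (h / 2 ^ ((r : ℕ) + 1)))) =
          (ee (h / 2 ^ ((r : ℕ) + 1)) + ee (-(h / 2 ^ ((r : ℕ) + 1)))) / 2 := by
        rw [hθ]
        push_cast
        ring
      rw [e4]
      linear_combination (1 / 4 : ℂ) * e3
    · rintro q ⟨hq, hq'⟩
      simp only [aa, hq, hq', if_false, mul_zero, sub_zero, ee_zero]
      exact int_one

theorem jit_fac {m : ℕ} (h : ℤ) (u v i i' : Fin m → Fin 2) (hi : i ≠ i') :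
    ∏ q : Fin m → Fin 2, ∫ t : UnitAddCircle,
      ee (h * aa u i (Sum.inr q) t - h * aa v i' (Sum.inr q) t) = ((cm h m : ℝ) : ℂ) := by
  rw [Fintype.prod_eq_mul i i' hi]
  · simp only [aa, hi, Ne.symm hi, if_true, if_false, mul_zero, sub_zero, zero_sub]
    simp only [← ee_conj]
    rw [integral_conj]
    unfold cm phi
    rw [Complex.mul_conj, Complex.normSq_eq_norm_sq]
  · rintro q ⟨hq, hq'⟩
    simp only [aa, hq, hq', if_false, mul_zero, sub_zero, ee_zero]
    exact int_one

theorem pair_exp {m : ℕ} (h : ℤ) (u v i i' : Fin m → Fin 2) (hi : i ≠ i') :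
    ∫ ξ : JJ m → UnitAddCircle, ee (h * yy u i ξ - h * yy v i' ξ) =
      (((∏ r ∈ Finset.range m, fac (Ag u v) (gam h) r) * cm h m : ℝ) : ℂ) := by
  have e : ∀ ξ : JJ m → UnitAddCircle, ee (h * yy u i ξ - h * yy v i' ξ) =
      ∏ j, ee (h * aa u i j (ξ j) - h * aa v i' j (ξ j)) := by
    intro ξ
    rw [← ee_sum]
    unfold yy
    rw [Finset.mul_sum, Finset.mul_sum, ← Finset.sum_sub_distrib]
  simp only [e]
  rw [integral_fintype_prod_volume_eq_prod
    (fun (j : JJ m) (t : UnitAddCircle) => ee (h * aa u i j t - h * aa v i' j t)),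
    Fintype.prod_sum_type, Fintype.prod_prod_type, jit_fac h u v i i' hi]
  simp only [node_fac]
  push_cast
  rw [Fin.prod_univ_eq_prod_range (fun r => ((fac (Ag u v) (gam h) r : ℝ) : ℂ)) m]

end

end Pool.Agent.H429Z.Ran
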