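import Mathlib
import Pool.Agent.H429Z.Ran.Net2
import Pool.Agent.H429Z.Ran.Zsum

set_option autoImplicit false

namespace Pool.Agent.H429Z.Ran

open MeasureTheory
open Pool.Agent.Helper150.Iid

noncomputable section

theorem gam_nonneg (h : ℤ) (r : ℕ) : 0 ≤ gam h r := by
  unfold gam
  have := Real.neg_one_le_cos (2 * Real.pi * (h / 2 ^ (r + 1)))
  linarith

theorem gam_le_one (h : ℤ) (r : ℕ) : gam h r ≤ 1 := by
  unfold gam
  have := Real.cos_le_one (2 * Real.pi * (h / 2 ^ (r + 1)))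
  linarith

theorem pi_sq_le : Real.pi ^ 2 ≤ 10 := by
  have := Real.pi_lt_d2
  have := Real.pi_pos
  nlinarith

theorem one_sub_gam (h : ℤ) (r : ℕ) : 1 - gam h r ≤ 10 * (1 + (h : ℝ) ^ 2) / 4 ^ (r + 1) := by
  unfold gam
  have h1 := Real.one_sub_sq_div_two_le_cos (x := 2 * Real.pi * (h / 2 ^ (r + 1)))
  have h2 : (2 * Real.pi * (h / 2 ^ (r + 1))) ^ 2 = 4 * (Real.pi ^ 2 * (h : ℝ) ^ 2 / 4 ^ (r + 1)) := by
    have : (4 : ℝ) ^ (r + 1) = (2 ^ (r + 1)) ^ 2 := by
      rw [← pow_mul, mul_comm, pow_mul]; norm_num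
    rw [this]
    field_simp
    ring
  have h3 : Real.pi ^ 2 * (h : ℝ) ^ 2 / 4 ^ (r + 1) ≤ 10 * (1 + (h : ℝ) ^ 2) / 4 ^ (r + 1) := by
    refine div_le_div_of_nonneg_right ?_ (by positivity)
    nlinarith [pi_sq_le, sq_nonneg (h : ℝ)]
  linarith

theorem phi_norm (h : ℤ) (m : ℕ) : ‖phi h m‖ ≤ 1 := by
  unfold phi
  have := norm_integral_le_of_norm_le_const (μ := (volume : Measure UnitAddCircle))
    (f := fun t => ee (h * (rep t / 2 ^ m))) (C := 1)
    (Filter.Eventually.of_forall fun t => (ee_norm _).le)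
  simpa using this

theorem cm_nonneg (h : ℤ) (m : ℕ) : 0 ≤ cm h m := sq_nonneg _

theorem cm_le_one (h : ℤ) (m : ℕ) : cm h m ≤ 1 := pow_le_one₀ (norm_nonneg _) (phi_norm h m)

theorem one_sub_cm (k : ℝ) (hk0 : 0 ≤ k) (hk : k ≤ 1) (h : ℤ) (m : ℕ) :
    1 - cm h m ≤ 40 * ((1 + (h : ℝ) ^ 2) ^ k / ((4 : ℝ) ^ k) ^ m) := by
  have hmeas : Measurable (fun t : UnitAddCircle => ee (h * (rep t / 2 ^ m))) :=
    ee_cont.measurable.comp ((measurable_rep.div_const _).const_mul _)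
  have hint : Integrable (fun t : UnitAddCircle => ee (h * (rep t / 2 ^ m))) :=
    Integrable.of_bound hmeas.aestronglyMeasurable 1
      (Filter.Eventually.of_forall fun t => (ee_norm _).le)
  have h1 : 1 - 20 * ((h : ℝ) ^ 2 / 4 ^ m) ≤ (phi h m).re := by
    unfold phi
    have := integral_re (𝕜 := ℂ) hint
    simp only [RCLike.re_to_complex] at this
    rw [← this]
    have h2 : ∫ _ : UnitAddCircle, (1 - 20 * ((h : ℝ) ^ 2 / 4 ^ m)) =
        1 - 20 * ((h : ℝ) ^ 2 / 4 ^ m) := by simp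
    rw [← h2]
    refine integral_mono (integrable_const _) hint.re fun t => ?_
    simp only
    rw [ee_eq]
    simp only [Complex.add_re, Complex.ofReal_re, Complex.mul_re, Complex.I_re, mul_zero,
      Complex.ofReal_im, Complex.I_im, mul_one, sub_self, add_zero]
    refine le_trans ?_ Real.one_sub_sq_div_two_le_cos
    have h3 : (2 * Real.pi * (h * (rep t / 2 ^ m))) ^ 2 =
        4 * (Real.pi ^ 2 * rep t ^ 2) * ((h : ℝ) ^ 2 / 4 ^ m) := by
      have : (4 : ℝ) ^ m = (2 ^ m) ^ 2 := by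
        rw [← pow_mul, mul_comm, pow_mul]; norm_num
      rw [this]
      field_simp
      ring
    rw [h3]
    have h4 : rep t ^ 2 ≤ 1 := pow_le_one₀ (rep_mem t).1 (rep_mem t).2.le
    have h5 : Real.pi ^ 2 * rep t ^ 2 ≤ 10 := by
      nlinarith [pi_sq_le, sq_nonneg (rep t), sq_nonneg Real.pi]
    have h6 : 0 ≤ (h : ℝ) ^ 2 / 4 ^ m := by positivity
    nlinarith
  have h2 : (phi h m).re ^ 2 ≤ cm h m := by
    unfold cm
    rw [← sq_abs]
    exact pow_le_pow_left₀ (abs_nonneg _) (Complex.abs_re_le_norm _) 2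
  have h3 : 1 - cm h m ≤ 40 * ((h : ℝ) ^ 2 / 4 ^ m) := by
    nlinarith [sq_nonneg ((phi h m).re - 1)]
  obtain ⟨y, hy⟩ : ∃ y : ℝ, y = (1 + (h : ℝ) ^ 2) / 4 ^ m := ⟨_, rfl⟩
  have hy0 : 0 < y := by rw [hy]; positivity
  have e : (1 + (h : ℝ) ^ 2) ^ k / ((4 : ℝ) ^ k) ^ m = y ^ k := by
    rw [hy, Real.div_rpow (by positivity) (by positivity), ← Real.rpow_natCast ((4 : ℝ) ^ k),
      ← Real.rpow_mul (by norm_num), ← Real.rpow_natCast 4 m, ← Real.rpow_mul (by norm_num),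
      mul_comm k]
  rw [e]
  rcases le_total 1 y with h4 | h4
  · have := Real.one_le_rpow h4 hk0
    linarith [cm_nonneg h m]
  · have h5 : y ^ (1 : ℝ) ≤ y ^ k := Real.rpow_le_rpow_of_exponent_ge hy0 h4 hk
    rw [Real.rpow_one] at h5
    have h6 : (h : ℝ) ^ 2 / 4 ^ m ≤ y := by
      rw [hy]
      exact div_le_div_of_nonneg_right (by linarith) (by positivity)
    linarith

/-- Energy of the conditional expectation of a character. -/
def cc (h : ℤ) (m j : ℕ) : ℝ := (∏ r ∈ Finset.Ico j m, gam h r) * cm h m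

theorem cc_rec (h : ℤ) (m r : ℕ) (hr : r < m) : cc h m r = gam h r * cc h m (r + 1) := by
  unfold cc
  rw [Finset.prod_eq_prod_Ico_succ_bot hr, mul_assoc]

theorem cc_top (h : ℤ) (m : ℕ) : cc h m m = cm h m := by simp [cc]

theorem cc_nonneg (h : ℤ) (m j : ℕ) : 0 ≤ cc h m j :=
  mul_nonneg (Finset.prod_nonneg fun r _ => gam_nonneg h r) (cm_nonneg h m)

theorem cc_le_one (h : ℤ) (m j : ℕ) : cc h m j ≤ 1 :=
  mul_le_one₀ (Finset.prod_le_one (fun r _ => gam_nonneg h r) fun r _ => gam_le_one h r)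
    (cm_nonneg h m) (cm_le_one h m)

theorem dd_nonneg (h : ℤ) (m j : ℕ) (hj : j ≤ m) : 0 ≤ dd (cc h m) j := by
  cases j with
  | zero => exact cc_nonneg h m 0
  | succ r =>
    simp only [dd]
    rw [cc_rec h m r (by omega)]
    nlinarith [cc_nonneg h m (r + 1), gam_le_one h r]

theorem dd_le (h : ℤ) (m j : ℕ) (h1 : 1 ≤ j) (hj : j ≤ m) :
    dd (cc h m) j ≤ 10 * (1 + (h : ℝ) ^ 2) / 4 ^ j := by
  cases j with
  | zero => omega
  | succ r =>
    simp only [dd]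
    rw [cc_rec h m r (by omega)]
    refine le_trans ?_ (one_sub_gam h r)
    nlinarith [cc_nonneg h m (r + 1), gam_le_one h r, cc_le_one h m (r + 1)]

theorem cc_zero (h : ℤ) (hh : h ≠ 0) (m : ℕ) : cc h m 0 = 0 := by
  have key : ∀ j : ℕ, (2 : ℤ) ^ j ∣ h ∨ ∃ r < j, gam h r = 0 := by
    intro j
    induction j with
    | zero => left; simp
    | succ j ih =>
      rcases ih with ⟨q, hq⟩ | ⟨r, hr, h0⟩
      · rcases Int.even_or_odd' q with ⟨p, hp | hp⟩
        · left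
          exact ⟨p, by rw [hq, hp]; ring⟩
        · right
          refine ⟨j, by omega, ?_⟩
          unfold gam
          have : 2 * Real.pi * ((h : ℝ) / 2 ^ (j + 1)) = p * (2 * Real.pi) + Real.pi := by
            rw [hq, hp]
            push_cast
            field_simp
            ring
          rw [this, Real.cos_int_mul_two_pi_add_pi]
          ring
      · exact Or.inr ⟨r, by omega, h0⟩
  unfold cc
  rcases key m with ⟨q, hq⟩ | ⟨r, hr, h0⟩
  · have hq0 : q ≠ 0 := by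
      rintro rfl
      exact hh (by rw [hq]; ring)
    have : phi h m = 0 := by
      unfold phi
      have e : ∀ t : UnitAddCircle, ee (h * (rep t / 2 ^ m)) = fourier q t := by
        intro t
        conv_rhs => rw [← coe_rep t, fourier_ee]
        congr 1
        rw [hq]
        push_cast
        field_simp
      simp only [e]
      rw [int_fourier, if_neg hq0]
    simp [cm, this]
  · rw [Finset.prod_eq_zero (Finset.mem_Ico.2 ⟨Nat.zero_le _, hr⟩) h0, zero_mul]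

/-- The scrambled Hammersley points. -/
def YY {m : ℕ} (ξ : Fin 2 → JJ m → UnitAddCircle) (i : Fin m → Fin 2) : Tor 2 :=
  ![((yy i i (ξ 0) : ℝ) : UnitAddCircle), ((yy (rv i) i (ξ 1) : ℝ) : UnitAddCircle)]

theorem YY_meas {m : ℕ} (i : Fin m → Fin 2) :
    Measurable (fun ξ : Fin 2 → JJ m → UnitAddCircle => YY ξ i) := by
  refine measurable_pi_iff.2 fun a => ?_
  fin_cases a
  · exact AddCircle.measurable_mk'.comp ((yy_meas i i).comp (measurable_pi_apply 0))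
  · exact AddCircle.measurable_mk'.comp ((yy_meas (rv i) i).comp (measurable_pi_apply 1))

theorem ch_norm (h : Fin 2 → ℤ) (x : Tor 2) : ‖ch h x‖ = 1 := by
  unfold ch
  rw [norm_prod]
  refine Finset.prod_eq_one fun j _ => ?_
  rw [fourier_apply]
  exact Circle.norm_coe _

theorem ch_meas (h : Fin 2 → ℤ) : Measurable (ch h) := by
  haveI : BorelSpace (Tor 2) := Pi.borelSpace
  exact (ch_cont h).measurable

/-- The covariance kernel. -/
def KK {m : ℕ} (h : ℤ) (u v : Fin m → Fin 2) : ℝ :=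
  ∑ j ∈ Finset.range (m + 1), dd (cc h m) j * eps (Ag u v) j

theorem KK_eq {m : ℕ} (h : ℤ) (u v : Fin m → Fin 2) :
    (∏ r ∈ Finset.range m, fac (Ag u v) (gam h) r) * cm h m = KK h u v := by
  rw [← cc_top]
  exact fac_expand _ (Ag_mono u v) _ _ m (fun r hr => cc_rec h m r hr) m le_rfl

theorem KK_self {m : ℕ} (h : ℤ) (u : Fin m → Fin 2) : KK h u u = cm h m := by
  rw [← KK_eq, fac_prod_one _ (Ag_mono u u) _ m (fun _ _ => rfl), one_mul]

theorem pair2 {m : ℕ} (h : Fin 2 → ℤ) (i i' : Fin m → Fin 2) (hi : i ≠ i') :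
    ∫ ξ : Fin 2 → JJ m → UnitAddCircle, ch h (YY ξ i) * (starRingEnd ℂ) (ch h (YY ξ i')) =
      ((KK (h 0) i i' * KK (h 1) (rv i) (rv i') : ℝ) : ℂ) := by
  have key := integral_fintype_prod_volume_eq_prod (ι := Fin 2) (𝕜 := ℂ)
    (E := fun _ => JJ m → UnitAddCircle)
    (f := ![fun ξ => ee (h 0 * yy i i ξ - h 0 * yy i' i' ξ),
      fun ξ => ee (h 1 * yy (rv i) i ξ - h 1 * yy (rv i') i' ξ)])
  simp only [Fin.prod_univ_two, Matrix.cons_val_zero, Matrix.cons_val_one] at key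
  rw [pair_exp _ _ _ _ _ hi, pair_exp _ _ _ _ _ hi, KK_eq, KK_eq] at key
  push_cast
  rw [← key]
  congr 1
  funext ξ
  unfold ch YY
  simp only [Fin.prod_univ_two, Matrix.cons_val_zero, Matrix.cons_val_one, fourier_ee, map_mul,
    ee_conj, sub_eq_add_neg, ee_add]
  ring

/-- The constant of the variance bound. -/
def Ck (k : ℝ) : ℝ := 80 + 2 * (1 + 10 / (1 - (4 : ℝ) ^ k / 4)) ^ 2

theorem Ck_pos (k : ℝ) : 0 < Ck k := by unfold Ck; positivity

theorem var_char (k : ℝ) (hk0 : 0 ≤ k) (hk : k < 1) (m : ℕ) (h : Fin 2 → ℤ) (hh : h ≠ 0) :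
    ∫ ξ : Fin 2 → JJ m → UnitAddCircle, ‖∑ i, ch h (YY ξ i)‖ ^ 2 ≤
      2 ^ m * (Ck k * wt k h / ((4 : ℝ) ^ k) ^ m) := by
  classical
  have hint : ∀ i i' : Fin m → Fin 2, Integrable (fun ξ : Fin 2 → JJ m → UnitAddCircle =>
      ch h (YY ξ i) * (starRingEnd ℂ) (ch h (YY ξ i'))) := by
    intro i i'
    refine Integrable.of_bound ?_ 1 (Filter.Eventually.of_forall fun ξ => ?_)
    · exact (((ch_meas h).comp (YY_meas i)).mul
        (Complex.continuous_conj.measurable.comp ((ch_meas h).comp (YY_meas i')))).aestronglyMeasurable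
    · rw [norm_mul, Complex.norm_conj, ch_norm, ch_norm, mul_one]
  have e1 : ((∫ ξ : Fin 2 → JJ m → UnitAddCircle, ‖∑ i, ch h (YY ξ i)‖ ^ 2 : ℝ) : ℂ) =
      ((∑ i : Fin m → Fin 2, ∑ i' : Fin m → Fin 2,
        (if i = i' then 1 else KK (h 0) i i' * KK (h 1) (rv i) (rv i')) : ℝ) : ℂ) := by
    rw [← integral_complex_ofReal]
    have e2 : ∀ ξ : Fin 2 → JJ m → UnitAddCircle, ((‖∑ i, ch h (YY ξ i)‖ ^ 2 : ℝ) : ℂ) =
        ∑ i, ∑ i', ch h (YY ξ i) * (starRingEnd ℂ) (ch h (YY ξ i')) := by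
      intro ξ
      rw [← Complex.normSq_eq_norm_sq, ← Complex.mul_conj, map_sum, Finset.sum_mul_sum]
    simp only [e2]
    rw [integral_finsetSum _ fun i _ => integrable_finsetSum _ fun i' _ => hint i i']
    push_cast
    refine Finset.sum_congr rfl fun i _ => ?_
    rw [integral_finsetSum _ fun i' _ => hint i i']
    refine Finset.sum_congr rfl fun i' _ => ?_
    by_cases hi : i = i'
    · subst hi
      simp only [if_true, Complex.mul_conj, Complex.normSq_eq_norm_sq, ch_norm]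
      simp
    · rw [pair2 h i i' hi, if_neg hi]
  have e3 := Complex.ofReal_injective e1
  rw [e3]
  have hρ : (1 : ℝ) ≤ 4 ^ k := Real.one_le_rpow (by norm_num) hk0
  have hρm : (0 : ℝ) < ((4 : ℝ) ^ k) ^ m := by positivity
  obtain ⟨x0, hx0⟩ : ∃ x : ℝ, x = 1 + (h 0 : ℝ) ^ 2 := ⟨_, rfl⟩
  obtain ⟨x1, hx1⟩ : ∃ x : ℝ, x = 1 + (h 1 : ℝ) ^ 2 := ⟨_, rfl⟩
  have a0 : 1 ≤ x0 := by rw [hx0]; nlinarith [sq_nonneg (h 0 : ℝ)]
  have a1 : 1 ≤ x1 := by rw [hx1]; nlinarith [sq_nonneg (h 1 : ℝ)]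
  have b0 : 1 ≤ x0 ^ k := Real.one_le_rpow a0 hk0
  have b1 : 1 ≤ x1 ^ k := Real.one_le_rpow a1 hk0
  have hw : wt k h = x0 ^ k * x1 ^ k := by rw [wt, Fin.prod_univ_two, hx0, hx1]
  have hrow : ∀ i ∈ (Finset.univ : Finset (Fin m → Fin 2)), ∑ i' : Fin m → Fin 2,
      (if i = i' then 1 else KK (h 0) i i' * KK (h 1) (rv i) (rv i')) ≤
      Ck k * wt k h / ((4 : ℝ) ^ k) ^ m := by
    intro i _
    have c1 : ∑ i' : Fin m → Fin 2,
        (if i = i' then 1 else KK (h 0) i i' * KK (h 1) (rv i) (rv i')) =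
        (1 - cm (h 0) m * cm (h 1) m) +
          ∑ i' : Fin m → Fin 2, KK (h 0) i i' * KK (h 1) (rv i) (rv i') := by
      rw [← Finset.add_sum_erase _ _ (Finset.mem_univ i),
        ← Finset.add_sum_erase _ (fun i' => KK (h 0) i i' * KK (h 1) (rv i) (rv i'))
          (Finset.mem_univ i), if_pos rfl, KK_self, KK_self,
        Finset.sum_congr rfl fun i' hi' => if_neg (Finset.ne_of_mem_erase hi').symm]
      ring
    rw [c1]
    have c2 := double_sum i (dd (cc (h 0) m)) (dd (cc (h 1) m)) ((4 : ℝ) ^ k) hρ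
      (dd_nonneg _ m) (dd_nonneg _ m) (by
        obtain ⟨j, hj⟩ := Function.ne_iff.1 hh
        fin_cases j
        · simp only [dd]
          rw [cc_zero (h 0) hj, zero_mul]
        · simp only [dd]
          rw [cc_zero (h 1) hj, mul_zero])
    have w0 := weighted_sum k hk0 hk (dd (cc (h 0) m)) x0 a0 m (dd_nonneg _ m)
      (by rw [dd_sum]; exact cc_le_one _ _ _) (fun j h1 h2 => by rw [hx0]; exact dd_le _ _ _ h1 h2)
    have w1 := weighted_sum k hk0 hk (dd (cc (h 1) m)) x1 a1 m (dd_nonneg _ m)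
      (by rw [dd_sum]; exact cc_le_one _ _ _) (fun j h1 h2 => by rw [hx1]; exact dd_le _ _ _ h1 h2)
    have n0 : 0 ≤ ∑ j ∈ Finset.range (m + 1), ((4 : ℝ) ^ k) ^ j * dd (cc (h 0) m) j :=
      Finset.sum_nonneg fun j hj => mul_nonneg (by positivity)
        (dd_nonneg _ m j (by rw [Finset.mem_range] at hj; omega))
    have n1 : 0 ≤ ∑ j ∈ Finset.range (m + 1), ((4 : ℝ) ^ k) ^ j * dd (cc (h 1) m) j :=
      Finset.sum_nonneg fun j hj => mul_nonneg (by positivity)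
        (dd_nonneg _ m j (by rw [Finset.mem_range] at hj; omega))
    have c3 := mul_le_mul w0 w1 n1 (n0.trans w0)
    have c4 := c2.trans (mul_le_mul_of_nonneg_left c3 (by positivity))
    have d0 := one_sub_cm k hk0 hk.le (h 0) m
    have d1 := one_sub_cm k hk0 hk.le (h 1) m
    rw [← hx0] at d0
    rw [← hx1] at d1
    have d2 : 1 - cm (h 0) m * cm (h 1) m ≤ (1 - cm (h 0) m) + (1 - cm (h 1) m) := by
      nlinarith [mul_nonneg (sub_nonneg.2 (cm_le_one (h 0) m)) (sub_nonneg.2 (cm_le_one (h 1) m))]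
    have d3 : x0 ^ k / ((4 : ℝ) ^ k) ^ m ≤ x0 ^ k * x1 ^ k / ((4 : ℝ) ^ k) ^ m :=
      div_le_div_of_nonneg_right (by nlinarith) hρm.le
    have d4 : x1 ^ k / ((4 : ℝ) ^ k) ^ m ≤ x0 ^ k * x1 ^ k / ((4 : ℝ) ^ k) ^ m :=
      div_le_div_of_nonneg_right (by nlinarith) hρm.le
    have d5 : Ck k * wt k h / ((4 : ℝ) ^ k) ^ m = 80 * (x0 ^ k * x1 ^ k / ((4 : ℝ) ^ k) ^ m) +
        2 / ((4 : ℝ) ^ k) ^ m * ((1 + 10 / (1 - (4 : ℝ) ^ k / 4)) * x0 ^ k *
          ((1 + 10 / (1 - (4 : ℝ) ^ k / 4)) * x1 ^ k)) := by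
      rw [hw]
      unfold Ck
      ring
    rw [d5]
    unfold KK
    linarith
  refine (Finset.sum_le_card_nsmul _ _ _ hrow).trans (le_of_eq ?_)
  simp

end

end Pool.Agent.H429Z.Ran
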