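import Mathlib
import Pool.Agent.H429Z.Ran.Net3

set_option autoImplicit false

namespace Pool.Agent.H429Z.Ran

open MeasureTheory
open scoped ENNReal
open Pool.Agent.Helper150.Iid

noncomputable section

theorem ch_add (h : Fin 2 → ℤ) (x y : Tor 2) : ch h (x + y) = ch h x * ch h y := by
  unfold ch
  rw [← Finset.prod_mul_distrib]
  refine Finset.prod_congr rfl fun j _ => ?_
  rw [Pi.add_apply, fourier_apply, fourier_apply, fourier_apply, smul_add, AddCircle.toCircle_add,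
    Circle.coe_mul]

theorem fc_shift (f : Tor 2 → ℝ) (y : Tor 2) (h : Fin 2 → ℤ) :
    fc (fun x => f (y + x)) h = ch h y * fc f h := by
  haveI : BorelSpace (Tor 2) := Pi.borelSpace
  rw [fc_def', fc_def', ← integral_const_mul,
    ← integral_add_left_eq_self (fun x => ch h y * (ch (-h) x * (f x : ℂ))) y]
  congr 1
  funext x
  rw [ch_add, ← mul_assoc, ← mul_assoc, ch_mul, add_neg_cancel]
  simp [ch]

theorem fc_const (c : ℝ) (h : Fin 2 → ℤ) (hh : h ≠ 0) : fc (fun _ : Tor 2 => c) h = 0 := by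
  rw [fc_def', integral_mul_const, int_ch, if_neg (neg_ne_zero.2 hh), zero_mul]

theorem upperInt_le {Ω : Type} [MeasurableSpace Ω] (μ : Measure Ω) (F g : Ω → ℝ≥0∞)
    (hg : Measurable g) (hle : ∀ ω, F ω ≤ g ω) : upperInt μ F ≤ ∫⁻ ω, g ω ∂μ := by
  unfold upperInt
  exact iInf_le_of_le g (iInf_le_of_le hg (iInf_le_of_le hle le_rfl))

/-- The scrambled net rule with a random shift. -/
def netAlg (m n : ℕ) (e : Fin n ≃ (Fin m → Fin 2)) : RandAlg 2 n where
  Ω := (Fin 2 → JJ m → UnitAddCircle) × Tor 2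
  mΩ := inferInstance
  μ := (volume : Measure (Fin 2 → JJ m → UnitAddCircle)).prod (volume : Measure (Tor 2))
  prob := inferInstance
  P := fun ω a => YY ω.1 (e a) + ω.2
  measP := measurable_pi_iff.2 fun a => ((YY_meas (e a)).comp measurable_fst).add measurable_snd
  φ := fun _ y => (∑ a, y a) / 2 ^ m

theorem netAlg_meas (m n : ℕ) (e : Fin n ≃ (Fin m → Fin 2)) : MeasAlg (netAlg m n e) := by
  unfold MeasAlg
  change Measurable (fun p : ((Fin 2 → JJ m → UnitAddCircle) × Tor 2) × (Fin n → ℝ) =>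
    (∑ a, p.2 a) / 2 ^ m)
  fun_prop

theorem netAlg_err (k : ℝ) (hk0 : 0 ≤ k) (hk : k < 1) (m n : ℕ) (e : Fin n ≃ (Fin m → Fin 2)) :
    errRan (netAlg m n e) k ≤
      ENNReal.ofReal (Real.sqrt (Ck k / (2 ^ m * ((4 : ℝ) ^ k) ^ m))) := by
  haveI : BorelSpace (Tor 2) := Pi.borelSpace
  unfold errRan
  refine iSup₂_le fun f hf => ?_
  obtain ⟨hfc, hfs, hft⟩ := hf
  obtain ⟨D, hD⟩ : ∃ D : ℝ, D = Ck k / (2 ^ m * ((4 : ℝ) ^ k) ^ m) := ⟨_, rfl⟩
  have hD0 : 0 < D := by
    rw [hD]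
    have := Ck_pos k
    positivity
  rw [← hD]
  obtain ⟨G, hG⟩ : ∃ G : (Fin 2 → JJ m → UnitAddCircle) → Tor 2 → ℝ,
    G = fun ξ x => (∫ x, f x) - (2 ^ m : ℝ)⁻¹ * ∑ i, f (YY ξ i + x) := ⟨_, rfl⟩
  have hGm : Measurable (fun ω : (Fin 2 → JJ m → UnitAddCircle) × Tor 2 => G ω.1 ω.2) := by
    rw [hG]
    refine measurable_const.sub (Measurable.const_mul (Finset.measurable_sum _ fun i _ => ?_) _)
    exact hfc.measurable.comp (((YY_meas i).comp measurable_fst).add measurable_snd)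
  have hsc : ∀ ξ (i : Fin m → Fin 2), Continuous (fun x => f (YY ξ i + x)) := fun ξ i =>
    hfc.comp (continuous_const.add continuous_id)
  have hGc : ∀ ξ, Continuous (G ξ) := fun ξ => by
    rw [hG]
    exact continuous_const.sub (continuous_const.mul (continuous_finsetSum _ fun i _ => hsc ξ i))
  have hfcG : ∀ ξ h, ‖fc (G ξ) h‖ ^ 2 = if h = 0 then 0 else
      ‖fc f h‖ ^ 2 * ((2 ^ m : ℝ)⁻¹) ^ 2 * ‖∑ i, ch h (YY ξ i)‖ ^ 2 := by
    intro ξ h
    have h1 : fc (G ξ) h = fc (fun _ : Tor 2 => ∫ x, f x) h -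
        (((2 ^ m : ℝ)⁻¹ : ℝ) : ℂ) * ((∑ i, ch h (YY ξ i)) * fc f h) := by
      rw [hG]
      simp only
      rw [fc_sub (fun _ => ∫ x, f x) (fun x => (2 ^ m : ℝ)⁻¹ * ∑ i, f (YY ξ i + x)) continuous_const
        (continuous_const.mul (continuous_finsetSum _ fun i _ => hsc ξ i)), fc_smul,
        fc_finsum _ (fun i x => f (YY ξ i + x)) (hsc ξ), Finset.sum_mul]
      simp only [fc_shift]
    rw [h1]
    split_ifs with hh
    · subst hh
      rw [fc_zero', fc_zero']
      simp [ch]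
    · rw [fc_const _ h hh, zero_sub, norm_neg, norm_mul, norm_mul, Complex.norm_real,
        Real.norm_eq_abs, mul_pow, mul_pow, sq_abs]
      ring
  have hSm : ∀ h : Fin 2 → ℤ, Measurable (fun ξ : Fin 2 → JJ m → UnitAddCircle =>
      ‖∑ i, ch h (YY ξ i)‖ ^ 2) := fun h =>
    (Finset.measurable_sum _ fun i _ => (ch_meas h).comp (YY_meas i)).norm.pow_const 2
  have hSi : ∀ h : Fin 2 → ℤ, Integrable (fun ξ : Fin 2 → JJ m → UnitAddCircle =>
      ‖∑ i, ch h (YY ξ i)‖ ^ 2) := by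
    intro h
    refine Integrable.of_bound (hSm h).aestronglyMeasurable
      ((∑ _i : Fin m → Fin 2, (1 : ℝ)) ^ 2) (Filter.Eventually.of_forall fun ξ => ?_)
    rw [Real.norm_eq_abs, abs_of_nonneg (by positivity)]
    refine pow_le_pow_left₀ (norm_nonneg _) ((norm_sum_le _ _).trans (le_of_eq ?_)) 2
    simp only [ch_norm]
  have hsq : ∫⁻ ω : (Fin 2 → JJ m → UnitAddCircle) × Tor 2, ENNReal.ofReal (G ω.1 ω.2 ^ 2)
      ∂((volume : Measure (Fin 2 → JJ m → UnitAddCircle)).prod (volume : Measure (Tor 2))) ≤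
      ENNReal.ofReal D := by
    rw [lintegral_prod _ (hGm.pow_const 2).ennreal_ofReal.aemeasurable]
    have h1 : ∀ ξ : Fin 2 → JJ m → UnitAddCircle, ∫⁻ x : Tor 2, ENNReal.ofReal (G ξ x ^ 2) =
        ∑' h : Fin 2 → ℤ, ENNReal.ofReal (‖fc (G ξ) h‖ ^ 2) := by
      intro ξ
      have hp := parseval (G ξ) (hGc ξ)
      have hi : Integrable (fun x => G ξ x ^ 2) := integrable_contR ((hGc ξ).pow 2)
      rw [← ofReal_integral_eq_lintegral_ofReal hi
        (Filter.Eventually.of_forall fun x => sq_nonneg _), ← hp.tsum_eq,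
        ENNReal.ofReal_tsum_of_nonneg (fun h => by positivity) hp.summable]
    simp only [h1]
    rw [lintegral_tsum]
    · have h2 : ∀ h : Fin 2 → ℤ, ∫⁻ ξ : Fin 2 → JJ m → UnitAddCircle,
          ENNReal.ofReal (‖fc (G ξ) h‖ ^ 2) ≤ ENNReal.ofReal (D * (‖fc f h‖ ^ 2 * wt k h)) := by
        intro h
        simp only [hfcG]
        by_cases hh : h = 0
        · simp [hh]
        · simp only [if_neg hh]
          rw [← ofReal_integral_eq_lintegral_ofReal ((hSi h).const_mul _)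
            (Filter.Eventually.of_forall fun x => by positivity), integral_const_mul]
          refine ENNReal.ofReal_le_ofReal ?_
          refine (mul_le_mul_of_nonneg_left (var_char k hk0 hk m h hh) (by positivity)).trans
            (le_of_eq ?_)
          rw [hD]
          field_simp
      refine (ENNReal.tsum_le_tsum h2).trans ?_
      rw [← ENNReal.ofReal_tsum_of_nonneg (fun h => mul_nonneg hD0.le
        (mul_nonneg (by positivity) (wt_nonneg k h))) (hfs.mul_left D), tsum_mul_left]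
      refine ENNReal.ofReal_le_ofReal ?_
      nlinarith
    · intro h
      simp only [hfcG]
      by_cases hh : h = 0
      · simp [hh]
      · simp only [if_neg hh]
        exact ((hSm h).const_mul _).ennreal_ofReal.aemeasurable
  obtain ⟨δ, hδ⟩ : ∃ δ : ℝ, δ = Real.sqrt D := ⟨_, rfl⟩
  have hδ0 : 0 < δ := by rw [hδ]; exact Real.sqrt_pos.2 hD0
  have hδ2 : δ * δ = D := by rw [hδ]; exact Real.mul_self_sqrt hD0.le
  rw [← hδ]
  have hmaj : Measurable (fun ω : (Fin 2 → JJ m → UnitAddCircle) × Tor 2 =>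
      ENNReal.ofReal (1 / (2 * δ)) * ENNReal.ofReal (G ω.1 ω.2 ^ 2) + ENNReal.ofReal (δ / 2)) :=
    ((hGm.pow_const 2).ennreal_ofReal.const_mul _).add_const _
  refine (upperInt_le (Ω := (Fin 2 → JJ m → UnitAddCircle) × Tor 2) _ _ _ hmaj
    (fun ω => ?_)).trans ?_
  · change ENNReal.ofReal |(∫ x, f x) - (∑ a, f (YY ω.1 (e a) + ω.2)) / 2 ^ m| ≤ _
    have h1 : (∫ x, f x) - (∑ a, f (YY ω.1 (e a) + ω.2)) / 2 ^ m = G ω.1 ω.2 := by
      rw [hG, Equiv.sum_comp e (fun i => f (YY ω.1 i + ω.2))]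
      ring
    rw [h1, ← ENNReal.ofReal_mul (by positivity), ← ENNReal.ofReal_add (by positivity) (by positivity)]
    refine ENNReal.ofReal_le_ofReal ?_
    rw [← sq_abs]
    have h2 : 1 / (2 * δ) * |G ω.1 ω.2| ^ 2 + δ / 2 - |G ω.1 ω.2| =
        (|G ω.1 ω.2| - δ) ^ 2 / (2 * δ) := by
      field_simp
      ring
    have h3 : 0 ≤ (|G ω.1 ω.2| - δ) ^ 2 / (2 * δ) := by positivity
    linarith
  · change ∫⁻ ω : (Fin 2 → JJ m → UnitAddCircle) × Tor 2,
      (ENNReal.ofReal (1 / (2 * δ)) * ENNReal.ofReal (G ω.1 ω.2 ^ 2) + ENNReal.ofReal (δ / 2))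
      ∂((volume : Measure (Fin 2 → JJ m → UnitAddCircle)).prod (volume : Measure (Tor 2))) ≤ _
    rw [lintegral_add_right _ measurable_const, lintegral_const_mul _
      (hGm.pow_const 2).ennreal_ofReal, lintegral_const, measure_univ, mul_one]
    refine (add_le_add_left (mul_le_mul_right hsq _) _).trans ?_
    rw [← ENNReal.ofReal_mul (by positivity), ← ENNReal.ofReal_add (by positivity) (by positivity)]
    refine ENNReal.ofReal_le_ofReal (le_of_eq ?_)
    rw [← hδ2]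
    field_simp
    ring

end

end Pool.Agent.H429Z.Ran
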