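import Mathlib
import Pool.Agent.H429Z.Ran.Lower
import Pool.Agent.H429Z.Ran.Net4

set_option autoImplicit false

namespace Pool.Agent.H429Z.Ran

open MeasureTheory Filter Topology
open scoped ENNReal
open Pool.Agent.Helper150.Iid

noncomputable section

theorem ranOpt_le (Adm : ∀ d n : ℕ, RandAlg d n → Prop)
    (hAdm : ∀ d n (A : RandAlg d n), MeasAlg A → Adm d n A) (k : ℝ) (hk0 : 0 ≤ k) (hk : k < 1)
    (m n : ℕ) (hn : n = 2 ^ m) :
    ranOpt Adm 2 k n ≤ ENNReal.ofReal (Real.sqrt (Ck k) * (n : ℝ) ^ (-(k + 1 / 2))) := by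
  obtain ⟨e⟩ : Nonempty (Fin n ≃ (Fin m → Fin 2)) :=
    ⟨Fintype.equivOfCardEq (by simp [hn])⟩
  unfold ranOpt
  refine (iInf_le_of_le (netAlg m n e) (iInf_le_of_le (hAdm _ _ _ (netAlg_meas m n e))
    (netAlg_err k hk0 hk m n e))).trans (le_of_eq ?_)
  congr 1
  have hn' : (n : ℝ) = 2 ^ m := by rw [hn]; push_cast; ring
  have hn0 : (0 : ℝ) < n := by rw [hn']; positivity
  have h1 : (2 : ℝ) ^ m * ((4 : ℝ) ^ k) ^ m = ((n : ℝ) ^ (k + 1 / 2)) ^ 2 := by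
    have h2 : ((4 : ℝ) ^ k) ^ m = (n : ℝ) ^ (2 * k) := by
      rw [hn', ← Real.rpow_natCast ((4 : ℝ) ^ k), ← Real.rpow_mul (by norm_num),
        ← Real.rpow_natCast 2 m, ← Real.rpow_mul (by norm_num)]
      have : (4 : ℝ) = 2 ^ (2 : ℝ) := by norm_num
      rw [this, ← Real.rpow_mul (by norm_num)]
      congr 1
      ring
    rw [h2, ← hn', ← Real.rpow_natCast ((n : ℝ) ^ (k + 1 / 2)) 2, ← Real.rpow_mul hn0.le,
      mul_comm, ← Real.rpow_add_one hn0.ne']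
    congr 1
    push_cast
    ring
  rw [h1, Real.sqrt_div (Ck_pos k).le, Real.sqrt_sq (Real.rpow_nonneg hn0.le _),
    Real.rpow_neg hn0.le, div_eq_mul_inv]

theorem ranIid_ge (Adm : ∀ d n : ℕ, RandAlg d n → Prop) (k : ℝ) (hk0 : 0 ≤ k) (hk : k < 1)
    (E : ℝ) (hE : 0 < E) : ∃ c : ℝ, 0 < c ∧ ∀ (n : ℕ) (N : ℝ), 4 ≤ N → Foolable n N E →
      ENNReal.ofReal (c * N ^ (-(k + 1 / 2)) / Real.log N) ≤ ranIid Adm 2 k n := by
  have h1k : 0 < 1 - k := by linarith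
  obtain ⟨B, hB⟩ : ∃ B : ℝ, B = 3 + 2 / (1 - k) := ⟨_, rfl⟩
  have hB0 : 0 < B := by rw [hB]; positivity
  have hsE : 0 < Real.sqrt (10 * E) := Real.sqrt_pos.2 (by positivity)
  refine ⟨1 / (2560 * Real.sqrt (10 * E) * (6 * B)), by positivity, fun n N hN hF => ?_⟩
  have hN0 : 0 < N := by linarith
  have hlog : 1 ≤ Real.log N := by
    rw [Real.le_log_iff_exp_le hN0]
    have := Real.exp_one_lt_d9
    linarith
  have hlog0 : 0 < Real.log N := by linarith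
  obtain ⟨η, hη⟩ : ∃ η : ℝ, η = (1 - k) / Real.log N := ⟨_, rfl⟩
  have hη0 : 0 < η := by rw [hη]; positivity
  have hη1 : η ≤ 1 - k := by rw [hη]; exact div_le_self h1k.le hlog
  unfold ranIid
  refine le_iInf fun A => le_iInf fun _ => le_iInf fun hA => ?_
  refine le_trans (ENNReal.ofReal_le_ofReal ?_)
    (lower_of_fool A hA k hk0 hk N E η (by linarith) hE hη0 hη1 hF)
  have hP : 0 < N ^ (k + 1 / 2) := Real.rpow_pos_of_pos hN0 _
  have h1 : Real.sqrt (10 * (N ^ (2 * k + 1 + η) * (3 + 2 / η) ^ 2)) ≤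
      6 * B * N ^ (k + 1 / 2) * Real.log N := by
    refine Real.sqrt_le_iff.2 ⟨by positivity, ?_⟩
    have h2 : N ^ (2 * k + 1 + η) ≤ 3 * (N ^ (k + 1 / 2)) ^ 2 := by
      rw [Real.rpow_add hN0, ← Real.rpow_natCast (N ^ (k + 1 / 2)) 2, ← Real.rpow_mul hN0.le]
      have h3 : N ^ η ≤ 3 := by
        rw [Real.rpow_def_of_pos hN0, hη, mul_div_cancel₀ _ hlog0.ne']
        have := Real.exp_one_lt_d9
        have := Real.exp_le_exp.2 (by linarith : 1 - k ≤ 1)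
        linarith
      have h4 : (k + 1 / 2) * ((2 : ℕ) : ℝ) = 2 * k + 1 := by push_cast; ring
      rw [h4, mul_comm]
      exact mul_le_mul_of_nonneg_right h3 (Real.rpow_nonneg hN0.le _)
    have h5 : 3 + 2 / η ≤ B * Real.log N := by
      rw [hB, hη, add_mul]
      have : 2 / ((1 - k) / Real.log N) = 2 / (1 - k) * Real.log N := by field_simp
      rw [this]
      linarith
    have h6 := pow_le_pow_left₀ (by positivity) h5 2
    have h7 := mul_le_mul h2 h6 (by positivity) (by positivity)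
    have h8 : 0 ≤ (N ^ (k + 1 / 2)) ^ 2 * (B * Real.log N) ^ 2 := by positivity
    nlinarith
  have h9 : 1 / (2560 * Real.sqrt (10 * E) * (6 * B)) * N ^ (-(k + 1 / 2)) / Real.log N =
      1 / (2560 * Real.sqrt (10 * E) * (6 * B * N ^ (k + 1 / 2) * Real.log N)) := by
    rw [Real.rpow_neg hN0.le]
    field_simp
  rw [h9]
  refine one_div_le_one_div_of_le ?_ (mul_le_mul_of_nonneg_left h1 (by positivity))
  have : 0 < Real.sqrt (10 * (N ^ (2 * k + 1 + η) * (3 + 2 / η) ^ 2)) :=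
    Real.sqrt_pos.2 (by positivity)
  positivity

/-- The ratio along the special sequence of sample sizes. -/
theorem ratio_ran (Adm : ∀ d n : ℕ, RandAlg d n → Prop)
    (hAdm : ∀ d n (A : RandAlg d n), MeasAlg A → Adm d n A)
    (k : ℝ) (hk : 1 / 2 < k) (hk1 : k < 1) (θ : ℝ) (hθ : θ < k - 1 / 2) (n₀ : ℕ) :
    ∃ n : ℕ, n₀ ≤ n ∧ ENNReal.ofReal ((Real.log n) ^ θ) * ranOpt Adm 2 k n < ranIid Adm 2 k n := by
  obtain ⟨θ', hθ'⟩ : ∃ θ' : ℝ, θ' = max θ 0 := ⟨_, rfl⟩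
  have h0 : 0 ≤ θ' := by rw [hθ']; exact le_max_right _ _
  have h1 : θ ≤ θ' := by rw [hθ']; exact le_max_left _ _
  have h2 : θ' < k - 1 / 2 := by rw [hθ']; exact max_lt hθ (by linarith)
  obtain ⟨b0, hb0⟩ := exists_nat_ge ((4 + 3 * θ') / (k - 1 / 2 - θ'))
  obtain ⟨b, hb⟩ : ∃ b : ℕ, b = b0 + 2 := ⟨_, rfl⟩
  have hb2 : 2 ≤ b := by omega
  have hδ : (((b + 1 : ℕ) : ℝ) * (1 + θ')) + 1 ≤ (k + 1 / 2) * ((b - 1 : ℕ) : ℝ) := by
    have h3 : 4 + 3 * θ' ≤ b0 * (k - 1 / 2 - θ') := by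
      rwa [div_le_iff₀ (by linarith)] at hb0
    have h4 : ((b - 1 : ℕ) : ℝ) = b0 + 1 := by
      rw [hb]
      have : b0 + 2 - 1 = b0 + 1 := by omega
      rw [this]
      push_cast
      ring
    have h5 : ((b + 1 : ℕ) : ℝ) = b0 + 3 := by rw [hb]; push_cast; ring
    rw [h4, h5]
    nlinarith
  obtain ⟨s, E, cL, hE, hcL, hs, H⟩ := fool_main b hb2
  obtain ⟨c, hc, Hc⟩ := ranIid_ge Adm k (by linarith) hk1 E hE
  obtain ⟨C4, hC4⟩ : ∃ C4 : ℝ, C4 = Real.sqrt (Ck k) := ⟨_, rfl⟩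
  have hC40 : 0 < C4 := by rw [hC4]; exact Real.sqrt_pos.2 (Ck_pos k)
  obtain ⟨t, Ht, ht1, ht2, ht3⟩ := (H.and ((ev_const (C4 * cL ^ (1 + θ') / c + 1)).and
    ((eventually_ge_atTop 1).and (eventually_ge_atTop n₀)))).exists
  obtain ⟨N, hN⟩ : ∃ N : ℕ, N = (2 ^ (s * t)) ^ (2 ^ (b * t) + 1) := ⟨_, rfl⟩
  obtain ⟨n, hn⟩ : ∃ n : ℕ, n = 2 ^ ((b - 1) * t) * N := ⟨_, rfl⟩
  obtain ⟨Hlow, Hlog⟩ := Ht N n hN hn
  obtain ⟨X, hX⟩ : ∃ X : ℝ, X = (2:ℝ) ^ t := ⟨_, rfl⟩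
  rw [← hX] at Hlog ht1
  have hX1 : 1 ≤ X := by rw [hX]; exact one_le_pow₀ (by norm_num)
  have hX0 : 0 < X := by linarith
  have hNpos : 0 < N := by rw [hN]; positivity
  have hNR : (0:ℝ) < N := by exact_mod_cast hNpos
  have hN1 : 1 ≤ N := hNpos
  have ht4 : t < 2 ^ ((b - 1) * t) := by
    calc t < 2 ^ t := Nat.lt_two_pow_self
      _ ≤ 2 ^ ((b - 1) * t) := Nat.pow_le_pow_right (by norm_num) (by
          calc t = 1 * t := by ring
            _ ≤ (b - 1) * t := Nat.mul_le_mul_right _ (by omega))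
  have hNt : 4 ≤ N := by
    rw [hN, ← pow_mul]
    calc 4 = 2 ^ 2 := by norm_num
      _ ≤ 2 ^ (s * t * (2 ^ (b * t) + 1)) := by
          refine Nat.pow_le_pow_right (by norm_num) ?_
          have h5 : 1 ≤ s * t := Nat.mul_pos (Nat.pos_of_ne_zero hs) ht2
          have h6 : 1 ≤ 2 ^ (b * t) := Nat.one_le_two_pow
          calc 2 = 1 * 2 := by norm_num
            _ ≤ s * t * (2 ^ (b * t) + 1) := Nat.mul_le_mul h5 (by omega)
  have hnN : N ≤ n := by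
    rw [hn]
    calc N = 1 * N := by ring
      _ ≤ 2 ^ ((b - 1) * t) * N := Nat.mul_le_mul_right _ Nat.one_le_two_pow
  have hn0 : n₀ ≤ n := by
    calc n₀ ≤ t := ht3
      _ ≤ 2 ^ ((b - 1) * t) := ht4.le
      _ = 2 ^ ((b - 1) * t) * 1 := by ring
      _ ≤ 2 ^ ((b - 1) * t) * N := Nat.mul_le_mul_left _ hN1
      _ = n := hn.symm
  refine ⟨n, hn0, ?_⟩
  have hN4 : (4:ℝ) ≤ N := by exact_mod_cast hNt
  have hNn : (N:ℝ) ≤ n := by exact_mod_cast hnN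
  have hnR : (0:ℝ) < n := by linarith
  have hlogN : 1 ≤ Real.log N := by
    rw [Real.le_log_iff_exp_le hNR]
    have := Real.exp_one_lt_d9
    linarith
  have hlogNn : Real.log N ≤ Real.log n := Real.log_le_log hNR hNn
  have hlog1 : 1 ≤ Real.log n := hlogN.trans hlogNn
  have hlog0 : 0 < Real.log n := by linarith
  have hup := ranOpt_le Adm hAdm k (by linarith) hk1 ((b - 1) * t + s * t * (2 ^ (b * t) + 1)) n
    (by rw [hn, hN, ← pow_mul, ← pow_add])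
  rw [← hC4] at hup
  have hlow := Hc n N hN4 Hlow
  have hnX : (n:ℝ) = X ^ (b - 1) * N := by
    rw [hn]
    push_cast
    rw [hX, ← pow_mul, mul_comm t]
  obtain ⟨κ, hκ⟩ : ∃ κ : ℝ, κ = k + 1 / 2 := ⟨_, rfl⟩
  rw [← hκ] at hup hlow hδ
  have e1 : (Real.log n) ^ θ * Real.log N ≤ cL ^ (1 + θ') *
      X ^ (((b + 1 : ℕ) : ℝ) * (1 + θ')) := by
    calc (Real.log n) ^ θ * Real.log N
        ≤ (Real.log n) ^ θ' * Real.log n :=
          mul_le_mul (Real.rpow_le_rpow_of_exponent_le hlog1 h1) hlogNn (by linarith)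
            (Real.rpow_nonneg hlog0.le _)
      _ = (Real.log n) ^ (1 + θ') := by
          rw [add_comm, Real.rpow_add_one hlog0.ne']
      _ ≤ (cL * X ^ (b + 1)) ^ (1 + θ') :=
          Real.rpow_le_rpow hlog0.le Hlog (by linarith)
      _ = cL ^ (1 + θ') * (X ^ (b + 1)) ^ (1 + θ') := by
          rw [Real.mul_rpow hcL.le (by positivity)]
      _ = _ := by
          rw [Real.rpow_mul hX0.le, Real.rpow_natCast]
  have e2 : C4 * ((Real.log n) ^ θ * Real.log N) < c * X ^ (κ * ((b - 1 : ℕ) : ℝ)) := by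
    have h6 : C4 * cL ^ (1 + θ') < c * X := by
      have h7 : C4 * cL ^ (1 + θ') / c < X := by linarith
      rw [div_lt_iff₀ hc] at h7
      linarith
    have h7 : X ^ (((b + 1 : ℕ) : ℝ) * (1 + θ')) * X ≤ X ^ (κ * ((b - 1 : ℕ) : ℝ)) := by
      have h8 : X ^ (((b + 1 : ℕ) : ℝ) * (1 + θ')) * X =
          X ^ ((((b + 1 : ℕ) : ℝ) * (1 + θ')) + 1) := by
        rw [Real.rpow_add hX0, Real.rpow_one]
      rw [h8]
      exact Real.rpow_le_rpow_of_exponent_le hX1 hδ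
    have h8 : 0 < X ^ (((b + 1 : ℕ) : ℝ) * (1 + θ')) := Real.rpow_pos_of_pos hX0 _
    calc C4 * ((Real.log n) ^ θ * Real.log N)
        ≤ C4 * (cL ^ (1 + θ') * X ^ (((b + 1 : ℕ) : ℝ) * (1 + θ'))) :=
          mul_le_mul_of_nonneg_left e1 hC40.le
      _ = (C4 * cL ^ (1 + θ')) * X ^ (((b + 1 : ℕ) : ℝ) * (1 + θ')) := by ring
      _ < (c * X) * X ^ (((b + 1 : ℕ) : ℝ) * (1 + θ')) := mul_lt_mul_of_pos_right h6 h8
      _ = c * (X ^ (((b + 1 : ℕ) : ℝ) * (1 + θ')) * X) := by ring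
      _ ≤ c * X ^ (κ * ((b - 1 : ℕ) : ℝ)) := mul_le_mul_of_nonneg_left h7 hc.le
  have hlN0 : 0 < Real.log N := by linarith
  have e3 : (Real.log n) ^ θ * (C4 * (n : ℝ) ^ (-κ)) < c * (N : ℝ) ^ (-κ) / Real.log N := by
    have h9 : (n : ℝ) ^ (-κ) = (X ^ (κ * ((b - 1 : ℕ) : ℝ)))⁻¹ * (N : ℝ) ^ (-κ) := by
      rw [hnX, Real.mul_rpow (by positivity) hNR.le]
      congr 1
      rw [← Real.rpow_natCast X (b - 1), ← Real.rpow_mul hX0.le, ← Real.rpow_neg hX0.le]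
      congr 1
      ring
    have h10 : 0 < X ^ (κ * ((b - 1 : ℕ) : ℝ)) := Real.rpow_pos_of_pos hX0 _
    have h11 : 0 < (N : ℝ) ^ (-κ) := Real.rpow_pos_of_pos hNR _
    rw [h9, lt_div_iff₀ hlN0]
    calc (Real.log n) ^ θ * (C4 * ((X ^ (κ * ((b - 1 : ℕ) : ℝ)))⁻¹ * (N : ℝ) ^ (-κ))) *
          Real.log N
        = (C4 * ((Real.log n) ^ θ * Real.log N)) *
          ((X ^ (κ * ((b - 1 : ℕ) : ℝ)))⁻¹ * (N : ℝ) ^ (-κ)) := by ring
      _ < (c * X ^ (κ * ((b - 1 : ℕ) : ℝ))) *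
          ((X ^ (κ * ((b - 1 : ℕ) : ℝ)))⁻¹ * (N : ℝ) ^ (-κ)) :=
          mul_lt_mul_of_pos_right e2 (by positivity)
      _ = c * (N : ℝ) ^ (-κ) := by
          field_simp
  calc ENNReal.ofReal ((Real.log n) ^ θ) * ranOpt Adm 2 k n
      ≤ ENNReal.ofReal ((Real.log n) ^ θ) * ENNReal.ofReal (C4 * (n : ℝ) ^ (-κ)) := by
        gcongr
    _ = ENNReal.ofReal ((Real.log n) ^ θ * (C4 * (n : ℝ) ^ (-κ))) := by
        rw [ENNReal.ofReal_mul (Real.rpow_nonneg hlog0.le _)]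
    _ < ENNReal.ofReal (c * (N : ℝ) ^ (-κ) / Real.log N) := by
        refine (ENNReal.ofReal_lt_ofReal_iff ?_).2 e3
        exact div_pos (mul_pos hc (Real.rpow_pos_of_pos hNR _)) hlN0
    _ ≤ ranIid Adm 2 k n := hlow

theorem not_sameOrder (Adm : ∀ d n : ℕ, RandAlg d n → Prop)
    (hAdm : ∀ d n (A : RandAlg d n), MeasAlg A → Adm d n A) :
    ¬ ∀ (d : ℕ) (k : ℝ), 1 ≤ d → 1 / 2 < k → SameOrder (ranIid Adm d k) (ranOpt Adm d k) := by
  intro h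
  obtain ⟨c, C, hc, n₀, H⟩ := h 2 (3 / 4) (by norm_num) (by norm_num)
  have h1 : Filter.Tendsto (fun n : ℕ => (Real.log n) ^ (1 / 8 : ℝ)) Filter.atTop Filter.atTop :=
    (tendsto_rpow_atTop (by norm_num)).comp
      (Real.tendsto_log_atTop.comp tendsto_natCast_atTop_atTop)
  obtain ⟨n₁, hn₁⟩ := Filter.eventually_atTop.1 (h1.eventually_ge_atTop C)
  obtain ⟨n, hn, hlt⟩ := ratio_ran Adm hAdm (3 / 4) (by norm_num) (by norm_num) (1 / 8)
    (by norm_num) (max n₀ n₁)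
  have h2 := (H n (le_trans (le_max_left _ _) hn)).2
  have h3 := hn₁ n (le_trans (le_max_right _ _) hn)
  have h4 : ENNReal.ofReal C * ranOpt Adm 2 (3 / 4) n ≤
      ENNReal.ofReal ((Real.log n) ^ (1 / 8 : ℝ)) * ranOpt Adm 2 (3 / 4) n := by
    gcongr
  exact absurd (h2.trans h4) (not_le.2 hlt)

end

end Pool.Agent.H429Z.Ran
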